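import Pool.Agent.V5.Basic

set_option autoImplicit false

/-!
# CELL: covering of the archimedean region
-/

namespace Pool.V5

open Finset NumberField Pool.Lib18ea5f

namespace Cell

/-! ### Cells of a disc -/

/-- number of cells of an interval -/
noncomputable def cM (κ δ : ℝ) : ℕ := ⌊2 * κ / δ⌋₊ + 1

/-- cells of an interval -/
noncomputable def c1 (κ δ x : ℝ) : Fin (cM κ δ) :=
  ⟨min ⌊(x + κ) / δ⌋₊ ⌊2 * κ / δ⌋₊, by unfold cM; omega⟩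

lemma c1_spec {κ δ x y : ℝ} (hδ : 0 < δ) (hx : |x| ≤ κ) (hy : |y| ≤ κ)
    (h : c1 κ δ x = c1 κ δ y) : |x - y| ≤ δ := by
  rw [abs_le] at hx hy
  have h1 : ∀ z, -κ ≤ z → z ≤ κ → min ⌊(z + κ) / δ⌋₊ ⌊2 * κ / δ⌋₊ = ⌊(z + κ) / δ⌋₊ := by
    intro z hz hz'
    apply min_eq_left
    apply Nat.floor_le_floor
    exact div_le_div_of_nonneg_right (by linarith) hδ.le
  have h2 : ⌊(x + κ) / δ⌋₊ = ⌊(y + κ) / δ⌋₊ := by
    have := congrArg Fin.val h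
    simp only [c1] at this
    rwa [h1 x hx.1 hx.2, h1 y hy.1 hy.2] at this
  have a1 := Nat.floor_le (show 0 ≤ (x + κ) / δ from div_nonneg (by linarith) hδ.le)
  have a2 := Nat.lt_floor_add_one ((x + κ) / δ)
  have a3 := Nat.floor_le (show 0 ≤ (y + κ) / δ from div_nonneg (by linarith) hδ.le)
  have a4 := Nat.lt_floor_add_one ((y + κ) / δ)
  rw [← h2] at a3 a4
  have h3 : |(x + κ) / δ - (y + κ) / δ| ≤ 1 := by
    rw [abs_le]; constructor <;> linarith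
  rw [← sub_div, abs_div, abs_of_pos hδ, div_le_one hδ] at h3
  have : x + κ - (y + κ) = x - y := by ring
  rwa [this] at h3

lemma cM_le {κ δ : ℝ} (hκ : 0 ≤ κ) (hδ : 0 < δ) (hδ1 : δ ≤ 1) :
    (cM κ δ : ℝ) ≤ (2 * κ + 1) / δ := by
  unfold cM
  push_cast
  have h1 := Nat.floor_le (show 0 ≤ 2 * κ / δ by positivity)
  have h2 : 1 ≤ 1 / δ := by rw [le_div_iff₀ hδ]; linarith
  rw [add_div]
  linarith

/-- cells of a disc (`m = 2`) or an interval (`m = 1`) -/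
noncomputable def cc (κ δ : ℝ) (m : ℕ) (z : ℂ) : Fin m → Fin (cM κ δ) :=
  fun r => if (r : ℕ) = 0 then c1 κ δ z.re else c1 κ δ z.im

lemma cc_spec {κ δ : ℝ} (hδ : 0 < δ) {m : ℕ} (hm : m = 1 ∨ m = 2) {z z' : ℂ}
    (hz : ‖z‖ ≤ κ) (hz' : ‖z'‖ ≤ κ) (h1 : m = 1 → z.im = 0) (h1' : m = 1 → z'.im = 0)
    (h : cc κ δ m z = cc κ δ m z') : ‖z - z'‖ ≤ 2 * δ := by
  have hre : |(z - z').re| ≤ δ := by
    rw [Complex.sub_re]
    apply c1_spec hδ ((Complex.abs_re_le_norm z).trans hz) ((Complex.abs_re_le_norm z').trans hz')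
    have := congrFun h ⟨0, by omega⟩
    simpa [cc] using this
  have him : |(z - z').im| ≤ δ := by
    rw [Complex.sub_im]
    rcases hm with hm | hm
    · rw [h1 hm, h1' hm]; simpa using hδ.le
    · apply c1_spec hδ ((Complex.abs_im_le_norm z).trans hz)
        ((Complex.abs_im_le_norm z').trans hz')
      have := congrFun h ⟨1, by omega⟩
      simpa [cc] using this
  have := Complex.norm_le_abs_re_add_abs_im (z - z')
  linarith

/-! ### Compactness -/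

lemma lower {X ι : Type*} [TopologicalSpace X] [Fintype ι] {S : Set X} (hS : IsCompact S)
    (F : ι → X → ℂ) (hF : ∀ i, Continuous (F i)) (h : ∀ x ∈ S, ∃ i, F i x ≠ 0) :
    ∃ c : ℝ, 0 < c ∧ ∀ x ∈ S, ∃ i, c ≤ ‖F i x‖ := by
  classical
  rcases S.eq_empty_or_nonempty with rfl | hne
  · exact ⟨1, one_pos, fun x hx => absurd hx (Set.notMem_empty x)⟩
  have hcont : Continuous (fun x => ∑ i, ‖F i x‖) :=
    continuous_finsetSum _ fun i _ => (hF i).norm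
  obtain ⟨x0, hx0, hmin⟩ := hS.exists_isMinOn hne hcont.continuousOn
  obtain ⟨i0, hi0⟩ := h x0 hx0
  have hpos : 0 < ∑ i, ‖F i x0‖ :=
    Finset.sum_pos' (fun i _ => norm_nonneg _) ⟨i0, Finset.mem_univ _, norm_pos_iff.2 hi0⟩
  have hcard : (0 : ℝ) < Fintype.card ι := by
    have : 0 < Fintype.card ι := Fintype.card_pos_iff.2 ⟨i0⟩
    exact_mod_cast this
  refine ⟨(∑ i, ‖F i x0‖) / Fintype.card ι, div_pos hpos hcard, fun x hx => ?_⟩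
  have h1 : ∑ i : ι, (∑ i, ‖F i x0‖) / Fintype.card ι ≤ ∑ i, ‖F i x‖ := by
    rw [Finset.sum_const, Finset.card_univ, nsmul_eq_mul, mul_div_cancel₀ _ hcard.ne']
    exact hmin hx
  obtain ⟨i, -, hi⟩ := Finset.exists_le_of_sum_le ⟨i0, Finset.mem_univ _⟩ h1
  exact ⟨i, hi⟩

lemma compact_shell (n : ℕ) (κ : ℝ) :
    IsCompact {u : Fin n → ℂ | (∀ j, ‖u j‖ ≤ κ) ∧ ∃ j, 1 ≤ κ * ‖u j‖} := by
  have h1 : IsClosed {u : Fin n → ℂ | (∀ j, ‖u j‖ ≤ κ) ∧ ∃ j, 1 ≤ κ * ‖u j‖} := by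
    apply IsClosed.inter
    · have : {u : Fin n → ℂ | ∀ j, ‖u j‖ ≤ κ} = ⋂ j, {u | ‖u j‖ ≤ κ} := by
        ext u; simp
      show IsClosed {u : Fin n → ℂ | ∀ j, ‖u j‖ ≤ κ}
      rw [this]
      exact isClosed_iInter fun j => isClosed_le (by fun_prop) continuous_const
    · have : {u : Fin n → ℂ | ∃ j, 1 ≤ κ * ‖u j‖} = ⋃ j, {u | 1 ≤ κ * ‖u j‖} := by
        ext u; simp
      show IsClosed {u : Fin n → ℂ | ∃ j, 1 ≤ κ * ‖u j‖}
      rw [this]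
      exact isClosed_iUnion_of_finite fun j => isClosed_le continuous_const (by fun_prop)
  refine (isCompact_closedBall (0 : Fin n → ℂ) (max κ 0)).of_isClosed_subset h1 ?_
  rintro u ⟨hu, -⟩
  rw [mem_closedBall_zero_iff]
  exact (pi_norm_le_iff_of_nonneg (le_max_right _ _)).2 fun j => (hu j).trans (le_max_left _ _)

lemma continuous_av (ω : Fin 3 → Fin 5 → Fin 5 → ℂ) (q : Fin 5 × Fin 5) (k : Fin 3) :
    Continuous (fun u => av ω u q k) := by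
  fin_cases k <;> simp only [av, cr, col] <;> simp <;> fun_prop

lemma continuous_pf (ω : Fin 3 → Fin 5 → Fin 5 → ℂ) (j : Fin 5) :
    Continuous (fun a => pf (comb ω a) j) := by
  fin_cases j <;> simp only [pf, comb] <;> simp <;> fun_prop

/-! ### Estimates -/

lemma tri {W η : ℝ} {x y z e f g : ℂ} (hx : ‖x‖ ≤ W) (hy : ‖y‖ ≤ W) (hz : ‖z‖ ≤ W)
    (he : ‖e‖ ≤ η) (hf : ‖f‖ ≤ η) (hg : ‖g‖ ≤ η) : ‖x * e - y * f + z * g‖ ≤ 3 * W * η := by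
  have hW : 0 ≤ W := (norm_nonneg x).trans hx
  have h1 : ‖x * e‖ ≤ W * η := by
    rw [norm_mul]; exact mul_le_mul hx he (norm_nonneg _) hW
  have h2 : ‖y * f‖ ≤ W * η := by
    rw [norm_mul]; exact mul_le_mul hy hf (norm_nonneg _) hW
  have h3 : ‖z * g‖ ≤ W * η := by
    rw [norm_mul]; exact mul_le_mul hz hg (norm_nonneg _) hW
  have h4 := norm_add_le (x * e - y * f) (z * g)
  have h5 := norm_sub_le (x * e) (y * f)
  linarith

lemma pf_est {m : Fin 5 → Fin 5 → ℂ} (h0 : ∀ i, m i i = 0) (h1 : ∀ i j, m i j = - m j i)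
    {W η : ℝ} (hW : ∀ i j, ‖m i j‖ ≤ W) {u : Fin 5 → ℂ} (he : ∀ l, ‖∑ i, m i l * u i‖ ≤ η)
    (i j : Fin 5) : ‖u i * pf m j - u j * pf m i‖ ≤ 3 * W * η := by
  obtain ⟨a01, a02, a03, a04, a12, a13, a14, a23, a24, a34⟩ :=
    pf_identity h0 h1 u (fun l => ∑ i, m i l * u i) (fun _ => rfl)
  have hW0 : 0 ≤ W := (norm_nonneg _).trans (hW 0 0)
  have hη0 : 0 ≤ η := (norm_nonneg _).trans (he 0)
  have hz : ∀ x : ℂ, ‖x - x‖ ≤ 3 * W * η := by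
    intro x; rw [sub_self, norm_zero]; positivity
  have sym : ∀ {i j : Fin 5}, ‖u i * pf m j - u j * pf m i‖ ≤ 3 * W * η →
      ‖u j * pf m i - u i * pf m j‖ ≤ 3 * W * η := by
    intro i j h; rwa [norm_sub_rev]
  have b01 : ‖u 0 * pf m 1 - u 1 * pf m 0‖ ≤ 3 * W * η := by
    rw [a01, norm_neg]; exact tri (hW _ _) (hW _ _) (hW _ _) (he _) (he _) (he _)
  have b02 : ‖u 0 * pf m 2 - u 2 * pf m 0‖ ≤ 3 * W * η := by
    rw [a02]; exact tri (hW _ _) (hW _ _) (hW _ _) (he _) (he _) (he _)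
  have b03 : ‖u 0 * pf m 3 - u 3 * pf m 0‖ ≤ 3 * W * η := by
    rw [a03, norm_neg]; exact tri (hW _ _) (hW _ _) (hW _ _) (he _) (he _) (he _)
  have b04 : ‖u 0 * pf m 4 - u 4 * pf m 0‖ ≤ 3 * W * η := by
    rw [a04]; exact tri (hW _ _) (hW _ _) (hW _ _) (he _) (he _) (he _)
  have b12 : ‖u 1 * pf m 2 - u 2 * pf m 1‖ ≤ 3 * W * η := by
    rw [a12, norm_neg]; exact tri (hW _ _) (hW _ _) (hW _ _) (he _) (he _) (he _)
  have b13 : ‖u 1 * pf m 3 - u 3 * pf m 1‖ ≤ 3 * W * η := by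
    rw [a13]; exact tri (hW _ _) (hW _ _) (hW _ _) (he _) (he _) (he _)
  have b14 : ‖u 1 * pf m 4 - u 4 * pf m 1‖ ≤ 3 * W * η := by
    rw [a14, norm_neg]; exact tri (hW _ _) (hW _ _) (hW _ _) (he _) (he _) (he _)
  have b23 : ‖u 2 * pf m 3 - u 3 * pf m 2‖ ≤ 3 * W * η := by
    rw [a23, norm_neg]; exact tri (hW _ _) (hW _ _) (hW _ _) (he _) (he _) (he _)
  have b24 : ‖u 2 * pf m 4 - u 4 * pf m 2‖ ≤ 3 * W * η := by
    rw [a24]; exact tri (hW _ _) (hW _ _) (hW _ _) (he _) (he _) (he _)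
  have b34 : ‖u 3 * pf m 4 - u 4 * pf m 3‖ ≤ 3 * W * η := by
    rw [a34, norm_neg]; exact tri (hW _ _) (hW _ _) (hW _ _) (he _) (he _) (he _)
  fin_cases i <;> fin_cases j <;> simp only [Fin.zero_eta, Fin.mk_one, Fin.reduceFinMk] <;>
    first
    | exact hz _
    | assumption
    | (apply sym; assumption)

lemma prod_lip {W ρ : ℝ} {x y x' y' : ℂ} (hy : ‖y‖ ≤ W) (hx' : ‖x'‖ ≤ W)
    (hxx : ‖x - x'‖ ≤ ρ) (hyy : ‖y - y'‖ ≤ ρ) : ‖x * y - x' * y'‖ ≤ 2 * W * ρ := by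
  have hW : 0 ≤ W := (norm_nonneg y).trans hy
  have hρ : 0 ≤ ρ := (norm_nonneg _).trans hxx
  have e : x * y - x' * y' = (x - x') * y + x' * (y - y') := by ring
  rw [e]
  have h1 : ‖(x - x') * y‖ ≤ ρ * W := by
    rw [norm_mul]; exact mul_le_mul hxx hy (norm_nonneg _) hρ
  have h2 : ‖x' * (y - y')‖ ≤ W * ρ := by
    rw [norm_mul]; exact mul_le_mul hx' hyy (norm_nonneg _) hW
  have := norm_add_le ((x - x') * y) (x' * (y - y'))
  linarith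

lemma pf_lip {m m' : Fin 5 → Fin 5 → ℂ} {W ρ : ℝ} (hW : ∀ i j, ‖m i j‖ ≤ W)
    (hW' : ∀ i j, ‖m' i j‖ ≤ W) (h : ∀ i j, ‖m i j - m' i j‖ ≤ ρ) (j : Fin 5) :
    ‖pf m j - pf m' j‖ ≤ 6 * W * ρ := by
  have key : ∀ i1 j1 i2 j2 i3 j3 i4 j4 i5 j5 i6 j6 : Fin 5,
      ‖(m i1 j1 * m i2 j2 - m i3 j3 * m i4 j4 + m i5 j5 * m i6 j6) -
        (m' i1 j1 * m' i2 j2 - m' i3 j3 * m' i4 j4 + m' i5 j5 * m' i6 j6)‖ ≤ 6 * W * ρ := by
    intro i1 j1 i2 j2 i3 j3 i4 j4 i5 j5 i6 j6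
    have e : (m i1 j1 * m i2 j2 - m i3 j3 * m i4 j4 + m i5 j5 * m i6 j6) -
        (m' i1 j1 * m' i2 j2 - m' i3 j3 * m' i4 j4 + m' i5 j5 * m' i6 j6) =
        (m i1 j1 * m i2 j2 - m' i1 j1 * m' i2 j2) - (m i3 j3 * m i4 j4 - m' i3 j3 * m' i4 j4)
          + (m i5 j5 * m i6 j6 - m' i5 j5 * m' i6 j6) := by ring
    rw [e]
    have h1 := prod_lip (hW i2 j2) (hW' i1 j1) (h i1 j1) (h i2 j2)
    have h2 := prod_lip (hW i4 j4) (hW' i3 j3) (h i3 j3) (h i4 j4)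
    have h3 := prod_lip (hW i6 j6) (hW' i5 j5) (h i5 j5) (h i6 j6)
    have h4 := norm_add_le ((m i1 j1 * m i2 j2 - m' i1 j1 * m' i2 j2) -
      (m i3 j3 * m i4 j4 - m' i3 j3 * m' i4 j4)) (m i5 j5 * m i6 j6 - m' i5 j5 * m' i6 j6)
    have h5 := norm_sub_le (m i1 j1 * m i2 j2 - m' i1 j1 * m' i2 j2)
      (m i3 j3 * m i4 j4 - m' i3 j3 * m' i4 j4)
    linarith
  have key' : ∀ x y : ℂ, ‖x - y‖ ≤ 6 * W * ρ → ‖-x - -y‖ ≤ 6 * W * ρ := by
    intro x y hxy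
    have : -x - -y = -(x - y) := by ring
    rwa [this, norm_neg]
  fin_cases j
  · exact key _ _ _ _ _ _ _ _ _ _ _ _
  · exact key' _ _ (key _ _ _ _ _ _ _ _ _ _ _ _)
  · exact key _ _ _ _ _ _ _ _ _ _ _ _
  · exact key' _ _ (key _ _ _ _ _ _ _ _ _ _ _ _)
  · exact key _ _ _ _ _ _ _ _ _ _ _ _

lemma pf_bound {m : Fin 5 → Fin 5 → ℂ} {W : ℝ} (hW : ∀ i j, ‖m i j‖ ≤ W) (j : Fin 5) :
    ‖pf m j‖ ≤ 3 * W * W := by
  fin_cases j
  · exact tri (hW _ _) (hW _ _) (hW _ _) (hW _ _) (hW _ _) (hW _ _)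
  · show ‖-(m 0 2 * m 3 4 - m 0 3 * m 2 4 + m 0 4 * m 2 3)‖ ≤ _
    rw [norm_neg]; exact tri (hW _ _) (hW _ _) (hW _ _) (hW _ _) (hW _ _) (hW _ _)
  · exact tri (hW _ _) (hW _ _) (hW _ _) (hW _ _) (hW _ _) (hW _ _)
  · show ‖-(m 0 1 * m 2 4 - m 0 2 * m 1 4 + m 0 4 * m 1 2)‖ ≤ _
    rw [norm_neg]; exact tri (hW _ _) (hW _ _) (hW _ _) (hW _ _) (hW _ _) (hW _ _)
  · exact tri (hW _ _) (hW _ _) (hW _ _) (hW _ _) (hW _ _) (hW _ _)

/-- the comparison of two points of a cell -/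
lemma compare {m m' : Fin 5 → Fin 5 → ℂ} (h0 : ∀ i, m i i = 0) (h1 : ∀ i j, m i j = - m j i)
    (h0' : ∀ i, m' i i = 0) (h1' : ∀ i j, m' i j = - m' j i) {W ρ η κ σ c : ℝ}
    (hW : ∀ i j, ‖m i j‖ ≤ W) (hW' : ∀ i j, ‖m' i j‖ ≤ W) (hρ : ∀ i j, ‖m i j - m' i j‖ ≤ ρ)
    {u u' : Fin 5 → ℂ} (he : ∀ l, ‖∑ i, m i l * u i‖ ≤ η) (he' : ∀ l, ‖∑ i, m' i l * u' i‖ ≤ η)
    (hu' : ∀ j, ‖u' j‖ ≤ κ) {i0 : Fin 5} (hi0 : ‖u i0 - u' i0‖ ≤ σ) (hc : c ≤ ‖pf m i0‖)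
    (j : Fin 5) : c * ‖u j - u' j‖ ≤ σ * (3 * W * W) + 12 * κ * W * ρ + 6 * W * η := by
  have hκ0 : 0 ≤ κ := (norm_nonneg _).trans (hu' 0)
  have hσ0 : 0 ≤ σ := (norm_nonneg _).trans hi0
  have e : (u j - u' j) * pf m i0 = (u i0 - u' i0) * pf m j + u' i0 * (pf m j - pf m' j)
      + (u j * pf m i0 - u i0 * pf m j) - (u' j * pf m' i0 - u' i0 * pf m' j)
      - u' j * (pf m i0 - pf m' i0) := by ring
  have a1 : ‖(u i0 - u' i0) * pf m j‖ ≤ σ * (3 * W * W) := by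
    rw [norm_mul]; exact mul_le_mul hi0 (pf_bound hW j) (norm_nonneg _) hσ0
  have a2 : ‖u' i0 * (pf m j - pf m' j)‖ ≤ κ * (6 * W * ρ) := by
    rw [norm_mul]; exact mul_le_mul (hu' i0) (pf_lip hW hW' hρ j) (norm_nonneg _) hκ0
  have a3 := pf_est h0 h1 hW he j i0
  have a4 := pf_est h0' h1' hW' he' j i0
  have a5 : ‖u' j * (pf m i0 - pf m' i0)‖ ≤ κ * (6 * W * ρ) := by
    rw [norm_mul]; exact mul_le_mul (hu' j) (pf_lip hW hW' hρ i0) (norm_nonneg _) hκ0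
  have h2 : ‖(u j - u' j) * pf m i0‖ ≤ σ * (3 * W * W) + 12 * κ * W * ρ + 6 * W * η := by
    rw [e]
    have b1 := norm_sub_le ((u i0 - u' i0) * pf m j + u' i0 * (pf m j - pf m' j)
      + (u j * pf m i0 - u i0 * pf m j) - (u' j * pf m' i0 - u' i0 * pf m' j))
      (u' j * (pf m i0 - pf m' i0))
    have b2 := norm_sub_le ((u i0 - u' i0) * pf m j + u' i0 * (pf m j - pf m' j)
      + (u j * pf m i0 - u i0 * pf m j)) (u' j * pf m' i0 - u' i0 * pf m' j)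
    have b3 := norm_add_le ((u i0 - u' i0) * pf m j + u' i0 * (pf m j - pf m' j))
      (u j * pf m i0 - u i0 * pf m j)
    have b4 := norm_add_le ((u i0 - u' i0) * pf m j) (u' i0 * (pf m j - pf m' j))
    linarith
  rw [norm_mul] at h2
  have h3 : c * ‖u j - u' j‖ ≤ ‖u j - u' j‖ * ‖pf m i0‖ := by
    rw [mul_comm]
    exact mul_le_mul_of_nonneg_left hc (norm_nonneg _)
  linarith

/-! ### The data of a point of the region -/

lemma real_av {ω : Fin 3 → Fin 5 → Fin 5 → ℂ} (hω : ∀ k i j, (ω k i j).im = 0) {u : Fin 5 → ℂ}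
    (hu : ∀ j, (u j).im = 0) (q : Fin 5 × Fin 5) (k : Fin 3) : (av ω u q k).im = 0 := by
  have h1 : mp (starRingEnd ℂ) ω = ω := by
    funext k i j
    exact Complex.conj_eq_iff_im.2 (hω k i j)
  have h2 : (fun i => starRingEnd ℂ (u i)) = u := by
    funext i
    exact Complex.conj_eq_iff_im.2 (hu i)
  have h3 := av_mp (starRingEnd ℂ) ω u q k
  rw [h1, h2] at h3
  exact Complex.conj_eq_iff_im.1 h3.symm

lemma data {ω : Fin 3 → Fin 5 → Fin 5 → ℂ}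
    (hpf : ∀ a : Fin 3 → ℂ, a ≠ 0 → pf (comb ω a) ≠ 0)
    (hav : ∀ u : Fin 5 → ℂ, u ≠ 0 → ∃ q, av ω u q ≠ 0) {κ : ℝ} (_hκ : 1 ≤ κ) :
    ∃ c₁ c₂ : ℝ, 0 < c₁ ∧ 0 < c₂ ∧ ∀ m : ℕ, ((m = 1 ∧ ∀ k i j, (ω k i j).im = 0) ∨ m = 2) →
      ∀ δ : ℝ, 0 < δ → ∀ u : Fin 5 → ℂ, InReg ω κ m 1 δ u →
      ∃ p : Fin 3 × Fin 5 × (Fin 3 → ℂ), p.2.2 p.1 = 1 ∧ (∀ l, ‖p.2.2 l‖ ≤ 1) ∧
        (m = 1 → ∀ l, (p.2.2 l).im = 0) ∧
        (∀ l, ‖∑ i, comb ω p.2.2 i l * u i‖ ≤ κ / c₁ * δ) ∧ c₂ ≤ ‖pf (comb ω p.2.2) p.2.1‖ := by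
  obtain ⟨c₁, hc₁, h₁⟩ := lower (compact_shell 5 κ)
    (fun (s : (Fin 5 × Fin 5) × Fin 3) u => av ω u s.1 s.2) (fun s => continuous_av ω s.1 s.2) (by
      rintro u ⟨-, j, hj⟩
      have hu : u ≠ 0 := by
        rintro rfl
        simp at hj
        linarith
      obtain ⟨q, hq⟩ := hav u hu
      obtain ⟨k, hk⟩ := Function.ne_iff.1 hq
      exact ⟨(q, k), hk⟩)
  obtain ⟨c₂, hc₂, h₂⟩ := lower (compact_shell 3 1)
    (fun (j : Fin 5) a => pf (comb ω a) j) (fun j => continuous_pf ω j) (by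
      rintro a ⟨-, j, hj⟩
      have ha : a ≠ 0 := by
        rintro rfl
        simp at hj
        linarith
      obtain ⟨k, hk⟩ := Function.ne_iff.1 (hpf a ha)
      exact ⟨k, hk⟩)
  refine ⟨c₁, c₂, hc₁, hc₂, fun m hm δ hδ u hu => ?_⟩
  obtain ⟨hu1, hu2, ⟨j0, hu3⟩, hu4⟩ := hu
  obtain ⟨⟨q, k0⟩, hq⟩ := h₁ u ⟨fun j => by simpa using hu2 j, j0, hu3⟩
  -- the largest coordinate
  obtain ⟨k, -, hk⟩ := Finset.exists_max_image (Finset.univ : Finset (Fin 3))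
    (fun l => ‖av ω u q l‖) ⟨0, Finset.mem_univ _⟩
  have hak : c₁ ≤ ‖av ω u q k‖ := hq.trans (hk k0 (Finset.mem_univ _))
  have hak0 : 0 < ‖av ω u q k‖ := hc₁.trans_le hak
  have hne : av ω u q k ≠ 0 := norm_pos_iff.1 hak0
  set b : Fin 3 → ℂ := (av ω u q k)⁻¹ • av ω u q with hb
  have hbk : b k = 1 := by simp [hb, hne]
  have hbl : ∀ l, ‖b l‖ ≤ 1 := by
    intro l
    rw [hb, Pi.smul_apply, smul_eq_mul, norm_mul, norm_inv, inv_mul_le_iff₀ hak0, mul_one]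
    exact hk l (Finset.mem_univ _)
  obtain ⟨i0, hi0⟩ := h₂ b ⟨hbl, k, by rw [hbk]; simp⟩
  refine ⟨(k, i0, b), hbk, hbl, ?_, ?_, hi0⟩
  · intro hm1 l
    have hω : ∀ k i j, (ω k i j).im = 0 := by
      rcases hm with h | h
      · exact h.2
      · omega
    have hr := real_av hω (hu1 hm1) q
    have e1 : ((av ω u q k).re : ℂ) = av ω u q k := Complex.ext rfl (by simp [hr k])
    have e2 : ((av ω u q l).re : ℂ) = av ω u q l := Complex.ext rfl (by simp [hr l])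
    show ((av ω u q k)⁻¹ * av ω u q l).im = 0
    rw [← e1, ← e2, ← Complex.ofReal_inv, ← Complex.ofReal_mul, Complex.ofReal_im]
  · intro l
    have e1 : ∑ i, comb ω b i l * u i = (av ω u q k)⁻¹ * Dv ω u (q, l) := by
      rw [← comb_av, Finset.mul_sum]
      refine Finset.sum_congr rfl fun i _ => ?_
      rw [hb, comb_smul]
      ring
    show ‖∑ i, comb ω b i l * u i‖ ≤ _
    rw [e1, norm_mul, norm_inv]
    have h3 := hu4 (q, l)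
    rw [one_pow, mul_one] at h3
    calc ‖av ω u q k‖⁻¹ * ‖Dv ω u (q, l)‖ ≤ c₁⁻¹ * (κ * δ) :=
          mul_le_mul (inv_anti₀ hc₁ hak) h3 (norm_nonneg _) (by positivity)
      _ = κ / c₁ * δ := by ring

/-- the case `R = 1` -/
lemma cell_one {ω : Fin 3 → Fin 5 → Fin 5 → ℂ} (hω : IsAlt ω)
    (hpf : ∀ a : Fin 3 → ℂ, a ≠ 0 → pf (comb ω a) ≠ 0)
    (hav : ∀ u : Fin 5 → ℂ, u ≠ 0 → ∃ q, av ω u q ≠ 0) {κ : ℝ} (hκ : 1 ≤ κ) {m : ℕ}
    (hm : (m = 1 ∧ ∀ k i j, (ω k i j).im = 0) ∨ m = 2) :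
    ∃ C : ℝ, 1 ≤ C ∧ ∀ δ : ℝ, 0 < δ → δ ≤ 1 →
      ∃ (N : ℕ) (f : (Fin 5 → ℂ) → Fin N), (N : ℝ) ≤ C / δ ^ (3 * m) ∧
        ∀ u u' : Fin 5 → ℂ, InReg ω κ m 1 δ u → InReg ω κ m 1 δ u' → f u = f u' →
          ∀ j, ‖u j - u' j‖ ≤ C * δ := by
  classical
  obtain ⟨c₁, c₂, hc₁, hc₂, hD⟩ := data hpf hav hκ
  obtain ⟨Ω, hΩ1, hΩ⟩ : ∃ Ω : ℝ, 1 ≤ Ω ∧ ∀ k i j, ‖ω k i j‖ ≤ Ω := by
    obtain ⟨M, hM⟩ := (Set.finite_range
      (fun s : Fin 3 × Fin 5 × Fin 5 => ‖ω s.1 s.2.1 s.2.2‖)).bddAbove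
    exact ⟨max M 1, le_max_right _ _, fun k i j => (hM ⟨(k, i, j), rfl⟩).trans (le_max_left _ _)⟩
  have hm' : m = 1 ∨ m = 2 := hm.imp (fun h => h.1) id
  set C₁ : ℝ := 15 * ((2 * κ + 1) ^ m) ^ 3 with hC₁
  set C₂ : ℝ := (54 * Ω ^ 2 + 216 * κ * Ω ^ 2 + 18 * Ω * (κ / c₁)) / c₂ with hC₂
  have hC₁0 : 0 ≤ C₁ := by positivity
  have hC₂0 : 0 ≤ C₂ := by positivity
  refine ⟨C₁ + C₂ + 1, by linarith, fun δ hδ hδ1 => ?_⟩
  have hD' : ∀ u : Fin 5 → ℂ, ∃ p : Fin 3 × Fin 5 × (Fin 3 → ℂ), InReg ω κ m 1 δ u →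
      p.2.2 p.1 = 1 ∧ (∀ l, ‖p.2.2 l‖ ≤ 1) ∧
        (m = 1 → ∀ l, (p.2.2 l).im = 0) ∧
        (∀ l, ‖∑ i, comb ω p.2.2 i l * u i‖ ≤ κ / c₁ * δ) ∧
        c₂ ≤ ‖pf (comb ω p.2.2) p.2.1‖ := by
    intro u
    by_cases h : InReg ω κ m 1 δ u
    · obtain ⟨p, hp⟩ := hD m hm δ hδ u h
      exact ⟨p, fun _ => hp⟩
    · exact ⟨(0, 0, 0), fun h' => absurd h' h⟩
  choose p hp using hD'
  let T : Type := (Fin 3 × Fin 5) × (Fin 3 → (Fin m → Fin (cM κ δ)))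
  let vec : (Fin 5 → ℂ) → Fin 3 → ℂ := fun u =>
    ![(p u).2.2 ((p u).1.succAbove 0), (p u).2.2 ((p u).1.succAbove 1), u (p u).2.1]
  let g : (Fin 5 → ℂ) → T := fun u => (((p u).1, (p u).2.1), fun r => cc κ δ m (vec u r))
  refine ⟨Fintype.card T, fun u => Fintype.equivFin T (g u), ?_, ?_⟩
  · have h1 : (Fintype.card T : ℝ) = 15 * ((cM κ δ : ℝ) ^ m) ^ 3 := by
      simp only [T, Fintype.card_prod, Fintype.card_fin, Fintype.card_fun]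
      push_cast
      ring
    have h2 := cM_le (κ := κ) (by linarith) hδ hδ1
    have h3 : (0 : ℝ) ≤ cM κ δ := Nat.cast_nonneg _
    rw [h1, le_div_iff₀ (by positivity)]
    have h4 : (cM κ δ : ℝ) * δ ≤ 2 * κ + 1 := by
      rwa [le_div_iff₀ hδ] at h2
    calc 15 * ((cM κ δ : ℝ) ^ m) ^ 3 * δ ^ (3 * m) = 15 * (((cM κ δ : ℝ) * δ) ^ m) ^ 3 := by
          rw [mul_pow, mul_pow, ← pow_mul, ← pow_mul, mul_comm m 3]; ring
      _ ≤ C₁ := by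
          rw [hC₁]
          gcongr
      _ ≤ C₁ + C₂ + 1 := by linarith
  · intro u u' hu hu' hf j
    have hg : g u = g u' := (Fintype.equivFin T).injective hf
    obtain ⟨q1, q2, q3, q4, q5⟩ := hp u hu
    obtain ⟨q1', q2', q3', q4', q5'⟩ := hp u' hu'
    have e1 : (p u).1 = (p u').1 := by
      have := congrArg (fun t : T => t.1.1) hg
      exact this
    have e2 : (p u).2.1 = (p u').2.1 := by
      have := congrArg (fun t : T => t.1.2) hg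
      exact this
    have e3 : ∀ r, cc κ δ m (vec u r) = cc κ δ m (vec u' r) := by
      intro r
      have := congrArg (fun t : T => t.2 r) hg
      exact this
    have huκ : ∀ j, ‖u j‖ ≤ κ := fun j => by simpa using hu.2.1 j
    have huκ' : ∀ j, ‖u' j‖ ≤ κ := fun j => by simpa using hu'.2.1 j
    have hbd : ∀ l, ‖(p u).2.2 l - (p u').2.2 l‖ ≤ 2 * δ := by
      intro l
      by_cases hl : l = (p u).1
      · rw [hl, q1, e1, q1', sub_self, norm_zero]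
        positivity
      · obtain ⟨r, hr⟩ := Fin.exists_succAbove_eq hl
        have a1 : (p u).2.2 l = (p u).2.2 ((p u).1.succAbove r) := by rw [hr]
        have a2 : (p u').2.2 l = (p u').2.2 ((p u').1.succAbove r) := by rw [← e1, hr]
        rw [a1, a2]
        have hr' : cc κ δ m ((p u).2.2 ((p u).1.succAbove r)) =
            cc κ δ m ((p u').2.2 ((p u').1.succAbove r)) := by
          fin_cases r
          · exact e3 0
          · exact e3 1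
        exact cc_spec hδ hm' ((q2 _).trans hκ) ((q2' _).trans hκ) (fun h => q3 h _)
          (fun h => q3' h _) hr'
    have hui : ‖u (p u).2.1 - u' (p u).2.1‖ ≤ 2 * δ := by
      have := e3 2
      have h4 : vec u' 2 = u' (p u).2.1 := by rw [e2]; rfl
      have h5 : vec u 2 = u (p u).2.1 := rfl
      rw [h4, h5] at this
      exact cc_spec hδ hm' (huκ _) (huκ' _) (fun h => hu.1 h _) (fun h => hu'.1 h _) this
    have hW : ∀ b : Fin 3 → ℂ, (∀ l, ‖b l‖ ≤ 1) → ∀ i j, ‖comb ω b i j‖ ≤ 3 * Ω := by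
      intro b hb i j
      unfold comb
      refine (norm_sum_le _ _).trans ?_
      calc ∑ k, ‖b k * ω k i j‖ ≤ ∑ k : Fin 3, Ω := by
            refine Finset.sum_le_sum fun k _ => ?_
            rw [norm_mul]
            calc ‖b k‖ * ‖ω k i j‖ ≤ 1 * Ω :=
                  mul_le_mul (hb k) (hΩ k i j) (norm_nonneg _) one_pos.le
              _ = Ω := one_mul _
        _ = 3 * Ω := by simp
    have hρ : ∀ i j, ‖comb ω (p u).2.2 i j - comb ω (p u').2.2 i j‖ ≤ 6 * Ω * δ := by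
      intro i j
      unfold comb
      rw [← Finset.sum_sub_distrib]
      refine (norm_sum_le _ _).trans ?_
      calc ∑ k, ‖(p u).2.2 k * ω k i j - (p u').2.2 k * ω k i j‖ ≤ ∑ k : Fin 3, 2 * δ * Ω := by
            refine Finset.sum_le_sum fun k _ => ?_
            rw [← sub_mul, norm_mul]
            exact mul_le_mul (hbd k) (hΩ k i j) (norm_nonneg _) (by positivity)
        _ = 6 * Ω * δ := by simp; ring
    have hfin := compare (comb_diag hω _) (comb_anti hω _) (comb_diag hω _) (comb_anti hω _)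
      (hW _ q2) (hW _ q2') hρ q4 q4' huκ' hui q5 j
    have h6 : ‖u j - u' j‖ ≤ C₂ * δ := by
      rw [hC₂, div_mul_eq_mul_div, le_div_iff₀ hc₂]
      calc ‖u j - u' j‖ * c₂ = c₂ * ‖u j - u' j‖ := mul_comm _ _
        _ ≤ _ := hfin
        _ = _ := by ring
    calc ‖u j - u' j‖ ≤ C₂ * δ := h6
      _ ≤ (C₁ + C₂ + 1) * δ := by
        apply mul_le_mul_of_nonneg_right _ hδ.le
        linarith

end Cell

open Cell

theorem cell_proof : Stmt_Cell := by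
  intro ω hω hpf hav κ hκ m hm
  obtain ⟨C, hC1, hC⟩ := cell_one hω hpf hav hκ hm
  refine ⟨C, hC1, fun R hR δ hδ hδ1 => ?_⟩
  obtain ⟨N, f, hN, hf⟩ := hC δ hδ hδ1
  have hRc : ‖((R : ℂ))⁻¹‖ = R⁻¹ := by
    rw [norm_inv, Complex.norm_real, Real.norm_eq_abs, abs_of_pos hR]
  have hreg : ∀ u, InReg ω κ m R δ u → InReg ω κ m 1 δ (((R : ℂ))⁻¹ • u) := by
    rintro u ⟨h1, h2, ⟨j0, h3⟩, h4⟩
    refine ⟨fun hm1 j => ?_, fun j => ?_, ⟨j0, ?_⟩, fun q => ?_⟩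
    · rw [Pi.smul_apply, smul_eq_mul, ← Complex.ofReal_inv, Complex.mul_im, Complex.ofReal_im,
        h1 hm1 j, mul_zero, zero_mul, add_zero]
    · rw [Pi.smul_apply, smul_eq_mul, norm_mul, hRc, inv_mul_le_iff₀ hR]
      have := h2 j
      linarith
    · rw [Pi.smul_apply, smul_eq_mul, norm_mul, hRc]
      have : κ * (R⁻¹ * ‖u j0‖) = R⁻¹ * (κ * ‖u j0‖) := by ring
      rw [this, le_inv_mul_iff₀ hR]
      linarith
    · rw [Dv_smul, Pi.smul_apply, smul_eq_mul, norm_mul, norm_pow, hRc, inv_pow,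
        inv_mul_le_iff₀ (by positivity)]
      have := h4 q
      calc ‖Dv ω u q‖ ≤ κ * R ^ 3 * δ := this
        _ = R ^ 3 * (κ * 1 ^ 3 * δ) := by ring
  refine ⟨N, fun u => f (((R : ℂ))⁻¹ • u), hN, fun u u' hu hu' hff j => ?_⟩
  have h1 := hf _ _ (hreg u hu) (hreg u' hu') hff j
  rw [Pi.smul_apply, Pi.smul_apply, ← smul_sub, smul_eq_mul, norm_mul, hRc,
    inv_mul_le_iff₀ hR] at h1
  linarith

end Pool.V5
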