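import Mathlib
import Pool.Agent.Lib18ea5f.P2Line

set_option autoImplicit false

/-!
# Quintic del Pezzo threefolds: definitions

`ω` is a triple of alternating `5 × 5` matrices; the quintic del Pezzo threefold `V_5` is the set
of planes `⟨x, y⟩` in 5-space with `ω_k(x, y) = 0` for `k = 0, 1, 2`, embedded by its Plücker
coordinates `pl x y`.
-/

namespace Pool.V5

open Finset NumberField Pool.Lib18ea5f

section Forms

variable {R : Type*} [CommRing R]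

/-- The bilinear form with matrix `m`. -/
def bil (m : Fin 5 → Fin 5 → R) (x y : Fin 5 → R) : R := ∑ i, ∑ j, m i j * (x i * y j)

/-- A triple of alternating matrices. -/
def IsAlt (ω : Fin 3 → Fin 5 → Fin 5 → R) : Prop :=
  ∀ k i, ω k i i = 0 ∧ ∀ j, ω k i j = - ω k j i

/-- The combination `∑ a_k ω_k`. -/
def comb (ω : Fin 3 → Fin 5 → Fin 5 → R) (a : Fin 3 → R) (i j : Fin 5) : R :=
  ∑ k, a k * ω k i j

/-- The five `4 × 4` sub-Pfaffians, with signs: a vector in the kernel of `m`. -/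
def pf (m : Fin 5 → Fin 5 → R) : Fin 5 → R :=
  ![m 1 2 * m 3 4 - m 1 3 * m 2 4 + m 1 4 * m 2 3,
    -(m 0 2 * m 3 4 - m 0 3 * m 2 4 + m 0 4 * m 2 3),
    m 0 1 * m 3 4 - m 0 3 * m 1 4 + m 0 4 * m 1 3,
    -(m 0 1 * m 2 4 - m 0 2 * m 1 4 + m 0 4 * m 1 2),
    m 0 1 * m 2 3 - m 0 2 * m 1 3 + m 0 3 * m 1 2]

/-- The `j`-th column `(ω_k(u, e_j))_k` of the `3 × 5` matrix of the forms `ω_k(u, ·)`. -/
def col (ω : Fin 3 → Fin 5 → Fin 5 → R) (u : Fin 5 → R) (j : Fin 5) : Fin 3 → R :=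
  fun k => ∑ i, ω k i j * u i

/-- The cross product of two columns. -/
def av (ω : Fin 3 → Fin 5 → Fin 5 → R) (u : Fin 5 → R) (q : Fin 5 × Fin 5) : Fin 3 → R :=
  cr (col ω u q.1) (col ω u q.2)

/-- The `3 × 3` minors of the matrix of the forms `ω_k(u, ·)` (cubic forms in `u`). -/
def Dv (ω : Fin 3 → Fin 5 → Fin 5 → R) (u : Fin 5 → R) (q : (Fin 5 × Fin 5) × Fin 5) : R :=
  dot (av ω u q.1) (col ω u q.2)

/-- Plücker coordinates of the plane spanned by `x` and `y`. -/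
def pl (x y : Fin 5 → R) (q : Fin 5 × Fin 5) : R := x q.1 * y q.2 - x q.2 * y q.1

/-- `2 × 2` minors of two vectors. -/
def wedge {ι : Type*} (p q : ι → R) (s : ι × ι) : R := p s.1 * q s.2 - p s.2 * q s.1

/-- Change of coefficients. -/
def mp {A B : Type*} (f : A → B) (ω : Fin 3 → Fin 5 → Fin 5 → A) : Fin 3 → Fin 5 → Fin 5 → B :=
  fun k i j => f (ω k i j)

/-- `p` is the Plücker vector of a plane on which the three forms vanish. -/
def OnX (ω : Fin 3 → Fin 5 → Fin 5 → R) (p : Fin 5 × Fin 5 → R) : Prop :=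
  ∃ x y, p = pl x y ∧ ∀ k, bil (ω k) x y = 0

/-- Jacobian criterion for smoothness (of dimension 3) of the linear section of `Gr(2,5)`:
at the plane `⟨x, y⟩` the derivative of `ω_a := comb ω a` is
`φ ↦ ω_a(φ x, y) + ω_a(x, φ y)`, which is zero iff `ω_a(x, ·) = ω_a(y, ·) = 0`. -/
def Smooth (ω : Fin 3 → Fin 5 → Fin 5 → R) : Prop :=
  ∀ x y : Fin 5 → R, pl x y ≠ 0 → (∀ k, bil (ω k) x y = 0) →
    ∀ a : Fin 3 → R, a ≠ 0 → ∃ z, bil (comb ω a) x z ≠ 0 ∨ bil (comb ω a) y z ≠ 0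

end Forms

/-- Nullstellensatz data: `Δ a_k^M` is (universally) a combination of the sub-Pfaffians of
`comb ω a`, and `Δ u_i^M` is a combination of the `2 × 2` minors `av ω u q k`. -/
structure NullData {K : Type} [Field K] [NumberField K] (ω : Fin 3 → Fin 5 → Fin 5 → 𝓞 K)
    (M : ℕ) (Δ : 𝓞 K) : Prop where
  hΔ : Δ ≠ 0
  hpf : ∀ (A : Type) [CommRing A] (f : 𝓞 K →+* A) (a : Fin 3 → A) (k : Fin 3),
    ∃ c : Fin 5 → A, ∑ j, c j * pf (comb (mp f ω) a) j = f Δ * a k ^ M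
  hav : ∀ (A : Type) [CommRing A] (f : 𝓞 K →+* A) (u : Fin 5 → A) (i : Fin 5),
    ∃ c : Fin 5 × Fin 5 → Fin 3 → A, ∑ q, ∑ k, c q k * av (mp f ω) u q k = f Δ * u i ^ M
  hpfH : ∃ C : ℝ, 1 ≤ C ∧ ∀ a : Fin 3 → K,
    Height.mulHeight a ^ 2 ≤ C * Height.mulHeight (pf (comb (mp (algebraMap (𝓞 K) K) ω) a))
  havH : ∃ C : ℝ, 1 ≤ C ∧ ∀ u : Fin 5 → K, Height.mulHeight u ^ 2 ≤
    C * Height.mulHeight
      (fun s : (Fin 5 × Fin 5) × Fin 3 => av (mp (algebraMap (𝓞 K) K) ω) u s.1 s.2)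

end Pool.V5
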