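import Mathlib
import Pool.Agent.V5.Defs
import Pool.Agent.Lib18ea5f.P2Count

set_option autoImplicit false

/-!
# Exact statements of the modules (weak Manin for quintic del Pezzo threefolds, MP_18ea5f_nt)

Paper proofs: /team-store/MP_18ea5f_V5_PROOF.md.
-/

namespace Pool.V5

open Finset NumberField Pool.Lib18ea5f
open scoped LinearAlgebra.Projectivization

/-- The forms with coefficients in `K`. -/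
noncomputable def toK {K : Type} [Field K] [NumberField K] (ω : Fin 3 → Fin 5 → Fin 5 → 𝓞 K) :
    Fin 3 → Fin 5 → Fin 5 → K := mp (algebraMap (𝓞 K) K) ω

/-- SMOOTH -/
def Stmt_Smooth : Prop :=
  ∀ (F : Type) [Field F] [IsAlgClosed F] [CharZero F] (ω : Fin 3 → Fin 5 → Fin 5 → F),
    IsAlt ω → Smooth ω →
      (∀ a : Fin 3 → F, a ≠ 0 → pf (comb ω a) ≠ 0) ∧
      (∀ u : Fin 5 → F, u ≠ 0 → ∃ q, av ω u q ≠ 0)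

/-- NULL -/
def Stmt_Null : Prop :=
  ∀ (K : Type) [Field K] [NumberField K] (ω : Fin 3 → Fin 5 → Fin 5 → 𝓞 K),
    (∀ a : Fin 3 → AlgebraicClosure K, a ≠ 0 →
      pf (comb (mp (algebraMap (𝓞 K) (AlgebraicClosure K)) ω) a) ≠ 0) →
    (∀ u : Fin 5 → AlgebraicClosure K, u ≠ 0 →
      ∃ q, av (mp (algebraMap (𝓞 K) (AlgebraicClosure K)) ω) u q ≠ 0) →
    ∃ (M : ℕ) (Δ : 𝓞 K), NullData ω M Δ

/-- RES: residue classes -/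
def Stmt_Res : Prop :=
  ∀ (K : Type) [Field K] [NumberField K] (ω : Fin 3 → Fin 5 → Fin 5 → 𝓞 K) (M : ℕ) (Δ Δ' : 𝓞 K),
    NullData ω M Δ → Δ' ≠ 0 → ∀ ε : ℝ, 0 < ε → ∃ C : ℝ, 1 ≤ C ∧ ∀ g : Ideal (𝓞 K), g ≠ ⊥ →
      (Nat.card {u : Fin 5 → 𝓞 K ⧸ g // ∃ a : Fin 3 → 𝓞 K ⧸ g,
        Ideal.Quotient.mk g Δ' ∈ Ideal.span (Set.range a) ∧
        ∀ i j, u i * pf (comb (mp (Ideal.Quotient.mk g) ω) a) j =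
          u j * pf (comb (mp (Ideal.Quotient.mk g) ω) a) i} : ℝ)
        ≤ C * (Ideal.absNorm g : ℝ) ^ (3 + ε)

/-- CRT -/
def Stmt_Crt : Prop :=
  ∀ (K : Type) [Field K] [NumberField K] (g : Ideal (𝓞 K)), g ≠ ⊥ →
    ∀ (ι κ : Type) [Fintype ι] [Fintype κ] (a : ι → κ → 𝓞 K) (Δ : 𝓞 K),
      Δ ∈ Ideal.span (Set.range fun s : ι × κ => a s.1 s.2) →
      ∃ e : ι → 𝓞 K, Δ ∈ Ideal.span (Set.range fun k => ∑ i, e i * a i k) ⊔ g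

/-- the archimedean region -/
def InReg (ω : Fin 3 → Fin 5 → Fin 5 → ℂ) (κ : ℝ) (m : ℕ) (R δ : ℝ) (u : Fin 5 → ℂ) : Prop :=
  (m = 1 → ∀ j, (u j).im = 0) ∧ (∀ j, ‖u j‖ ≤ κ * R) ∧ (∃ j, R ≤ κ * ‖u j‖) ∧
    ∀ q, ‖Dv ω u q‖ ≤ κ * R ^ 3 * δ

/-- CELL: covering of the archimedean region -/
def Stmt_Cell : Prop :=
  ∀ ω : Fin 3 → Fin 5 → Fin 5 → ℂ, IsAlt ω → (∀ a : Fin 3 → ℂ, a ≠ 0 → pf (comb ω a) ≠ 0) →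
    (∀ u : Fin 5 → ℂ, u ≠ 0 → ∃ q, av ω u q ≠ 0) → ∀ κ : ℝ, 1 ≤ κ → ∀ m : ℕ,
    ((m = 1 ∧ ∀ k i j, (ω k i j).im = 0) ∨ m = 2) →
    ∃ C : ℝ, 1 ≤ C ∧ ∀ R : ℝ, 0 < R → ∀ δ : ℝ, 0 < δ → δ ≤ 1 →
      ∃ (N : ℕ) (f : (Fin 5 → ℂ) → Fin N), (N : ℝ) ≤ C / δ ^ (3 * m) ∧
        ∀ u u' : Fin 5 → ℂ, InReg ω κ m R δ u → InReg ω κ m R δ u' → f u = f u' →
          ∀ j, ‖u j - u' j‖ ≤ C * R * δ

/-- BAL: balanced integral representatives -/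
def Stmt_Bal : Prop :=
  ∀ (K : Type) [Field K] [NumberField K], ∃ C : ℝ, 1 ≤ C ∧
    ∀ (ι : Type) [Finite ι] [Nonempty ι] (y : ι → K), y ≠ 0 →
      ∃ u : ι → 𝓞 K, u ≠ 0 ∧ (∃ c : K, c ≠ 0 ∧ (fun i => (u i : K)) = c • y) ∧
        ∃ S : ℝ, 0 < S ∧ (∀ v : InfinitePlace K, nv v u ≤ S) ∧
          S ^ Module.finrank ℚ K ≤ C * Height.mulHeight y ∧ (Ideal.absNorm (cI u) : ℝ) ≤ C ∧
          ∀ v : InfinitePlace K, S ≤ C * nv v u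

/-- DIR: Dirichlet approximation in `K ⊗ ℝ` -/
def Stmt_Dir : Prop :=
  ∀ (K : Type) [Field K] [NumberField K], ∃ C : ℝ, 1 ≤ C ∧
    ∀ τ : InfinitePlace K → ℂ, (∀ v : InfinitePlace K, v.mult = 1 → (τ v).im = 0) →
      ∀ X : ℝ, 1 ≤ X → ∃ s α : 𝓞 K, s ≠ 0 ∧ (∀ v : InfinitePlace K, v (s : K) ≤ C * X) ∧
        ∀ v : InfinitePlace K, ‖v.embedding (s : K) * τ v - v.embedding (α : K)‖ ≤ C / X

/-- SIEGEL: Siegel's lemma in rank two (from `Stmt_Bal`, `Stmt_Dir`) -/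
def Stmt_Siegel : Prop :=
  ∀ (K : Type) [Field K] [NumberField K], ∃ C : ℝ, 1 ≤ C ∧ ∀ x y : Fin 5 → K, pl x y ≠ 0 →
    ∃ u : Fin 5 → K, u ≠ 0 ∧ (∃ α β : K, u = α • x + β • y) ∧
      Height.mulHeight u ^ 2 ≤ C * Height.mulHeight (pl x y)

/-- REL -/
def Stmt_Rel : Prop :=
  ∀ (K : Type) [Field K] [NumberField K] (ω : Fin 3 → Fin 5 → Fin 5 → K), IsAlt ω →
    ∀ u z : Fin 5 → K, (∀ k, bil (ω k) u z = 0) → Dv ω u ≠ 0 → pl u z ≠ 0 →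
      Height.mulHeight (Dv ω u) = Height.mulHeight (pl u z) ∧
      ∀ z' : Fin 5 → K, (∀ k, bil (ω k) u z' = 0) → ∃ c : K, pl u z' = c • pl u z

/-- ZREL -/
def Stmt_ZRel : Prop :=
  ∀ (K : Type) [Field K] [NumberField K] (ω : Fin 3 → Fin 5 → Fin 5 → 𝓞 K) (M : ℕ) (Δ : 𝓞 K),
    IsAlt ω → NullData ω M Δ → ∃ C : ℝ, 1 ≤ C ∧ ∀ u z z' : Fin 5 → K,
      (∀ k, bil (toK ω k) u z = 0) → (∀ k, bil (toK ω k) u z' = 0) →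
      wedge (pl u z) (pl u z') ≠ 0 →
      Height.mulHeight u ^ 5 ≤ C * Height.mulHeight (wedge (pl u z) (pl u z')) ^ 2

/-- ZCOUNT -/
def Stmt_ZCount : Prop :=
  ∀ (K : Type) [Field K] [NumberField K] (ω : Fin 3 → Fin 5 → Fin 5 → 𝓞 K) (M : ℕ) (Δ : 𝓞 K),
    IsAlt ω → NullData ω M Δ → ∀ ε : ℝ, 0 < ε → ∃ C : ℝ, 1 ≤ C ∧ ∀ A : ℝ, 1 ≤ A →
      ∀ S : Finset (ℙ K (Fin 5 → K)), (∀ P ∈ S, Dv (toK ω) P.rep = 0 ∧ P.mulHeight ≤ A) →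
        (S.card : ℝ) ≤ C * A ^ (3 / 2 + ε)

/-- LINEN: points of bounded height on a projective line -/
def Stmt_LineN : Prop :=
  ∀ (K : Type) [Field K] [NumberField K] (ι : Type) [Fintype ι], ∃ C : ℝ, 1 ≤ C ∧
    ∀ x y : ι → K, wedge x y ≠ 0 → ∀ (S : Finset (ℙ K (ι → K))) (B : ℝ), 1 ≤ B →
      (∀ P ∈ S, (∃ α β : K, P.rep = α • x + β • y) ∧ P.mulHeight ≤ B) →
      (S.card : ℝ) ≤ C * (1 + B ^ 2 / Height.mulHeight (wedge x y))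

/-- IDEALS -/
def Stmt_Ideals : Prop :=
  ∀ (K : Type) [Field K] [NumberField K] (ε : ℝ), 0 < ε → ∃ C : ℝ, 1 ≤ C ∧ ∀ G : ℝ, 1 ≤ G →
    ∀ S : Finset (Ideal (𝓞 K)), (∀ g ∈ S, g ≠ ⊥ ∧ (Ideal.absNorm g : ℝ) ≤ G) →
      ∑ g ∈ S, 1 / (Ideal.absNorm g : ℝ) ≤ C * G ^ ε

/-- COUNT (from Res, Crt, Cell, Bal, Ideals) -/
def Stmt_Count : Prop :=
  ∀ (K : Type) [Field K] [NumberField K] (ω : Fin 3 → Fin 5 → Fin 5 → 𝓞 K) (M : ℕ) (Δ : 𝓞 K),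
    IsAlt ω → NullData ω M Δ → ∀ C₀ : ℝ, 1 ≤ C₀ → ∀ ε : ℝ, 0 < ε → ∃ C : ℝ, 1 ≤ C ∧
      ∀ A B : ℝ, 1 ≤ A → 1 ≤ B → ∀ S : Finset (ℙ K (Fin 5 → K)),
        (∀ P ∈ S, Dv (toK ω) P.rep ≠ 0 ∧ A ≤ P.mulHeight ∧ P.mulHeight ≤ 2 * A ∧
          P.mulHeight ^ 2 ≤ C₀ * Height.mulHeight (Dv (toK ω) P.rep) ∧
          Height.mulHeight (Dv (toK ω) P.rep) ≤ B) →
        (S.card : ℝ) ≤ C * (A ^ 2 * B ^ (1 + ε))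

/-- MAIN for integral forms -/
def Stmt_Main : Prop :=
  ∀ (K : Type) [Field K] [NumberField K] (ω : Fin 3 → Fin 5 → Fin 5 → 𝓞 K) (M : ℕ) (Δ : 𝓞 K),
    IsAlt ω → NullData ω M Δ → ∀ ε : ℝ, 0 < ε → ∃ C : ℝ, 1 ≤ C ∧ ∀ B : ℝ, 1 ≤ B →
      ∀ S : Finset (ℙ K (Fin 5 × Fin 5 → K)), (∀ P ∈ S, OnX (toK ω) P.rep ∧ P.mulHeight ≤ B) →
        (S.card : ℝ) ≤ C * B ^ (2 + ε)

end Pool.V5
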