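import Mathlib
import Pool.Agent.V5.Stmts

set_option autoImplicit false

/-!
# Module CRT: choosing a combination which is good modulo an ideal
-/

namespace Pool.V5.Crt

open Finset NumberField Pool.Lib18ea5f

variable {R : Type*} [CommRing R]

/-- the ideal spanned by the combinations of the rows with coefficients `e` -/
def J {ι κ : Type} [Fintype ι] (a : ι → κ → R) (e : ι → R) : Ideal R :=
  Ideal.span (Set.range fun k => ∑ i, e i * a i k)

lemma J_le {ι κ : Type} [Fintype ι] (a : ι → κ → R) {e e' : ι → R} {x : Ideal R}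
    (h : ∀ i, e i - e' i ∈ x) : J a e ≤ J a e' ⊔ x := by
  unfold J
  rw [Ideal.span_le]
  rintro _ ⟨k, rfl⟩
  have h1 : ∑ i, e i * a i k = ∑ i, e' i * a i k + ∑ i, (e i - e' i) * a i k := by
    rw [← Finset.sum_add_distrib]
    refine Finset.sum_congr rfl fun i _ => ?_
    ring
  show ∑ i, e i * a i k ∈ _
  rw [h1]
  refine Ideal.add_mem _ (Ideal.mem_sup_left (Ideal.subset_span ⟨k, rfl⟩)) ?_
  exact Ideal.mem_sup_right (Ideal.sum_mem _ fun i _ => Ideal.mul_mem_right _ _ (h i))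

/-- the property -/
def Good (g : Ideal R) : Prop :=
  g ≠ ⊥ → ∀ (ι κ : Type) [Fintype ι] [Fintype κ] (a : ι → κ → R) (Δ : R),
      Δ ∈ Ideal.span (Set.range fun s : ι × κ => a s.1 s.2) →
      ∃ e : ι → R, Δ ∈ J a e ⊔ g

lemma good_mul [IsDomain R] {x y : Ideal R} (hxy : IsCoprime x y) (hx : Good x) (hy : Good y) :
    Good (x * y) := by
  intro hne ι κ _ _ a Δ hΔ
  have hx0 : x ≠ ⊥ := by rintro rfl; exact hne (by simp)
  have hy0 : y ≠ ⊥ := by rintro rfl; exact hne (by simp)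
  obtain ⟨e, he⟩ := hx hx0 ι κ a Δ hΔ
  obtain ⟨e', he'⟩ := hy hy0 ι κ a Δ hΔ
  obtain ⟨u, hu, v, hv, huv⟩ := Ideal.isCoprime_iff_exists.mp hxy
  set f : ι → R := fun i => v * e i + u * e' i with hf
  have h1 : J a e ≤ J a f ⊔ x := J_le a fun i => by
    have : e i - f i = u * (e i - e' i) := by
      rw [hf]; linear_combination (- e i) * huv
    rw [this]; exact Ideal.mul_mem_right _ _ hu
  have h2 : J a e' ≤ J a f ⊔ y := J_le a fun i => by
    have : e' i - f i = v * (e' i - e i) := by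
      rw [hf]; linear_combination (- e' i) * huv
    rw [this]; exact Ideal.mul_mem_right _ _ hv
  have h3 : Δ ∈ J a f ⊔ x := (sup_le h1 le_sup_right) he
  have h4 : Δ ∈ J a f ⊔ y := (sup_le h2 le_sup_right) he'
  refine ⟨f, ?_⟩
  have hc : IsCoprime (J a f ⊔ x) (J a f ⊔ y) := by
    rw [Ideal.isCoprime_iff_sup_eq] at hxy ⊢
    rw [eq_top_iff, ← hxy]
    exact sup_le (le_sup_right.trans le_sup_left) (le_sup_right.trans le_sup_right)
  have h5 : Δ ∈ (J a f ⊔ x) * (J a f ⊔ y) := by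
    rw [Ideal.mul_eq_inf_of_isCoprime hc]
    exact ⟨h3, h4⟩
  have h6 : (J a f ⊔ x) * (J a f ⊔ y) ≤ J a f ⊔ x * y := by
    rw [Ideal.mul_le]
    intro r hr s hs
    obtain ⟨r1, hr1, r2, hr2, rfl⟩ := Submodule.mem_sup.mp hr
    obtain ⟨s1, hs1, s2, hs2, rfl⟩ := Submodule.mem_sup.mp hs
    have e : (r1 + r2) * (s1 + s2) = (r1 * (s1 + s2) + s1 * r2) + r2 * s2 := by ring
    rw [e]
    refine Ideal.add_mem _ (Ideal.mem_sup_left (Ideal.add_mem _ (Ideal.mul_mem_right _ _ hr1)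
      (Ideal.mul_mem_right _ _ hs1))) (Ideal.mem_sup_right (Ideal.mul_mem_mul hr2 hs2))
  exact h6 h5

lemma good_prime_pow [IsDedekindDomain R] {p : Ideal R} (hp : Prime p) (n : ℕ) :
    Good (p ^ n) := by
  classical
  intro _ ι κ _ _ a Δ hΔ
  have hj : ∀ s : ι × κ, ∃ j ≤ n, Ideal.span {a s.1 s.2} ⊔ p ^ n = p ^ j := by
    intro s
    have h1 : Ideal.span {a s.1 s.2} ⊔ p ^ n ∣ p ^ n := Ideal.dvd_iff_le.mpr le_sup_right
    obtain ⟨j, hj, h⟩ := (dvd_prime_pow hp n).mp h1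
    exact ⟨j, hj, associated_iff_eq.mp h⟩
  choose j hjn hjs using hj
  rcases isEmpty_or_nonempty (ι × κ) with hE | hN
  · have h0 : Δ = 0 := by
      rw [Set.range_eq_empty, Ideal.span_empty] at hΔ
      simpa using hΔ
    exact ⟨fun _ => 0, by rw [h0]; exact Ideal.zero_mem _⟩
  · obtain ⟨s0, hs0⟩ := Finite.exists_min j
    refine ⟨fun i => if i = s0.1 then 1 else 0, ?_⟩
    have h1 : Ideal.span (Set.range fun s : ι × κ => a s.1 s.2) ≤ p ^ j s0 := by
      rw [Ideal.span_le]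
      rintro _ ⟨s, rfl⟩
      have h2 : a s.1 s.2 ∈ Ideal.span {a s.1 s.2} ⊔ p ^ n :=
        Ideal.mem_sup_left (Ideal.subset_span rfl)
      rw [hjs s] at h2
      exact Ideal.pow_le_pow_right (hs0 s) h2
    have h3 : Δ ∈ Ideal.span {a s0.1 s0.2} ⊔ p ^ n := by rw [hjs s0]; exact h1 hΔ
    have h4 : Ideal.span {a s0.1 s0.2} ≤ J a (fun i => if i = s0.1 then 1 else 0) := by
      rw [Ideal.span_le, Set.singleton_subset_iff]
      exact Ideal.subset_span ⟨s0.2, by simp⟩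
    exact (sup_le_sup_right h4 (p ^ n)) h3

theorem crt_proof : Stmt_Crt := by
  intro K _ _ g hg ι κ _ _ a Δ hΔ
  have hgood : Good g := by
    refine UniqueFactorizationMonoid.induction_on_coprime g ?_ ?_ ?_ ?_
    · intro h; exact absurd rfl h
    · intro x hx _ ι κ _ _ a Δ _
      have : x = ⊤ := by rwa [Ideal.isUnit_iff] at hx
      exact ⟨fun _ => 0, by rw [this, sup_top_eq]; trivial⟩
    · intro p n hp; exact good_prime_pow hp n
    · intro x y hxy hx hy
      refine good_mul ?_ hx hy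
      rw [Ideal.isCoprime_iff_sup_eq]
      have h1 := hxy (Ideal.dvd_iff_le.mpr (le_sup_left (a := x) (b := y)))
        (Ideal.dvd_iff_le.mpr le_sup_right)
      rwa [Ideal.isUnit_iff] at h1
  exact hgood hg ι κ a Δ hΔ

end Pool.V5.Crt

theorem Pool.V5.crt_proof : Pool.V5.Stmt_Crt := Pool.V5.Crt.crt_proof
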