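import Pool.Agent.V5.Stmts

set_option autoImplicit false
set_option linter.unusedSectionVars false

/-!
# DIR: Dirichlet approximation in `K ⊗ ℝ`
-/

namespace Pool.V5

open Finset NumberField Pool.Lib18ea5f

namespace Dir

variable {K : Type} [Field K] [NumberField K]

/-- the point of the mixed space with coordinates `τ` -/
noncomputable def pt (τ : InfinitePlace K → ℂ) : mixedEmbedding.mixedSpace K :=
  (fun v => (τ v.1).re, fun v => τ v.1)

open Classical in
/-- evaluation of a point of the mixed space at a place -/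
noncomputable def ev (v : InfinitePlace K) (y : mixedEmbedding.mixedSpace K) : ℂ :=
  if h : v.IsReal then ((y.1 ⟨v, h⟩ : ℝ) : ℂ)
  else y.2 ⟨v, InfinitePlace.not_isReal_iff_isComplex.1 h⟩

lemma ev_add (v : InfinitePlace K) (x y : mixedEmbedding.mixedSpace K) :
    ev v (x + y) = ev v x + ev v y := by
  unfold ev
  split_ifs <;> simp

lemma ev_sub (v : InfinitePlace K) (x y : mixedEmbedding.mixedSpace K) :
    ev v (x - y) = ev v x - ev v y := by
  unfold ev
  split_ifs <;> simp

lemma ev_mul (v : InfinitePlace K) (x y : mixedEmbedding.mixedSpace K) :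
    ev v (x * y) = ev v x * ev v y := by
  unfold ev
  split_ifs <;> simp

lemma ev_zero (v : InfinitePlace K) : ev v (0 : mixedEmbedding.mixedSpace K) = 0 := by
  unfold ev
  split_ifs <;> simp

lemma ev_smul (v : InfinitePlace K) (r : ℝ) (y : mixedEmbedding.mixedSpace K) :
    ev v (r • y) = (r : ℂ) * ev v y := by
  unfold ev
  split_ifs <;> simp

lemma ev_sum {α : Type*} (v : InfinitePlace K) (s : Finset α)
    (f : α → mixedEmbedding.mixedSpace K) : ev v (∑ i ∈ s, f i) = ∑ i ∈ s, ev v (f i) := by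
  classical
  induction s using Finset.induction_on with
  | empty => simp [ev_zero]
  | insert a s ha ih => rw [Finset.sum_insert ha, Finset.sum_insert ha, ev_add, ih]

lemma ev_mixed (v : InfinitePlace K) (x : K) : ev v (mixedEmbedding K x) = v.embedding x := by
  unfold ev
  split_ifs with h
  · rw [mixedEmbedding.mixedEmbedding_apply_isReal]
    exact InfinitePlace.embedding_of_isReal_apply h x
  · rw [mixedEmbedding.mixedEmbedding_apply_isComplex]

lemma ev_pt (v : InfinitePlace K) (τ : InfinitePlace K → ℂ) (h : v.mult = 1 → (τ v).im = 0) :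
    ev v (pt τ) = τ v := by
  unfold ev pt
  split_ifs with hv
  · have : v.mult = 1 := by unfold InfinitePlace.mult; rw [if_pos hv]
    apply Complex.ext
    · simp
    · simp [h this]
  · rfl

end Dir

open Dir

theorem dir_proof : Stmt_Dir := by
  classical
  intro K _ _
  let ι := Module.Free.ChooseBasisIndex ℤ (𝓞 K)
  let L := mixedEmbedding.latticeBasis K
  let B := RingOfIntegers.basis K
  obtain ⟨C₀, hC₀⟩ : ∃ C₀ : ℝ, ∀ v : InfinitePlace K, ∑ i, v ((B i : 𝓞 K) : K) ≤ C₀ := by
    obtain ⟨M, hM⟩ := (Set.finite_range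
      (fun v : InfinitePlace K => ∑ i, v ((B i : 𝓞 K) : K))).bddAbove
    exact ⟨M, fun v => hM ⟨v, rfl⟩⟩
  have hC₀0 : 0 ≤ C₀ := by
    obtain ⟨v⟩ : Nonempty (InfinitePlace K) := inferInstance
    exact (Finset.sum_nonneg fun i _ => apply_nonneg v _).trans (hC₀ v)
  refine ⟨2 * C₀ + 1, by linarith, fun τ hτ X hX => ?_⟩
  obtain ⟨Q, hQ1, hQ2⟩ : ∃ Q : ℕ, X ≤ Q ∧ (Q : ℝ) ≤ 2 * X := by
    refine ⟨⌈X⌉₊, Nat.le_ceil X, ?_⟩
    have := Nat.ceil_lt_add_one (show (0 : ℝ) ≤ X by linarith)
    linarith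
  have hQ0 : (0 : ℝ) < Q := by linarith
  have hQn : 0 < Q := by exact_mod_cast hQ0
  let sn : (ι → Fin (Q + 1)) → 𝓞 K := fun n => ∑ i, ((n i : ℕ) : ℤ) • B i
  let co : (ι → Fin (Q + 1)) → ι → ℝ := fun n i =>
    L.repr (mixedEmbedding K ((sn n : 𝓞 K) : K) * pt τ) i
  let f : (ι → Fin (Q + 1)) → ι → Fin Q := fun n i =>
    ⟨⌊Q * Int.fract (co n i)⌋₊, by
      rw [Nat.floor_lt (by positivity)]
      have := Int.fract_lt_one (co n i)
      nlinarith⟩
  have hcard : Fintype.card (ι → Fin Q) < Fintype.card (ι → Fin (Q + 1)) := by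
    rw [Fintype.card_fun, Fintype.card_fun, Fintype.card_fin, Fintype.card_fin]
    refine Nat.pow_lt_pow_left (Nat.lt_succ_self Q) ?_
    rw [← Module.finrank_eq_card_chooseBasisIndex ℤ (𝓞 K), RingOfIntegers.rank]
    exact Module.finrank_pos.ne'
  obtain ⟨n, n', hne, hf⟩ := Fintype.exists_ne_map_eq_of_card_lt f hcard
  have hfr : ∀ i, |Int.fract (co n i) - Int.fract (co n' i)| ≤ 1 / Q := by
    intro i
    have h1 : ⌊Q * Int.fract (co n i)⌋₊ = ⌊Q * Int.fract (co n' i)⌋₊ := by
      have := congrFun hf i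
      exact congrArg Fin.val this
    have h2 := Nat.floor_le (show (0 : ℝ) ≤ Q * Int.fract (co n i) by positivity)
    have h3 := Nat.lt_floor_add_one (Q * Int.fract (co n i))
    have h4 := Nat.floor_le (show (0 : ℝ) ≤ Q * Int.fract (co n' i) by positivity)
    have h5 := Nat.lt_floor_add_one (Q * Int.fract (co n' i))
    rw [← h1] at h4 h5
    have h6 : |Q * (Int.fract (co n i) - Int.fract (co n' i))| ≤ 1 := by
      rw [abs_le]; constructor <;> linarith
    rw [abs_mul, abs_of_pos hQ0] at h6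
    rw [le_div_iff₀ hQ0]
    linarith
  let σ : 𝓞 K := sn n - sn n'
  let α : 𝓞 K := ∑ i, (⌊co n i⌋ - ⌊co n' i⌋) • B i
  have hσ : σ = ∑ i, (((n i : ℕ) : ℤ) - ((n' i : ℕ) : ℤ)) • B i := by
    simp only [σ, sn, sub_smul, Finset.sum_sub_distrib]
  refine ⟨σ, α, ?_, ?_, ?_⟩
  · intro h0
    apply hne
    rw [hσ] at h0
    have h1 := Fintype.linearIndependent_iff.1 B.linearIndependent
      (fun i => ((n i : ℕ) : ℤ) - ((n' i : ℕ) : ℤ)) h0
    funext i
    have h2 := h1 i
    apply Fin.ext
    omega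
  · intro v
    have h1 : ((σ : 𝓞 K) : K) = ∑ i, ((((n i : ℕ) : ℤ) - ((n' i : ℕ) : ℤ) : ℤ) : K) *
        ((B i : 𝓞 K) : K) := by
      rw [hσ]
      push_cast
      simp [zsmul_eq_mul]
    rw [h1]
    calc v (∑ i, ((((n i : ℕ) : ℤ) - ((n' i : ℕ) : ℤ) : ℤ) : K) * ((B i : 𝓞 K) : K))
        ≤ ∑ i, v (((((n i : ℕ) : ℤ) - ((n' i : ℕ) : ℤ) : ℤ) : K) * ((B i : 𝓞 K) : K)) := by
          rw [← InfinitePlace.norm_embedding_eq, map_sum]
          refine (norm_sum_le _ _).trans (le_of_eq ?_)
          refine Finset.sum_congr rfl fun i _ => ?_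
          rw [InfinitePlace.norm_embedding_eq]
      _ ≤ ∑ i, Q * v ((B i : 𝓞 K) : K) := by
          refine Finset.sum_le_sum fun i _ => ?_
          rw [map_mul]
          refine mul_le_mul_of_nonneg_right ?_ (apply_nonneg v _)
          rw [← InfinitePlace.norm_embedding_eq, map_intCast, Complex.norm_intCast]
          have a1 : ((n i : ℕ) : ℤ) ≤ Q := by have := (n i).2; omega
          have a2 : ((n' i : ℕ) : ℤ) ≤ Q := by have := (n' i).2; omega
          have a3 : |((n i : ℕ) : ℤ) - ((n' i : ℕ) : ℤ)| ≤ Q := by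
            rw [abs_le]; constructor <;> omega
          exact_mod_cast a3
      _ = Q * ∑ i, v ((B i : 𝓞 K) : K) := by rw [Finset.mul_sum]
      _ ≤ (2 * X) * C₀ := by
          refine mul_le_mul hQ2 (hC₀ v) (Finset.sum_nonneg fun i _ => apply_nonneg v _)
            (by linarith)
      _ ≤ (2 * C₀ + 1) * X := by nlinarith
  · intro v
    -- the vector `σ t - α` in the lattice basis
    have key : mixedEmbedding K (σ : K) * pt τ - mixedEmbedding K (α : K) =
        ∑ i, (Int.fract (co n i) - Int.fract (co n' i)) • L i := by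
      have e1 : ∀ m : ι → Fin (Q + 1), mixedEmbedding K ((sn m : 𝓞 K) : K) * pt τ =
          ∑ i, co m i • L i := fun m => (L.sum_repr _).symm
      have e2 : mixedEmbedding K (σ : K) = mixedEmbedding K ((sn n : 𝓞 K) : K) -
          mixedEmbedding K ((sn n' : 𝓞 K) : K) := by
        rw [← map_sub]
        rfl
      have e3 : mixedEmbedding K (α : K) = ∑ i, (((⌊co n i⌋ - ⌊co n' i⌋ : ℤ) : ℝ)) • L i := by
        have : (α : K) = ∑ i, (⌊co n i⌋ - ⌊co n' i⌋ : ℤ) • ((B i : 𝓞 K) : K) := by
          simp [α]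
        rw [this, map_sum]
        refine Finset.sum_congr rfl fun i _ => ?_
        rw [map_zsmul]
        have : L i = mixedEmbedding K ((B i : 𝓞 K) : K) := by
          rw [mixedEmbedding.latticeBasis_apply, integralBasis_apply]
        rw [this, Int.cast_smul_eq_zsmul]
      rw [e2, e3, sub_mul, e1 n, e1 n', ← Finset.sum_sub_distrib, ← Finset.sum_sub_distrib]
      refine Finset.sum_congr rfl fun i _ => ?_
      rw [← sub_smul, ← sub_smul]
      congr 1
      have a1 := Int.self_sub_floor (co n i)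
      have a2 := Int.self_sub_floor (co n' i)
      push_cast
      linarith
    have h1 : v.embedding (σ : K) * τ v - v.embedding (α : K) =
        ∑ i, ((Int.fract (co n i) - Int.fract (co n' i) : ℝ) : ℂ) *
          v.embedding ((B i : 𝓞 K) : K) := by
      have h2 := congrArg (ev v) key
      rw [ev_sub, ev_mul, ev_mixed, ev_mixed, ev_pt v τ (hτ v), ev_sum] at h2
      rw [h2]
      refine Finset.sum_congr rfl fun i _ => ?_
      rw [ev_smul, mixedEmbedding.latticeBasis_apply, integralBasis_apply, ev_mixed]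
    rw [h1]
    calc ‖∑ i, ((Int.fract (co n i) - Int.fract (co n' i) : ℝ) : ℂ) *
          v.embedding ((B i : 𝓞 K) : K)‖
        ≤ ∑ i, ‖((Int.fract (co n i) - Int.fract (co n' i) : ℝ) : ℂ) *
          v.embedding ((B i : 𝓞 K) : K)‖ := norm_sum_le _ _
      _ ≤ ∑ i, 1 / Q * v ((B i : 𝓞 K) : K) := by
          refine Finset.sum_le_sum fun i _ => ?_
          rw [norm_mul, InfinitePlace.norm_embedding_eq, Complex.norm_real, Real.norm_eq_abs]
          exact mul_le_mul_of_nonneg_right (hfr i) (apply_nonneg v _)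
      _ = 1 / Q * ∑ i, v ((B i : 𝓞 K) : K) := by rw [Finset.mul_sum]
      _ ≤ 1 / X * C₀ := by
          refine mul_le_mul (one_div_le_one_div_of_le (by linarith) hQ1) (hC₀ v)
            (Finset.sum_nonneg fun i _ => apply_nonneg v _) (by positivity)
      _ ≤ (2 * C₀ + 1) / X := by
          rw [div_mul_eq_mul_div, one_mul]
          exact div_le_div_of_nonneg_right (by linarith) (by linarith)

end Pool.V5
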