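import Mathlib
import Pool.Agent.V5.Stmts
import Pool.Agent.Lib18ea5f.Mink

set_option autoImplicit false

/-!
Balanced integral representatives.
-/

namespace Pool.V5

open Finset NumberField Pool.Lib18ea5f

lemma infPl_natCast {K : Type} [Field K] [NumberField K] (w : InfinitePlace K) (n : ℕ) :
    w (((n : 𝓞 K)) : K) = n := by
  have : (((n : 𝓞 K)) : K) = (n : K) := by simp
  rw [this, ← w.norm_embedding_eq, map_natCast]
  simp

theorem Bal_proof : Stmt_Bal := by
  intro K _ _
  obtain ⟨C0, hC0, hm⟩ := mink K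
  set C := max C0 1 with hC
  have hC1 : 1 ≤ C := le_max_right _ _
  refine ⟨C, hC1, ?_⟩
  intro ι _ _ y hy
  obtain ⟨x, hx, c, hc, hxy⟩ := exists_int_rep hy
  set n : ℕ := Ideal.absNorm (cI x) with hn
  have hcx : cI x ≠ ⊥ := cI_ne_bot hx
  have hn0 : n ≠ 0 := by rw [hn, Ne, Ideal.absNorm_eq_zero_iff]; exact hcx
  have hnR : (0 : ℝ) < n := by exact_mod_cast Nat.pos_of_ne_zero hn0
  have hnO : (n : 𝓞 K) ≠ 0 := by exact_mod_cast hn0
  have hnK : (((n : 𝓞 K)) : K) ≠ 0 := by simpa using hn0
  have hmem : (n : 𝓞 K) ∈ cI x := Ideal.absNorm_mem _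
  obtain ⟨b, hb⟩ : cI x ∣ Ideal.span {(n : 𝓞 K)} := by
    rw [Ideal.dvd_span_singleton]; exact hmem
  have hb0 : b ≠ ⊥ := by
    rintro rfl
    rw [Ideal.mul_bot, Ideal.span_singleton_eq_bot] at hb
    exact hnO hb
  have hnvx : ∀ w : InfinitePlace K, 0 < nv w x := fun w => nv_pos w hx
  obtain ⟨z, hzb, hz0, S, hS, hwz, hprod⟩ := hm b hb0 (fun w => Real.log (n / nv w x))
  have hexp : ∀ w : InfinitePlace K, Real.exp (Real.log (n / nv w x)) = n / nv w x :=
    fun w => Real.exp_log (div_pos hnR (hnvx w))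
  simp only [hexp] at hwz hprod
  -- the vector u
  have hu : ∀ i, ∃ ui : 𝓞 K, z * x i = (n : 𝓞 K) * ui := by
    intro i
    have h1 : x i * z ∈ Ideal.span {(n : 𝓞 K)} := by
      rw [hb]; exact Ideal.mul_mem_mul (mem_cI x i) hzb
    obtain ⟨a, ha⟩ := Ideal.mem_span_singleton'.mp h1
    exact ⟨a, by rw [mul_comm z, ← ha]; ring⟩
  choose u hu using hu
  have hzK : (z : K) ≠ 0 := by simpa using hz0
  have huK : ∀ i, (u i : K) = ((z : K) / ((n : 𝓞 K) : K)) * (x i : K) := by
    intro i
    have h1 : (z : K) * (x i : K) = ((n : 𝓞 K) : K) * (u i : K) := by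
      have := congrArg (fun t : 𝓞 K => (t : K)) (hu i)
      simpa using this
    field_simp
    linear_combination -h1
  have hux : (fun i => (u i : K)) = ((z : K) / ((n : 𝓞 K) : K)) • (fun i => (x i : K)) := by
    funext i
    simp only [Pi.smul_apply, smul_eq_mul]
    exact huK i
  have hzn : (z : K) / ((n : 𝓞 K) : K) ≠ 0 := div_ne_zero hzK hnK
  have hu0 : u ≠ 0 := by
    intro h
    apply coe_ne_zero hx
    have h1 : ((z : K) / ((n : 𝓞 K) : K)) • (fun i => (x i : K)) = 0 := by
      rw [← hux, h]; funext i; simp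
    exact (smul_eq_zero.mp h1).resolve_left hzn
  have hhtu : ht u = Height.mulHeight y := by
    unfold ht
    rw [hux, Height.mulHeight_smul_eq_mulHeight _ hzn, hxy, Height.mulHeight_smul_eq_mulHeight _ hc]
  have hhtx : ht x = Height.mulHeight y := by
    unfold ht
    rw [hxy, Height.mulHeight_smul_eq_mulHeight _ hc]
  have hnvu : ∀ w : InfinitePlace K, nv w u ≤ S := by
    intro w
    apply nv_le
    intro i
    rw [huK i, map_mul, map_div₀, infPl_natCast]
    have h1 := hwz w
    have h2 := le_nv w x i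
    have h3 := hnvx w
    calc w (z : K) / n * w (x i : K) ≤ (S * (n / nv w x)) / n * nv w x := by gcongr
      _ = S := by field_simp
  have hSd : S ^ Module.finrank ℚ K ≤ C0 * Height.mulHeight y := by
    have hNb : (Ideal.absNorm b : ℝ) * n = (n : ℝ) ^ Module.finrank ℚ K := by
      have h1 := congrArg Ideal.absNorm hb
      rw [map_mul, ← hn] at h1
      have h2 : Ideal.absNorm (Ideal.span {(n : 𝓞 K)}) = n ^ Module.finrank ℚ K := by
        rw [Ideal.absNorm_span_natCast]
        congr 1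
        exact RingOfIntegers.rank K
      rw [h2] at h1
      have h3 : ((n ^ Module.finrank ℚ K : ℕ) : ℝ) = ((n * Ideal.absNorm b : ℕ) : ℝ) := by rw [h1]
      push_cast at h3
      rw [h3]; ring
    have hP : ∏ w : InfinitePlace K, ((n : ℝ) / nv w x) ^ w.mult =
        (n : ℝ) ^ Module.finrank ℚ K / infN x := by
      simp_rw [div_pow]
      rw [Finset.prod_div_distrib, prod_const_mult]
      rfl
    rw [hP] at hprod
    have hinf : 0 < infN x := Finset.prod_pos fun w _ => pow_pos (hnvx w) _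
    have h4 := ht_mul_absNorm hx
    rw [hhtx, ← hn] at h4
    rw [← h4] at hprod
    have hH := Height.mulHeight_pos y
    have hnd : (0 : ℝ) < (n : ℝ) ^ Module.finrank ℚ K := by positivity
    have h5 : S ^ Module.finrank ℚ K * (n : ℝ) ^ Module.finrank ℚ K ≤
        C0 * (Ideal.absNorm b : ℝ) * (Height.mulHeight y * n) := by
      rw [mul_div_assoc', div_le_iff₀ (by positivity)] at hprod
      exact hprod
    have h6 : C0 * (Ideal.absNorm b : ℝ) * (Height.mulHeight y * n) =
        (C0 * Height.mulHeight y) * (n : ℝ) ^ Module.finrank ℚ K := by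
      rw [← hNb]; ring
    rw [h6] at h5
    exact le_of_mul_le_mul_right h5 hnd
  -- N(cI u) * prod (S / nv) ^ mult ≤ C0
  have hnvu0 : ∀ w : InfinitePlace K, 0 < nv w u := fun w => nv_pos w hu0
  have hratio : ∀ w : InfinitePlace K, 1 ≤ S / nv w u := fun w => by
    rw [le_div_iff₀ (hnvu0 w), one_mul]; exact hnvu w
  have hkey : (Ideal.absNorm (cI u) : ℝ) * ∏ w : InfinitePlace K, (S / nv w u) ^ w.mult ≤ C0 := by
    have hP : ∏ w : InfinitePlace K, (S / nv w u) ^ w.mult =
        S ^ Module.finrank ℚ K / infN u := by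
      simp_rw [div_pow]
      rw [Finset.prod_div_distrib, prod_const_mult]
      rfl
    have hinf : 0 < infN u := Finset.prod_pos fun w _ => pow_pos (hnvu0 w) _
    have h4 := ht_mul_absNorm hu0
    rw [hhtu] at h4
    rw [hP, mul_div_assoc', div_le_iff₀ hinf, ← h4]
    have hN0 := absNorm_pos (cI_ne_bot hu0)
    calc (Ideal.absNorm (cI u) : ℝ) * S ^ Module.finrank ℚ K
        ≤ (Ideal.absNorm (cI u) : ℝ) * (C0 * Height.mulHeight y) := by gcongr
      _ = _ := by ring
  have hprod1 : 1 ≤ ∏ w : InfinitePlace K, (S / nv w u) ^ w.mult :=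
    Finset.one_le_prod fun w _ => one_le_pow₀ (hratio w)
  have hN1 := one_le_absNorm (cI_ne_bot hu0)
  refine ⟨u, hu0, ⟨((z : K) / ((n : 𝓞 K) : K)) * c, mul_ne_zero hzn hc, ?_⟩, S, hS, hnvu, ?_, ?_, ?_⟩
  · rw [hux, hxy, mul_smul]
  · have hH := Height.mulHeight_pos y
    exact hSd.trans (mul_le_mul_of_nonneg_right (le_max_left _ _) hH.le)
  · refine le_trans ?_ (le_max_left C0 1)
    nlinarith
  · intro v
    have h1 : (S / nv v u) ^ v.mult ≤ ∏ w : InfinitePlace K, (S / nv w u) ^ w.mult := by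
      classical
      rw [← Finset.mul_prod_erase univ _ (mem_univ v)]
      have h0 : 1 ≤ ∏ w ∈ univ.erase v, (S / nv w u) ^ w.mult :=
        Finset.one_le_prod fun w _ => one_le_pow₀ (hratio w)
      have h9 : 0 ≤ (S / nv v u) ^ v.mult := by
        have := hratio v
        positivity
      nlinarith
    have h2 : S / nv v u ≤ (S / nv v u) ^ v.mult := by
      rcases mult_cases v with h | h
      · rw [h, pow_one]
      · rw [h]; nlinarith [hratio v]
    have h3 : S / nv v u ≤ C0 := by
      have : ∏ w : InfinitePlace K, (S / nv w u) ^ w.mult ≤ C0 := by nlinarith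
      linarith
    rw [div_le_iff₀ (hnvu0 v)] at h3
    exact h3.trans (mul_le_mul_of_nonneg_right (le_max_left _ _) (hnvu0 v).le)

end Pool.V5
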