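import Mathlib
import Pool.Agent.V5.Bal

set_option autoImplicit false

/-!
Siegel's lemma in rank two.
-/

namespace Pool.V5

open Finset NumberField Pool.Lib18ea5f

variable {K : Type} [Field K] [NumberField K]

lemma ht_le_of_nv_le {ι : Type} [Finite ι] {w : ι → 𝓞 K} (hw : w ≠ 0) {D : ℝ}
    (h : ∀ v : InfinitePlace K, nv v w ≤ D) : ht w ≤ D ^ Module.finrank ℚ K := by
  have h1 := ht_mul_absNorm hw
  have h2 := one_le_absNorm (cI_ne_bot hw)
  have h3 := ht_pos w
  have h4 : infN w ≤ D ^ Module.finrank ℚ K := by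
    unfold infN
    rw [← prod_const_mult]
    exact Finset.prod_le_prod (fun v _ => pow_nonneg (nv_nonneg v w) _)
      (fun v _ => pow_le_pow_left₀ (nv_nonneg v w) (h v) _)
  nlinarith

lemma embedding_real_im (v : InfinitePlace K) (h : v.mult = 1) (a : K) : (v.embedding a).im = 0 := by
  have hrr : v.IsReal := by
    by_contra hc
    have : v.mult = 2 := by simp [InfinitePlace.mult, hc]
    omega
  have h2 := InfinitePlace.isReal_iff.mp hrr
  have h3 := RingHom.congr_fun h2 a
  rw [ComplexEmbedding.conjugate_coe_eq] at h3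
  exact Complex.conj_eq_iff_im.mp h3

theorem Siegel_proof (hbal : Stmt_Bal) (hdir : Stmt_Dir) : Stmt_Siegel := by
  intro K _ _
  obtain ⟨C1, hC1, hb⟩ := hbal K
  obtain ⟨C2, hC2, hd⟩ := hdir K
  set d := Module.finrank ℚ K with hdd
  set D : ℝ := C2 * (1 + C1 ^ 2) with hD
  have hD1 : 1 ≤ D := by nlinarith [sq_nonneg C1]
  refine ⟨4 * D ^ (2 * d) * C1, ?_, ?_⟩
  · have : (1 : ℝ) ≤ D ^ (2 * d) := one_le_pow₀ hD1
    nlinarith
  intro x y hxy
  -- almost minimal vector
  set A : Set ℝ := {h | ∃ w : Fin 5 → K, w ≠ 0 ∧ (∃ α β : K, w = α • x + β • y) ∧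
    Height.mulHeight w = h} with hA
  have hx0 : x ≠ 0 := by
    rintro rfl
    apply hxy
    funext q
    simp [pl]
  have hAne : A.Nonempty := ⟨_, x, hx0, ⟨1, 0, by simp⟩, rfl⟩
  have hAbd : ∀ h ∈ A, (1 : ℝ) ≤ h := by
    rintro h ⟨w, _, _, rfl⟩
    exact Height.one_le_mulHeight w
  have hinf1 : 1 ≤ sInf A := le_csInf hAne hAbd
  obtain ⟨h0, ⟨u0, hu00, hu0W, hu0h⟩, hlt⟩ := exists_lt_of_csInf_lt hAne
    (show sInf A < 2 * sInf A by linarith)
  have hmin : ∀ w : Fin 5 → K, w ≠ 0 → (∃ α β : K, w = α • x + β • y) →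
      Height.mulHeight u0 ≤ 2 * Height.mulHeight w := by
    intro w hw hwW
    have h1 : sInf A ≤ Height.mulHeight w := csInf_le ⟨1, hAbd⟩ ⟨w, hw, hwW, rfl⟩
    rw [hu0h]
    linarith
  refine ⟨u0, hu00, hu0W, ?_⟩
  obtain ⟨u, hu, ⟨c, hc, huc⟩, S, hS, hnvu, hSd, hNu, hSu⟩ := hb (Fin 5) u0 hu00
  obtain ⟨q, hq, ⟨c', hc', hqc⟩, t, ht0, hnvq, htd, hNq, htq⟩ := hb (Fin 5 × Fin 5) (pl x y) hxy
  have hHu : ht u = Height.mulHeight u0 := by
    unfold ht
    rw [huc, Height.mulHeight_smul_eq_mulHeight _ hc]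
  obtain ⟨α0, β0, hu0e⟩ := hu0W
  have hHpl := Height.mulHeight_pos (pl x y)
  have hHu0 := Height.mulHeight_pos u0
  have huS : Height.mulHeight u0 ≤ S ^ d := by
    rw [← hHu]; exact ht_le_of_nv_le hu hnvu
  have hD2 : (1 : ℝ) ≤ D ^ (2 * d) := one_le_pow₀ hD1
  rcases le_or_gt (S ^ 2) t with hcase | hcase
  · calc Height.mulHeight u0 ^ 2 ≤ (S ^ d) ^ 2 := pow_le_pow_left₀ hHu0.le huS 2
      _ = (S ^ 2) ^ d := by rw [← pow_mul, ← pow_mul, mul_comm]
      _ ≤ t ^ d := pow_le_pow_left₀ (by positivity) hcase d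
      _ ≤ C1 * Height.mulHeight (pl x y) := htd
      _ ≤ 4 * D ^ (2 * d) * C1 * Height.mulHeight (pl x y) := by
          have : C1 ≤ 4 * D ^ (2 * d) * C1 := by nlinarith
          exact mul_le_mul_of_nonneg_right this hHpl.le
  -- the auxiliary integral vector z
  have hukey : ∀ a, (u a : K) = c * α0 * x a + c * β0 * y a := by
    intro a
    have h1 := congrFun huc a
    simp only [Pi.smul_apply, smul_eq_mul] at h1
    rw [h1, hu0e]
    simp only [Pi.add_apply, Pi.smul_apply, smul_eq_mul]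
    ring
  have hqkey : ∀ a b, (q (a, b) : K) = c' * (x a * y b - x b * y a) := by
    intro a b
    have h1 := congrFun hqc (a, b)
    simpa [pl] using h1
  set n : ℕ := Ideal.absNorm (cI u) with hn
  have hn0 : n ≠ 0 := by rw [hn, Ne, Ideal.absNorm_eq_zero_iff]; exact cI_ne_bot hu
  have hmem : (n : 𝓞 K) ∈ cI u := Ideal.absNorm_mem _
  have hmem' := hmem
  unfold cI at hmem'
  rw [Ideal.mem_span_range_iff_exists_fun] at hmem'
  obtain ⟨e, he⟩ := hmem'
  set z : Fin 5 → 𝓞 K := fun j => ∑ i, e i * q (i, j) with hz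
  have hzK : ∀ j, (z j : K) = ∑ i, (e i : K) * (q (i, j) : K) := by
    intro j; simp [hz]
  have heK : ∑ i, (e i : K) * (u i : K) = (n : K) := by
    have := congrArg (fun t : 𝓞 K => (t : K)) he
    simpa using this
  have huz : ∀ a b, (u a : K) * (z b : K) - (u b : K) * (z a : K) = (n : K) * (q (a, b) : K) := by
    intro a b
    rw [hzK, hzK, ← heK, Finset.mul_sum, Finset.mul_sum, Finset.sum_mul, ← Finset.sum_sub_distrib]
    refine Finset.sum_congr rfl fun i _ => ?_
    rw [hqkey, hqkey, hqkey, hukey, hukey, hukey]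
    ring
  have hzW : ∃ α β : K, (fun j => (z j : K)) = α • x + β • y := by
    refine ⟨∑ i, -((e i : K) * c' * y i), ∑ i, (e i : K) * c' * x i, ?_⟩
    funext j
    simp only [Pi.add_apply, Pi.smul_apply, smul_eq_mul]
    rw [hzK, Finset.sum_mul, Finset.sum_mul, ← Finset.sum_add_distrib]
    refine Finset.sum_congr rfl fun i _ => ?_
    rw [hqkey]
    ring
  obtain ⟨αz, βz, hzW⟩ := hzW
  -- Dirichlet
  have hst : 0 < Real.sqrt t := Real.sqrt_pos.mpr ht0
  have hstt : Real.sqrt t * Real.sqrt t = t := Real.mul_self_sqrt ht0.le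
  have hstS : Real.sqrt t < S := by
    rw [Real.sqrt_lt' hS]; exact hcase
  have hX1 : 1 ≤ S / Real.sqrt t := by
    rw [le_div_iff₀ hst, one_mul]; exact hstS.le
  choose k hk using fun v : InfinitePlace K => exists_nv_eq v u
  obtain ⟨s, α, hs0, hsX, hsα⟩ := hd (fun v => v.embedding ((z (k v) : K) / (u (k v) : K)))
    (fun v hv => embedding_real_im v hv _) (S / Real.sqrt t) hX1
  set w : Fin 5 → 𝓞 K := fun j => s * z j - α * u j with hw
  have hwK : ∀ j, (w j : K) = (s : K) * (z j : K) - (α : K) * (u j : K) := by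
    intro j; simp [hw]
  have hs0K : (s : K) ≠ 0 := by simpa using hs0
  have hw0 : w ≠ 0 := by
    intro h
    apply hq
    funext p
    obtain ⟨a, b⟩ := p
    have h1 : (u a : K) * (w b : K) - (u b : K) * (w a : K) = (s : K) * ((n : K) * (q (a, b) : K)) := by
      rw [← huz, hwK, hwK]; ring
    rw [h] at h1
    have h2 : (n : K) ≠ 0 := by exact_mod_cast hn0
    have h3 : (q (a, b) : K) = 0 := by
      have h4 : (s : K) * ((n : K) * (q (a, b) : K)) = 0 := by
        rw [← h1]; simp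
      have h5 := (mul_eq_zero.mp h4).resolve_left hs0K
      exact (mul_eq_zero.mp h5).resolve_left h2
    simpa using h3
  have hnC : (n : ℝ) ≤ C1 := hNu
  have hwv : ∀ v : InfinitePlace K, nv v w ≤ D * Real.sqrt t := by
    intro v
    have hukv : 0 < v (u (k v) : K) := by rw [hk v]; exact nv_pos v hu
    have huk0 : (u (k v) : K) ≠ 0 := fun h => by rw [h, map_zero] at hukv; exact lt_irrefl _ hukv
    apply nv_le
    intro j
    set τ : K := (z (k v) : K) / (u (k v) : K) with hτ
    have h1 : (z j : K) - τ * (u j : K) = (n : K) * (q (k v, j) : K) / (u (k v) : K) := by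
      rw [← huz, hτ]
      field_simp
    have h2 : ‖v.embedding ((z j : K) - τ * (u j : K))‖ ≤ C1 ^ 2 * t / S := by
      rw [InfinitePlace.norm_embedding_eq, h1, map_div₀, map_mul]
      have e1 : v (n : K) = n := by
        rw [← v.norm_embedding_eq, map_natCast]; simp
      rw [e1]
      have h3 : v (q (k v, j) : K) ≤ t := (le_nv v q _).trans (hnvq v)
      have h4 : S ≤ C1 * v (u (k v) : K) := by rw [hk v]; exact hSu v
      rw [div_le_div_iff₀ hukv hS]
      calc (n : ℝ) * v (q (k v, j) : K) * S ≤ C1 * t * (C1 * v (u (k v) : K)) := by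
            gcongr
        _ = _ := by ring
    have h5 : v.embedding (w j : K) = (v.embedding (s : K) * v.embedding τ - v.embedding (α : K)) *
        v.embedding (u j : K) + v.embedding (s : K) * v.embedding ((z j : K) - τ * (u j : K)) := by
      rw [hwK, map_sub, map_mul, map_mul, map_sub, map_mul]
      ring
    rw [← v.norm_embedding_eq, h5]
    have h6 : ‖v.embedding (u j : K)‖ ≤ S := by
      rw [InfinitePlace.norm_embedding_eq]; exact (le_nv v u j).trans (hnvu v)
    have h7 : ‖v.embedding (s : K)‖ ≤ C2 * (S / Real.sqrt t) := by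
      rw [InfinitePlace.norm_embedding_eq]; exact hsX v
    have h8 := hsα v
    refine (norm_add_le _ _).trans ?_
    rw [norm_mul, norm_mul]
    calc ‖v.embedding (s : K) * v.embedding τ - v.embedding (α : K)‖ * ‖v.embedding (u j : K)‖ +
          ‖v.embedding (s : K)‖ * ‖v.embedding ((z j : K) - τ * (u j : K))‖
        ≤ (C2 / (S / Real.sqrt t)) * S + (C2 * (S / Real.sqrt t)) * (C1 ^ 2 * t / S) := by
          gcongr
      _ = D * Real.sqrt t := by
          rw [hD]
          have : t = Real.sqrt t ^ 2 := by rw [sq, hstt]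
          field_simp
          rw [this]
          ring_nf
          rw [show Real.sqrt (Real.sqrt t ^ 2) = Real.sqrt t by rw [Real.sqrt_sq hst.le]]
          ring
  have hHw : ht w ≤ (D * Real.sqrt t) ^ d := ht_le_of_nv_le hw0 hwv
  have hwW : ∃ α β : K, (fun j => (w j : K)) = α • x + β • y := by
    refine ⟨(s : K) * αz - (α : K) * (c * α0), (s : K) * βz - (α : K) * (c * β0), ?_⟩
    funext j
    have h1 := congrFun hzW j
    simp only [Pi.add_apply, Pi.smul_apply, smul_eq_mul] at h1 ⊢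
    rw [hwK, h1, hukey]
    ring
  have hfin := hmin _ (coe_ne_zero hw0) hwW
  have hHw' : Height.mulHeight (fun j => (w j : K)) ≤ (D * Real.sqrt t) ^ d := hHw
  have hHwp := Height.mulHeight_pos (fun j => (w j : K))
  calc Height.mulHeight u0 ^ 2 ≤ (2 * Height.mulHeight (fun j => (w j : K))) ^ 2 :=
        pow_le_pow_left₀ hHu0.le hfin 2
    _ ≤ (2 * (D * Real.sqrt t) ^ d) ^ 2 := by gcongr
    _ = 4 * D ^ (2 * d) * (Real.sqrt t * Real.sqrt t) ^ d := by
        clear_value D
        ring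
    _ = 4 * D ^ (2 * d) * t ^ d := by rw [hstt]
    _ ≤ 4 * D ^ (2 * d) * (C1 * Height.mulHeight (pl x y)) := by gcongr
    _ = _ := by ring

end Pool.V5
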