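import Mathlib
import Pool.Agent.V5.Stmts

set_option autoImplicit false

/-!
Basic identities for alternating `5 × 5` matrices.
-/

namespace Pool.V5

open Finset NumberField Pool.Lib18ea5f

section

variable {R : Type*} [CommRing R]

/-- The expression of `u_i pf_j - u_j pf_i` in terms of `m u`. -/
lemma pf_identity {m : Fin 5 → Fin 5 → R} (h0 : ∀ i, m i i = 0) (h1 : ∀ i j, m i j = - m j i)
    (u : Fin 5 → R) (e : Fin 5 → R) (he : ∀ l, ∑ i, m i l * u i = e l) :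
    (u 0 * pf m 1 - u 1 * pf m 0 = -(m 3 4 * e 2 - m 2 4 * e 3 + m 2 3 * e 4)) ∧
    (u 0 * pf m 2 - u 2 * pf m 0 = (m 3 4 * e 1 - m 1 4 * e 3 + m 1 3 * e 4)) ∧
    (u 0 * pf m 3 - u 3 * pf m 0 = -(m 2 4 * e 1 - m 1 4 * e 2 + m 1 2 * e 4)) ∧
    (u 0 * pf m 4 - u 4 * pf m 0 = (m 2 3 * e 1 - m 1 3 * e 2 + m 1 2 * e 3)) ∧
    (u 1 * pf m 2 - u 2 * pf m 1 = -(m 3 4 * e 0 - m 0 4 * e 3 + m 0 3 * e 4)) ∧
    (u 1 * pf m 3 - u 3 * pf m 1 = (m 2 4 * e 0 - m 0 4 * e 2 + m 0 2 * e 4)) ∧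
    (u 1 * pf m 4 - u 4 * pf m 1 = -(m 2 3 * e 0 - m 0 3 * e 2 + m 0 2 * e 3)) ∧
    (u 2 * pf m 3 - u 3 * pf m 2 = -(m 1 4 * e 0 - m 0 4 * e 1 + m 0 1 * e 4)) ∧
    (u 2 * pf m 4 - u 4 * pf m 2 = (m 1 3 * e 0 - m 0 3 * e 1 + m 0 1 * e 3)) ∧
    (u 3 * pf m 4 - u 4 * pf m 3 = -(m 1 2 * e 0 - m 0 2 * e 1 + m 0 1 * e 2)) := by
  have e0 := he 0
  have e1 := he 1
  have e2 := he 2
  have e3 := he 3
  have e4 := he 4
  simp only [Fin.sum_univ_five, h0, zero_mul, zero_add, add_zero] at e0 e1 e2 e3 e4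
  rw [h1 1 0, h1 2 0, h1 3 0, h1 4 0] at e0
  rw [h1 2 1, h1 3 1, h1 4 1] at e1
  rw [h1 3 2, h1 4 2] at e2
  rw [h1 4 3] at e3
  have p0 : pf m 0 = m 1 2 * m 3 4 - m 1 3 * m 2 4 + m 1 4 * m 2 3 := rfl
  have p1 : pf m 1 = -(m 0 2 * m 3 4 - m 0 3 * m 2 4 + m 0 4 * m 2 3) := rfl
  have p2 : pf m 2 = m 0 1 * m 3 4 - m 0 3 * m 1 4 + m 0 4 * m 1 3 := rfl
  have p3 : pf m 3 = -(m 0 1 * m 2 4 - m 0 2 * m 1 4 + m 0 4 * m 1 2) := rfl
  have p4 : pf m 4 = m 0 1 * m 2 3 - m 0 2 * m 1 3 + m 0 3 * m 1 2 := rfl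
  rw [← e0, ← e1, ← e2, ← e3, ← e4, p0, p1, p2, p3, p4]
  refine ⟨?_, ?_, ?_, ?_, ?_, ?_, ?_, ?_, ?_, ?_⟩ <;> ring

/-- a vector in the kernel is parallel to `pf m` -/
lemma pf_par {m : Fin 5 → Fin 5 → R} (h0 : ∀ i, m i i = 0) (h1 : ∀ i j, m i j = - m j i)
    (u : Fin 5 → R) (hu : ∀ l, ∑ i, m i l * u i = 0) (i j : Fin 5) :
    u i * pf m j = u j * pf m i := by
  obtain ⟨a01, a02, a03, a04, a12, a13, a14, a23, a24, a34⟩ := pf_identity h0 h1 u (fun _ => 0) hu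
  simp only [mul_zero, sub_zero, add_zero, neg_zero] at a01 a02 a03 a04 a12 a13 a14 a23 a24 a34
  fin_cases i <;> fin_cases j <;> simp only [Fin.zero_eta, Fin.mk_one, Fin.reduceFinMk]
  · linear_combination a01
  · linear_combination a02
  · linear_combination a03
  · linear_combination a04
  · linear_combination -a01
  · linear_combination a12
  · linear_combination a13
  · linear_combination a14
  · linear_combination -a02
  · linear_combination -a12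
  · linear_combination a23
  · linear_combination a24
  · linear_combination -a03
  · linear_combination -a13
  · linear_combination -a23
  · linear_combination a34
  · linear_combination -a04
  · linear_combination -a14
  · linear_combination -a24
  · linear_combination -a34

lemma comb_diag {ω : Fin 3 → Fin 5 → Fin 5 → R} (h : IsAlt ω) (a : Fin 3 → R) (i : Fin 5) :
    comb ω a i i = 0 := by
  unfold comb
  refine Finset.sum_eq_zero fun k _ => ?_
  rw [(h k i).1, mul_zero]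

lemma comb_anti {ω : Fin 3 → Fin 5 → Fin 5 → R} (h : IsAlt ω) (a : Fin 3 → R) (i j : Fin 5) :
    comb ω a i j = - comb ω a j i := by
  unfold comb
  rw [← Finset.sum_neg_distrib]
  refine Finset.sum_congr rfl fun k _ => ?_
  rw [(h k i).2 j]; ring

lemma comb_mul_vec (ω : Fin 3 → Fin 5 → Fin 5 → R) (a : Fin 3 → R) (u : Fin 5 → R) (l : Fin 5) :
    ∑ i, comb ω a i l * u i = dot a (col ω u l) := by
  unfold comb dot col
  simp only [Finset.sum_mul, Fin.sum_univ_three, Fin.sum_univ_five]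
  ring

/-- `ω_a(u, ·) = Dv` for `a = av ω u q` -/
lemma comb_av (ω : Fin 3 → Fin 5 → Fin 5 → R) (u : Fin 5 → R) (q : Fin 5 × Fin 5) (l : Fin 5) :
    ∑ i, comb ω (av ω u q) i l * u i = Dv ω u (q, l) := by
  rw [comb_mul_vec]; rfl

/-- `ω_a(u, ·) = 0` implies `u ∧ pf (ω_a) = 0` -/
lemma pf_par' {ω : Fin 3 → Fin 5 → Fin 5 → R} (h : IsAlt ω) (a : Fin 3 → R) (u : Fin 5 → R)
    (hu : ∀ l, dot a (col ω u l) = 0) (i j : Fin 5) :
    u i * pf (comb ω a) j = u j * pf (comb ω a) i :=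
  pf_par (comb_diag h a) (comb_anti h a) u (fun l => by rw [comb_mul_vec]; exact hu l) i j

lemma col_smul (ω : Fin 3 → Fin 5 → Fin 5 → R) (c : R) (u : Fin 5 → R) (j : Fin 5) :
    col ω (c • u) j = c • col ω u j := by
  funext k
  simp only [col, Pi.smul_apply, smul_eq_mul, Finset.mul_sum]
  exact Finset.sum_congr rfl fun i _ => by ring

lemma cr_smul' (c d : R) (x y : Fin 3 → R) : cr (c • x) (d • y) = (c * d) • cr x y := by
  funext i
  fin_cases i <;> simp [cr] <;> ring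

lemma av_smul (ω : Fin 3 → Fin 5 → Fin 5 → R) (c : R) (u : Fin 5 → R) (q : Fin 5 × Fin 5) :
    av ω (c • u) q = c ^ 2 • av ω u q := by
  unfold av
  rw [col_smul, col_smul, cr_smul', sq]

lemma Dv_smul (ω : Fin 3 → Fin 5 → Fin 5 → R) (c : R) (u : Fin 5 → R) :
    Dv ω (c • u) = c ^ 3 • Dv ω u := by
  funext q
  simp only [Dv, Pi.smul_apply, smul_eq_mul]
  rw [av_smul, col_smul]
  simp only [dot, Pi.smul_apply, smul_eq_mul]
  ring

lemma comb_smul (ω : Fin 3 → Fin 5 → Fin 5 → R) (c : R) (a : Fin 3 → R) (i j : Fin 5) :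
    comb ω (c • a) i j = c * comb ω a i j := by
  simp only [comb, Pi.smul_apply, smul_eq_mul, Finset.mul_sum]
  exact Finset.sum_congr rfl fun k _ => by ring

lemma pf_comb_smul (ω : Fin 3 → Fin 5 → Fin 5 → R) (c : R) (a : Fin 3 → R) :
    pf (comb ω (c • a)) = c ^ 2 • pf (comb ω a) := by
  funext i
  simp only [Pi.smul_apply, smul_eq_mul]
  fin_cases i <;> simp [pf, comb_smul] <;> ring

end

section

variable {A B : Type*} [CommRing A] [CommRing B] (f : A →+* B)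

lemma IsAlt.map {ω : Fin 3 → Fin 5 → Fin 5 → A} (h : IsAlt ω) : IsAlt (mp f ω) := by
  intro k i
  refine ⟨?_, fun j => ?_⟩
  · simp only [mp, (h k i).1, map_zero]
  · simp only [mp]
    rw [(h k i).2 j, map_neg]

lemma col_mp (ω : Fin 3 → Fin 5 → Fin 5 → A) (u : Fin 5 → A) (j : Fin 5) (k : Fin 3) :
    col (mp f ω) (fun i => f (u i)) j k = f (col ω u j k) := by
  simp [col, mp, map_sum]

lemma av_mp (ω : Fin 3 → Fin 5 → Fin 5 → A) (u : Fin 5 → A) (q : Fin 5 × Fin 5) (k : Fin 3) :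
    av (mp f ω) (fun i => f (u i)) q k = f (av ω u q k) := by
  unfold av
  fin_cases k <;> simp [cr, col_mp]

lemma Dv_mp (ω : Fin 3 → Fin 5 → Fin 5 → A) (u : Fin 5 → A) (q : (Fin 5 × Fin 5) × Fin 5) :
    Dv (mp f ω) (fun i => f (u i)) q = f (Dv ω u q) := by
  unfold Dv dot
  simp [av_mp, col_mp]

lemma comb_mp (ω : Fin 3 → Fin 5 → Fin 5 → A) (a : Fin 3 → A) (i j : Fin 5) :
    comb (mp f ω) (fun k => f (a k)) i j = f (comb ω a i j) := by
  simp [comb, mp, map_sum]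

lemma pf_comb_mp (ω : Fin 3 → Fin 5 → Fin 5 → A) (a : Fin 3 → A) (i : Fin 5) :
    pf (comb (mp f ω) (fun k => f (a k))) i = f (pf (comb ω a) i) := by
  fin_cases i <;> simp [pf, comb_mp]

end

end Pool.V5
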