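import Mathlib
import Pool.Agent.V5.Basic

set_option autoImplicit false

/-!
The number of points `[u]` of bounded height with `Dv u = 0`.
-/

namespace Pool.V5

open Finset NumberField Pool.Lib18ea5f
open scoped LinearAlgebra.Projectivization

variable {K : Type} [Field K] [NumberField K]

lemma mulHeight_rep {ι : Type} [Finite ι] (P : ℙ K (ι → K)) : P.mulHeight = Height.mulHeight P.rep := by
  have h := Projectivization.mulHeight_mk (K := K) P.rep_nonzero
  rw [Projectivization.mk_rep] at h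
  exact h

lemma exists_av_ne {ω : Fin 3 → Fin 5 → Fin 5 → 𝓞 K} {M : ℕ} {Δ : 𝓞 K} (hN : NullData ω M Δ)
    {u : Fin 5 → K} (hu : u ≠ 0) : ∃ q, av (toK ω) u q ≠ 0 := by
  by_contra hcon
  push Not at hcon
  obtain ⟨i, hi⟩ := Function.ne_iff.mp hu
  obtain ⟨c, hc⟩ := hN.hav K (algebraMap (𝓞 K) K) u i
  have h1 : ∑ q, ∑ k, c q k * av (mp (algebraMap (𝓞 K) K) ω) u q k = 0 := by
    refine Finset.sum_eq_zero fun q _ => Finset.sum_eq_zero fun k _ => ?_
    have := congrFun (hcon q) k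
    have h2 : av (mp (algebraMap (𝓞 K) K) ω) u q k = 0 := this
    rw [h2, mul_zero]
  rw [h1] at hc
  have h2 : algebraMap (𝓞 K) K Δ ≠ 0 := by
    have := hN.hΔ
    simpa using this
  exact (mul_ne_zero h2 (pow_ne_zero _ hi)) hc.symm

lemma pf_ne {ω : Fin 3 → Fin 5 → Fin 5 → 𝓞 K} {M : ℕ} {Δ : 𝓞 K} (hN : NullData ω M Δ)
    {a : Fin 3 → K} (ha : a ≠ 0) : pf (comb (toK ω) a) ≠ 0 := by
  intro hcon
  obtain ⟨i, hi⟩ := Function.ne_iff.mp ha
  obtain ⟨c, hc⟩ := hN.hpf K (algebraMap (𝓞 K) K) a i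
  have h1 : ∑ j, c j * pf (comb (mp (algebraMap (𝓞 K) K) ω) a) j = 0 := by
    refine Finset.sum_eq_zero fun j _ => ?_
    have := congrFun hcon j
    have h2 : pf (comb (mp (algebraMap (𝓞 K) K) ω) a) j = 0 := this
    rw [h2, mul_zero]
  rw [h1] at hc
  have h2 : algebraMap (𝓞 K) K Δ ≠ 0 := by
    have := hN.hΔ
    simpa using this
  exact (mul_ne_zero h2 (pow_ne_zero _ hi)) hc.symm

/-- parallel vectors -/
lemma exists_smul_of_par {ι : Type} {u p : ι → K} (hu : u ≠ 0)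
    (h : ∀ i j, u i * p j = u j * p i) : ∃ c : K, p = c • u := by
  obtain ⟨i, hi⟩ := Function.ne_iff.mp hu
  simp only [Pi.zero_apply] at hi
  refine ⟨p i / u i, ?_⟩
  funext j
  simp only [Pi.smul_apply, smul_eq_mul]
  rw [div_mul_eq_mul_div, eq_div_iff hi]
  linear_combination h i j

theorem ZCount_proof : Stmt_ZCount := by
  intro K _ _ ω M Δ hω hN ε hε
  obtain ⟨C1, hC1, hpfH⟩ := hN.hpfH
  obtain ⟨C2, hC2, hpl⟩ := plane_count K (2 * ε) (by positivity)
  refine ⟨C2 * C1 ^ (3 / 2 + ε), ?_, ?_⟩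
  · have : (1 : ℝ) ≤ C1 ^ (3 / 2 + ε) := Real.one_le_rpow hC1 (by positivity)
    nlinarith
  intro A hA S hS
  classical
  have hex : ∀ P : ℙ K (Fin 5 → K), ∃ a : Fin 3 → K, a ≠ 0 ∧
      (Dv (toK ω) P.rep = 0 → ∃ c : K, c ≠ 0 ∧ pf (comb (toK ω) a) = c • P.rep) := by
    intro P
    obtain ⟨q, hq⟩ := exists_av_ne hN P.rep_nonzero
    refine ⟨av (toK ω) P.rep q, hq, fun hD => ?_⟩
    have hpar := pf_par' (hω.map (algebraMap (𝓞 K) K)) (av (toK ω) P.rep q) P.rep (fun l => by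
      have : Dv (toK ω) P.rep (q, l) = 0 := by rw [hD]; rfl
      exact this)
    obtain ⟨c, hc⟩ := exists_smul_of_par P.rep_nonzero hpar
    refine ⟨c, ?_, hc⟩
    rintro rfl
    apply pf_ne hN hq
    rw [zero_smul] at hc
    exact hc
  choose a ha0 ha using hex
  let F : ℙ K (Fin 5 → K) → ℙ K (Fin 3 → K) := fun P => Projectivization.mk K (a P) (ha0 P)
  have hinj : Set.InjOn F S := by
    intro P hP Q hQ hPQ
    obtain ⟨c, hc, hcP⟩ := ha P (hS P hP).1
    obtain ⟨c', hc', hcQ⟩ := ha Q (hS Q hQ).1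
    have h1 : ∃ e : K, e • a Q = a P := by
      have := (Projectivization.mk_eq_mk_iff' K (a P) (a Q) (ha0 P) (ha0 Q)).mp hPQ
      exact this
    obtain ⟨e, he⟩ := h1
    have h2 : c • P.rep = (e ^ 2 * c') • Q.rep := by
      rw [← hcP, ← he, pf_comb_smul, hcQ, smul_smul]
    rw [← P.mk_rep, ← Q.mk_rep, Projectivization.mk_eq_mk_iff']
    refine ⟨c⁻¹ * (e ^ 2 * c'), ?_⟩
    rw [mul_smul, ← h2, smul_smul, inv_mul_cancel₀ hc, one_smul]
  have hcard : (S.image F).card = S.card := Finset.card_image_of_injOn hinj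
  have hC1A : 1 ≤ C1 * A := by nlinarith
  have hY1 : 1 ≤ (C1 * A) ^ (1 / 2 : ℝ) := Real.one_le_rpow hC1A (by norm_num)
  have h := hpl (S.image F) ((C1 * A) ^ (1 / 2 : ℝ)) hY1 (by
    intro p hp
    obtain ⟨P, hP, rfl⟩ := Finset.mem_image.mp hp
    obtain ⟨hD, hPA⟩ := hS P hP
    obtain ⟨c, hc, hcP⟩ := ha P hD
    rw [ht_xq]
    have h1 : (F P).mulHeight = Height.mulHeight (a P) := Projectivization.mulHeight_mk (K := K) (ha0 P)
    rw [h1]
    have h2 := hpfH (a P)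
    have h3 : Height.mulHeight (pf (comb (mp (algebraMap (𝓞 K) K) ω) (a P))) ≤ A := by
      have : pf (comb (mp (algebraMap (𝓞 K) K) ω) (a P)) = c • P.rep := hcP
      rw [this, Height.mulHeight_smul_eq_mulHeight _ hc, ← mulHeight_rep]
      exact hPA
    have h4 : Height.mulHeight (a P) ^ 2 ≤ C1 * A := h2.trans (by gcongr)
    have h5 := Height.mulHeight_pos (a P)
    rw [← Real.sqrt_eq_rpow]
    exact Real.le_sqrt_of_sq_le h4)
  rw [hcard] at h
  refine h.trans (le_of_eq ?_)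
  have hCA0 : 0 ≤ C1 * A := by positivity
  have e1 : ((C1 * A) ^ (1 / 2 : ℝ)) ^ 3 = (C1 * A) ^ (3 / 2 : ℝ) := by
    rw [← Real.rpow_natCast, ← Real.rpow_mul hCA0]
    norm_num
  have e2 : ((C1 * A) ^ (1 / 2 : ℝ)) ^ (2 * ε) = (C1 * A) ^ ε := by
    rw [← Real.rpow_mul hCA0]
    congr 1
    ring
  rw [e1, e2, ← Real.rpow_add (by positivity), Real.mul_rpow (by positivity) (by positivity)]
  ring

end Pool.V5
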