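import Mathlib
import Pool.Agent.V5.ZCount
import Pool.Agent.V5.Siegel
import Pool.Agent.Lib18ea5f.P2Mat

set_option autoImplicit false

/-!
Counting: residues and boxes.
-/

namespace Pool.V5

open Finset NumberField Pool.Lib18ea5f

/-- powers of elements of a finitely generated ideal -/
lemma pow_mem_span_pow {R ι : Type*} [CommRing R] (M : ℕ) (f : ι → R) (s : Finset ι) (x : R)
    (hx : x ∈ Ideal.span (f '' s)) :
    x ^ (s.card * M + 1) ∈ Ideal.span ((fun i => f i ^ M) '' s) := by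
  classical
  have key : ∀ s : Finset ι, Ideal.span (f '' s) ^ (s.card * M + 1) ≤
      Ideal.span ((fun i => f i ^ M) '' s) := by
    intro s
    induction s using Finset.induction_on with
    | empty => simp
    | insert a s ha ih =>
      rw [Finset.card_insert_of_notMem ha, Finset.coe_insert, Set.image_insert_eq,
        Set.image_insert_eq, Ideal.span_insert, Ideal.span_insert]
      have e : (s.card + 1) * M + 1 = M + (s.card * M + 1) := by ring
      rw [e]
      refine Ideal.sup_pow_add_le_pow_sup_pow.trans (sup_le_sup ?_ ih)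
      rw [Ideal.span_singleton_pow]
  exact key s (Ideal.pow_mem_pow hx _)

variable {K : Type} [Field K] [NumberField K]

/-- a fixed element in the ideal of the `2 × 2` minors -/
lemma mem_span_av {ω : Fin 3 → Fin 5 → Fin 5 → 𝓞 K} {M : ℕ} {Δ : 𝓞 K} (hN : NullData ω M Δ)
    (u : Fin 5 → 𝓞 K) (n : 𝓞 K) (hn : n ∈ cI u) :
    Δ * n ^ (5 * M + 1) ∈
      Ideal.span (Set.range fun s : (Fin 5 × Fin 5) × Fin 3 => av ω u s.1 s.2) := by
  have h1 : n ^ (5 * M + 1) ∈ Ideal.span (Set.range fun i => u i ^ M) := by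
    have := pow_mem_span_pow M u univ n (by simpa [cI] using hn)
    simpa using this
  set J := Ideal.span (Set.range fun s : (Fin 5 × Fin 5) × Fin 3 => av ω u s.1 s.2) with hJ
  have h2 : ∀ i, Δ * u i ^ M ∈ J := by
    intro i
    obtain ⟨c, hc⟩ := hN.hav (𝓞 K) (RingHom.id _) u i
    have e : mp (RingHom.id (𝓞 K)) ω = ω := rfl
    rw [e] at hc
    have hc' : ∑ q, ∑ k, c q k * av ω u q k = Δ * u i ^ M := hc
    rw [← hc']
    refine Ideal.sum_mem _ fun q _ => Ideal.sum_mem _ fun k _ => Ideal.mul_mem_left _ _ ?_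
    exact Ideal.subset_span ⟨(q, k), rfl⟩
  have h3 : Ideal.span {Δ} * Ideal.span (Set.range fun i => u i ^ M) ≤ J := by
    rw [Ideal.span_mul_span', Ideal.span_le]
    rintro x hx
    rw [Set.singleton_mul] at hx
    obtain ⟨y, ⟨i, rfl⟩, rfl⟩ := hx
    exact h2 i
  exact h3 (Ideal.mul_mem_mul (Ideal.mem_span_singleton_self Δ) h1)

/-- the residue set of RES -/
def ResSet (ω : Fin 3 → Fin 5 → Fin 5 → 𝓞 K) (Δ' : 𝓞 K) (g : Ideal (𝓞 K)) : Set (Fin 5 → 𝓞 K ⧸ g) :=
  {u | ∃ a : Fin 3 → 𝓞 K ⧸ g, Ideal.Quotient.mk g Δ' ∈ Ideal.span (Set.range a) ∧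
    ∀ i j, u i * pf (comb (mp (Ideal.Quotient.mk g) ω) a) j =
      u j * pf (comb (mp (Ideal.Quotient.mk g) ω) a) i}

lemma res_mem (hcrt : Stmt_Crt) {ω : Fin 3 → Fin 5 → Fin 5 → 𝓞 K} {M : ℕ} {Δ : 𝓞 K}
    (hω : IsAlt ω) (hN : NullData ω M Δ) (u : Fin 5 → 𝓞 K) (n : 𝓞 K) (hn : n ∈ cI u)
    (g : Ideal (𝓞 K)) (hg : g ≠ ⊥) (hD : ∀ q, Dv ω u q ∈ g) :
    (fun i => Ideal.Quotient.mk g (u i)) ∈ ResSet ω (Δ * n ^ (5 * M + 1)) g := by
  obtain ⟨e, he⟩ := hcrt K g hg (Fin 5 × Fin 5) (Fin 3) (fun q k => av ω u q k) _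
    (mem_span_av hN u n hn)
  refine ⟨fun k => Ideal.Quotient.mk g (∑ q, e q * av ω u q k), ?_, ?_⟩
  · have h1 := Ideal.mem_map_of_mem (Ideal.Quotient.mk g) he
    rw [Ideal.map_sup, Ideal.map_quotient_self, sup_bot_eq, Ideal.map_span] at h1
    rw [← Set.range_comp] at h1
    exact h1
  · have hdot : ∀ l, dot (fun k => Ideal.Quotient.mk g (∑ q, e q * av ω u q k))
        (col (mp (Ideal.Quotient.mk g) ω) (fun i => Ideal.Quotient.mk g (u i)) l) = 0 := by
      intro l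
      have h1 : dot (fun k => Ideal.Quotient.mk g (∑ q, e q * av ω u q k))
          (col (mp (Ideal.Quotient.mk g) ω) (fun i => Ideal.Quotient.mk g (u i)) l) =
          Ideal.Quotient.mk g (∑ q, e q * Dv ω u (q, l)) := by
        unfold dot
        simp only [col_mp]
        rw [← map_mul, ← map_mul, ← map_mul, ← map_add, ← map_add]
        congr 1
        simp only [Finset.sum_mul, ← Finset.sum_add_distrib]
        refine Finset.sum_congr rfl fun q _ => ?_
        simp only [Dv, dot]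
        ring
      rw [h1, Ideal.Quotient.eq_zero_iff_mem]
      exact Ideal.sum_mem _ fun q _ => Ideal.mul_mem_left _ _ (hD _)
    exact fun i j => pf_par' (hω.map (Ideal.Quotient.mk g)) _ _ hdot i j

lemma infPl_sub_comm (v : InfinitePlace K) (a b : K) : v (a - b) = v (b - a) := by
  rw [← v.norm_embedding_eq, ← v.norm_embedding_eq, map_sub, map_sub, norm_sub_rev]

/-- lattice points in a box, one coordinate -/
lemma box_one (g : Ideal (𝓞 K)) (hg : g ≠ ⊥) (T : Finset (𝓞 K)) (ρ : InfinitePlace K → ℝ)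
    (hρ : ∀ v, 0 < ρ v) (hdiff : ∀ a ∈ T, ∀ b ∈ T, a - b ∈ g)
    (hd : ∀ a ∈ T, ∀ b ∈ T, ∀ v : InfinitePlace K, v ((a : K) - (b : K)) ≤ ρ v) :
    (T.card : ℝ) ≤ 12 ^ Module.finrank ℚ K * (1 + (∏ v, ρ v ^ v.mult) / (Ideal.absNorm g : ℝ)) := by
  have hcov := cover (α := 𝓞 K) (ι := InfinitePlace K) (fun v => v.mult) mult_cases inferInstance
    T (fun a v => v.embedding (a : K)) (fun v hv a => embedding_real_im v hv _)
    ρ hρ
    (fun a ha b hb v => by
      rw [← map_sub, InfinitePlace.norm_embedding_eq]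
      exact hd a ha b hb v)
    (Ideal.absNorm g : ℝ) (absNorm_pos hg)
    (fun a ha b hb hab => by
      have h0 : a - b ≠ 0 := sub_ne_zero.mpr hab
      have h1 := prod_inf_eq_absNorm (a - b)
      have h2 : ∏ v : InfinitePlace K, ‖v.embedding (a : K) - v.embedding (b : K)‖ ^ v.mult =
          (Ideal.absNorm (Ideal.span {a - b}) : ℝ) := by
        rw [← h1]
        refine Finset.prod_congr rfl fun v _ => ?_
        rw [← map_sub, InfinitePlace.norm_embedding_eq]
        congr 2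
      rw [h2]
      apply absNorm_le_of_dvd
      · rwa [Ne, Ideal.span_singleton_eq_bot]
      · rw [Ideal.dvd_span_singleton]
        exact hdiff a ha b hb)
  rw [InfinitePlace.sum_mult_eq] at hcov
  exact hcov

/-- lattice points in a box -/
lemma box_count {α : Type*} (g : Ideal (𝓞 K)) (hg : g ≠ ⊥) (T : Finset α)
    (u : α → Fin 5 → 𝓞 K) (hinj : ∀ a ∈ T, ∀ b ∈ T, u a = u b → a = b)
    (ρ : InfinitePlace K → ℝ) (hρ : ∀ v, 0 < ρ v)
    (hdiff : ∀ a ∈ T, ∀ b ∈ T, ∀ i, u a i - u b i ∈ g)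
    (hd : ∀ a ∈ T, ∀ b ∈ T, ∀ i, ∀ v : InfinitePlace K, v ((u a i : K) - (u b i : K)) ≤ ρ v) :
    (T.card : ℝ) ≤
      (12 ^ Module.finrank ℚ K * (1 + (∏ v, ρ v ^ v.mult) / (Ideal.absNorm g : ℝ))) ^ 5 := by
  classical
  have h1 : T.card ≤ (Fintype.piFinset fun i : Fin 5 => T.image fun a => u a i).card := by
    apply Finset.card_le_card_of_injOn u
    · intro a ha
      rw [Finset.mem_coe, Fintype.mem_piFinset]
      exact fun i => Finset.mem_image_of_mem _ ha
    · exact fun a ha b hb h => hinj a ha b hb h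
  rw [Fintype.card_piFinset] at h1
  have h2 : (T.card : ℝ) ≤ ∏ i : Fin 5, ((T.image fun a => u a i).card : ℝ) := by
    exact_mod_cast h1
  refine h2.trans ?_
  have h3 : ∀ i : Fin 5, ((T.image fun a => u a i).card : ℝ) ≤
      12 ^ Module.finrank ℚ K * (1 + (∏ v, ρ v ^ v.mult) / (Ideal.absNorm g : ℝ)) := by
    intro i
    refine box_one g hg _ ρ hρ ?_ ?_
    · intro x hx y hy
      obtain ⟨a, ha, rfl⟩ := Finset.mem_image.mp hx
      obtain ⟨b, hb, rfl⟩ := Finset.mem_image.mp hy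
      exact hdiff a ha b hb i
    · intro x hx y hy v
      obtain ⟨a, ha, rfl⟩ := Finset.mem_image.mp hx
      obtain ⟨b, hb, rfl⟩ := Finset.mem_image.mp hy
      exact hd a ha b hb i v
  calc ∏ i : Fin 5, ((T.image fun a => u a i).card : ℝ)
      ≤ ∏ i : Fin 5, (12 ^ Module.finrank ℚ K *
        (1 + (∏ v, ρ v ^ v.mult) / (Ideal.absNorm g : ℝ))) :=
        Finset.prod_le_prod (fun i _ => Nat.cast_nonneg _) (fun i _ => h3 i)
    _ = _ := by rw [Finset.prod_const, Finset.card_univ, Fintype.card_fin]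

/-- size of `Dv` -/
lemma exists_Dv_bound (ω : Fin 3 → Fin 5 → Fin 5 → 𝓞 K) : ∃ C : ℝ, 1 ≤ C ∧
    ∀ (u : Fin 5 → 𝓞 K) (v : InfinitePlace K), nv v (Dv ω u) ≤ C * nv v u ^ 3 := by
  obtain ⟨B, hB⟩ : ∃ B : ℝ, ∀ k i j, ∀ v : InfinitePlace K, v (ω k i j : K) ≤ B := by
    obtain ⟨B, hB⟩ := (Set.finite_range
      (fun q : (Fin 3 × Fin 5 × Fin 5) × InfinitePlace K =>
        q.2 ((ω q.1.1 q.1.2.1 q.1.2.2 : 𝓞 K) : K))).bddAbove
    exact ⟨B, fun k i j v => hB ⟨((k, i, j), v), rfl⟩⟩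
  set w := max B 1 with hw
  have hw1 : 1 ≤ w := le_max_right _ _
  have hw0 : 0 ≤ w := by linarith
  refine ⟨750 * w ^ 3, by nlinarith [one_le_pow₀ hw1 (n := 3)], fun u v => ?_⟩
  have hN := nv_nonneg v u
  have hcol : ∀ j k, v ((col ω u j k : 𝓞 K) : K) ≤ 5 * w * nv v u := by
    intro j k
    have e : ((col ω u j k : 𝓞 K) : K) = ∑ i, (ω k i j : K) * (u i : K) := by simp [col]
    rw [e, ← v.norm_embedding_eq, map_sum]
    refine (norm_sum_le _ _).trans ?_
    have : ∀ i ∈ (univ : Finset (Fin 5)), ‖v.embedding ((ω k i j : K) * (u i : K))‖ ≤ w * nv v u := by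
      intro i _
      rw [InfinitePlace.norm_embedding_eq, map_mul]
      exact mul_le_mul ((hB k i j v).trans (le_max_left _ _)) (le_nv v u i) (apply_nonneg _ _) hw0
    refine (Finset.sum_le_sum this).trans (le_of_eq ?_)
    rw [Finset.sum_const, Finset.card_univ, Fintype.card_fin, nsmul_eq_mul]
    push_cast
    ring
  apply nv_le
  rintro ⟨q, l⟩
  have h1 : ∀ k, v ((av ω u q k : 𝓞 K) : K) ≤ 2 * ((5 * w * nv v u) * (5 * w * nv v u)) :=
    fun k => v_cr_le v _ _ (by positivity) (hcol q.1) (hcol q.2) k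
  have h2 := v_dot_le v (av ω u q) (col ω u l) (by positivity) h1 (hcol l)
  refine h2.trans (le_of_eq ?_)
  ring

end Pool.V5
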