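import Mathlib
import Pool.Agent.V5.Count1

set_option autoImplicit false

/-!
Counting: the fibre bound.
-/

namespace Pool.V5

open Finset NumberField Pool.Lib18ea5f

variable {K : Type} [Field K] [NumberField K]

/-- the complex forms at an infinite place -/
noncomputable def cf (ω : Fin 3 → Fin 5 → Fin 5 → 𝓞 K) (v : InfinitePlace K) :
    Fin 3 → Fin 5 → Fin 5 → ℂ := mp (v.embedding.comp (algebraMap (𝓞 K) K)) ω

lemma cf_pf {ω : Fin 3 → Fin 5 → Fin 5 → 𝓞 K} {M : ℕ} {Δ : 𝓞 K} (hN : NullData ω M Δ)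
    (v : InfinitePlace K) (a : Fin 3 → ℂ) (ha : a ≠ 0) : pf (comb (cf ω v) a) ≠ 0 := by
  intro hcon
  obtain ⟨i, hi⟩ := Function.ne_iff.mp ha
  obtain ⟨c, hc⟩ := hN.hpf ℂ (v.embedding.comp (algebraMap (𝓞 K) K)) a i
  have h1 : ∑ j, c j * pf (comb (mp (v.embedding.comp (algebraMap (𝓞 K) K)) ω) a) j = 0 := by
    refine Finset.sum_eq_zero fun j _ => ?_
    have h2 : pf (comb (mp (v.embedding.comp (algebraMap (𝓞 K) K)) ω) a) j = 0 := congrFun hcon j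
    rw [h2, mul_zero]
  rw [h1] at hc
  have h2 : (v.embedding.comp (algebraMap (𝓞 K) K)) Δ ≠ 0 := by
    have := hN.hΔ
    simpa using this
  exact (mul_ne_zero h2 (pow_ne_zero _ hi)) hc.symm

lemma cf_av {ω : Fin 3 → Fin 5 → Fin 5 → 𝓞 K} {M : ℕ} {Δ : 𝓞 K} (hN : NullData ω M Δ)
    (v : InfinitePlace K) (u : Fin 5 → ℂ) (hu : u ≠ 0) : ∃ q, av (cf ω v) u q ≠ 0 := by
  by_contra hcon
  push Not at hcon
  obtain ⟨i, hi⟩ := Function.ne_iff.mp hu
  obtain ⟨c, hc⟩ := hN.hav ℂ (v.embedding.comp (algebraMap (𝓞 K) K)) u i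
  have h1 : ∑ q, ∑ k, c q k * av (mp (v.embedding.comp (algebraMap (𝓞 K) K)) ω) u q k = 0 := by
    refine Finset.sum_eq_zero fun q _ => Finset.sum_eq_zero fun k _ => ?_
    have h2 : av (mp (v.embedding.comp (algebraMap (𝓞 K) K)) ω) u q k = 0 := congrFun (hcon q) k
    rw [h2, mul_zero]
  rw [h1] at hc
  have h2 : (v.embedding.comp (algebraMap (𝓞 K) K)) Δ ≠ 0 := by
    have := hN.hΔ
    simpa using this
  exact (mul_ne_zero h2 (pow_ne_zero _ hi)) hc.symm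

/-- the cells at all infinite places with one constant -/
lemma cell_all (hcell : Stmt_Cell) {ω : Fin 3 → Fin 5 → Fin 5 → 𝓞 K} {M : ℕ} {Δ : 𝓞 K}
    (hω : IsAlt ω) (hN : NullData ω M Δ) (κ : ℝ) (hκ : 1 ≤ κ) :
    ∃ C : ℝ, 1 ≤ C ∧ ∀ v : InfinitePlace K, ∀ R : ℝ, 0 < R → ∀ δ : ℝ, 0 < δ → δ ≤ 1 →
      ∃ (N : ℕ) (f : (Fin 5 → ℂ) → Fin N), (N : ℝ) ≤ C / δ ^ (3 * v.mult) ∧
        ∀ u u' : Fin 5 → ℂ, InReg (cf ω v) κ v.mult R δ u → InReg (cf ω v) κ v.mult R δ u' →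
          f u = f u' → ∀ j, ‖u j - u' j‖ ≤ C * R * δ := by
  have h : ∀ v : InfinitePlace K, ∃ C : ℝ, 1 ≤ C ∧ ∀ R : ℝ, 0 < R → ∀ δ : ℝ, 0 < δ → δ ≤ 1 →
      ∃ (N : ℕ) (f : (Fin 5 → ℂ) → Fin N), (N : ℝ) ≤ C / δ ^ (3 * v.mult) ∧
        ∀ u u' : Fin 5 → ℂ, InReg (cf ω v) κ v.mult R δ u → InReg (cf ω v) κ v.mult R δ u' →
          f u = f u' → ∀ j, ‖u j - u' j‖ ≤ C * R * δ := by
    intro v
    refine hcell (cf ω v) (hω.map _) (cf_pf hN v) (cf_av hN v) κ hκ v.mult ?_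
    rcases mult_cases v with h | h
    · left
      exact ⟨h, fun k i j => embedding_real_im v h _⟩
    · right; exact h
  choose C hC1 hC using h
  refine ⟨∑ v, C v, ?_, fun v R hR δ hδ hδ1 => ?_⟩
  · obtain ⟨v⟩ : Nonempty (InfinitePlace K) := inferInstance
    exact (hC1 v).trans (Finset.single_le_sum (f := C) (fun w _ => by linarith [hC1 w]) (mem_univ v))
  · obtain ⟨N, f, hNb, hf⟩ := hC v R hR δ hδ hδ1
    have hle : C v ≤ ∑ w, C w :=
      Finset.single_le_sum (f := C) (fun w _ => by linarith [hC1 w]) (mem_univ v)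
    refine ⟨N, f, hNb.trans (by gcongr), fun u u' hu hu' h j => (hf u u' hu hu' h j).trans ?_⟩
    gcongr

theorem fibre_bound (hcrt : Stmt_Crt) (hres : Stmt_Res) (hcell : Stmt_Cell)
    {ω : Fin 3 → Fin 5 → Fin 5 → 𝓞 K} {M : ℕ} {Δ : 𝓞 K}
    (hω : IsAlt ω) (hN : NullData ω M Δ) (κ : ℝ) (hκ : 1 ≤ κ) (C1 : ℝ) (ε : ℝ) (hε : 0 < ε) :
    ∃ C : ℝ, 1 ≤ C ∧ ∀ (g : Ideal (𝓞 K)), g ≠ ⊥ → ∀ R : ℝ, 0 < R →
      ∀ δ : InfinitePlace K → ℝ, (∀ v, 0 < δ v) → (∀ v, δ v ≤ 1) →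
      ∀ (α : Type) (T : Finset α) (u : α → Fin 5 → 𝓞 K),
        (∀ a ∈ T, ∀ b ∈ T, u a = u b → a = b) →
        (∀ a ∈ T, u a ≠ 0 ∧ (Ideal.absNorm (cI (u a)) : ℝ) ≤ C1) →
        (∀ a ∈ T, ∀ v, nv v (u a) ≤ R ∧ R ≤ κ * nv v (u a)) →
        (∀ a ∈ T, ∀ v, nv v (Dv ω (u a)) ≤ κ * R ^ 3 * δ v) →
        (∀ a ∈ T, ∀ q, Dv ω (u a) q ∈ g) →
        (T.card : ℝ) ≤ C * ((Ideal.absNorm g : ℝ) ^ (3 + ε) / (∏ v, δ v ^ v.mult) ^ 3 *
          (1 + (∏ v, (R * δ v) ^ v.mult) / (Ideal.absNorm g : ℝ)) ^ 5) := by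
  classical
  obtain ⟨Cc, hCc1, hcells⟩ := cell_all hcell hω hN κ hκ
  set F : ℕ := (⌊C1⌋₊).factorial with hF
  have hF0 : (F : 𝓞 K) ≠ 0 := by exact_mod_cast Nat.factorial_ne_zero _
  have hΔ'0 : Δ * (F : 𝓞 K) ^ (5 * M + 1) ≠ 0 := mul_ne_zero hN.hΔ (pow_ne_zero _ hF0)
  obtain ⟨Cr, hCr1, hr⟩ := hres K ω M Δ (Δ * (F : 𝓞 K) ^ (5 * M + 1)) hN hΔ'0 ε hε
  set d := Module.finrank ℚ K with hd
  set r := Fintype.card (InfinitePlace K) with hrr
  refine ⟨Cr * Cc ^ r * (12 ^ d * Cc ^ d) ^ 5, ?_, ?_⟩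
  · have h1 : (1 : ℝ) ≤ Cc ^ r := one_le_pow₀ hCc1
    have h2 : (1 : ℝ) ≤ Cc ^ d := one_le_pow₀ hCc1
    have h3 : (1 : ℝ) ≤ 12 ^ d := one_le_pow₀ (by norm_num)
    have h4 : (1 : ℝ) ≤ (12 ^ d * Cc ^ d) ^ 5 := one_le_pow₀ (by nlinarith)
    have h5 : (1 : ℝ) ≤ Cr * Cc ^ r := by nlinarith
    nlinarith
  intro g hg R hR δ hδ hδ1 α T u hinj hu hnv hD hDg
  have : Finite (𝓞 K ⧸ g) := Ideal.finiteQuotientOfFreeOfNeBot g hg
  choose N f hNb hf using fun v => hcells v R hR (δ v) (hδ v) (hδ1 v)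
  set P : ℝ := ∏ v, δ v ^ v.mult with hP
  have hP0 : 0 < P := Finset.prod_pos fun v _ => pow_pos (hδ v) _
  have hg0 := absNorm_pos hg
  -- class map
  let Φ : α → (Fin 5 → 𝓞 K ⧸ g) × (∀ v : InfinitePlace K, Fin (N v)) := fun a =>
    (fun i => Ideal.Quotient.mk g (u a i), fun v => f v (fun i => v.embedding ((u a i : 𝓞 K) : K)))
  have hfinRes : (ResSet ω (Δ * (F : 𝓞 K) ^ (5 * M + 1)) g).Finite := Set.toFinite _
  set Rs := hfinRes.toFinset with hRs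
  have hmaps : ∀ a ∈ T, Φ a ∈ Rs ×ˢ (univ : Finset (∀ v : InfinitePlace K, Fin (N v))) := by
    intro a ha
    rw [Finset.mem_product]
    refine ⟨?_, mem_univ _⟩
    rw [hRs, Set.Finite.mem_toFinset]
    refine res_mem hcrt hω hN (u a) (F : 𝓞 K) ?_ g hg (hDg a ha)
    -- F is in the content
    obtain ⟨hua, hCa⟩ := hu a ha
    have h1 : Ideal.absNorm (cI (u a)) ≤ ⌊C1⌋₊ := Nat.le_floor hCa
    have h2 : 0 < Ideal.absNorm (cI (u a)) := by
      have := absNorm_pos (cI_ne_bot hua)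
      exact_mod_cast this
    have h3 : Ideal.absNorm (cI (u a)) ∣ F := Nat.dvd_factorial h2 h1
    obtain ⟨e, he⟩ := h3
    have h4 : ((Ideal.absNorm (cI (u a)) : ℕ) : 𝓞 K) ∈ cI (u a) := Ideal.absNorm_mem _
    rw [he]
    push_cast
    exact Ideal.mul_mem_right _ _ h4
  have hRegion : ∀ a ∈ T, ∀ v : InfinitePlace K, InReg (cf ω v) κ v.mult R (δ v)
      (fun i => v.embedding ((u a i : 𝓞 K) : K)) := by
    intro a ha v
    obtain ⟨h1, h2⟩ := hnv a ha v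
    refine ⟨fun hm j => embedding_real_im v hm _, fun j => ?_, ?_, fun q => ?_⟩
    · rw [InfinitePlace.norm_embedding_eq]
      exact ((le_nv v (u a) j).trans h1).trans (le_mul_of_one_le_left hR.le hκ)
    · obtain ⟨j, hj⟩ := exists_nv_eq v (u a)
      refine ⟨j, ?_⟩
      rw [InfinitePlace.norm_embedding_eq, hj]
      exact h2
    · have h3 : Dv (cf ω v) (fun i => v.embedding ((u a i : 𝓞 K) : K)) q =
          v.embedding ((Dv ω (u a) q : 𝓞 K) : K) :=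
        Dv_mp (v.embedding.comp (algebraMap (𝓞 K) K)) ω (u a) q
      rw [h3, InfinitePlace.norm_embedding_eq]
      exact (le_nv v (Dv ω (u a)) q).trans (hD a ha v)
  set b : ℝ := (12 ^ d * (1 + (∏ v, (Cc * R * δ v) ^ v.mult) / (Ideal.absNorm g : ℝ))) ^ 5 with hb
  have hfib : ∀ c ∈ Rs ×ˢ (univ : Finset (∀ v : InfinitePlace K, Fin (N v))),
      (((T.filter fun a => Φ a = c).card : ℕ) : ℝ) ≤ b := by
    intro c _
    refine box_count g hg (T.filter fun a => Φ a = c) u ?_ (fun v => Cc * R * δ v)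
      (fun v => by have := hδ v; positivity) ?_ ?_
    · intro a ha b hb hab
      exact hinj a (Finset.mem_filter.mp ha).1 b (Finset.mem_filter.mp hb).1 hab
    · intro a ha b hb i
      have h1 : Φ a = Φ b := (Finset.mem_filter.mp ha).2.trans (Finset.mem_filter.mp hb).2.symm
      have h2 := congrFun (congrArg Prod.fst h1) i
      exact Ideal.Quotient.eq.mp h2
    · intro a ha b hb i v
      have h1 : Φ a = Φ b := (Finset.mem_filter.mp ha).2.trans (Finset.mem_filter.mp hb).2.symm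
      have h2 := congrFun (congrArg Prod.snd h1) v
      have h3 := hf v _ _ (hRegion a (Finset.mem_filter.mp ha).1 v)
        (hRegion b (Finset.mem_filter.mp hb).1 v) h2 i
      rw [← map_sub, InfinitePlace.norm_embedding_eq] at h3
      exact h3
  have hcardT := Finset.card_eq_sum_card_fiberwise (f := Φ) (s := T)
    (t := Rs ×ˢ (univ : Finset (∀ v : InfinitePlace K, Fin (N v)))) hmaps
  have hRcard : (Rs.card : ℝ) ≤ Cr * (Ideal.absNorm g : ℝ) ^ (3 + ε) := by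
    have h1 := hr g hg
    have h2 : Nat.card {u : Fin 5 → 𝓞 K ⧸ g // ∃ a : Fin 3 → 𝓞 K ⧸ g,
        Ideal.Quotient.mk g (Δ * (F : 𝓞 K) ^ (5 * M + 1)) ∈ Ideal.span (Set.range a) ∧
        ∀ i j, u i * pf (comb (mp (Ideal.Quotient.mk g) ω) a) j =
          u j * pf (comb (mp (Ideal.Quotient.mk g) ω) a) i} = Rs.card := by
      rw [hRs, ← Set.ncard_eq_toFinset_card]
      rfl
    rw [h2] at h1
    exact h1
  have hNcard : ((univ : Finset (∀ v : InfinitePlace K, Fin (N v))).card : ℝ) ≤ Cc ^ r / P ^ 3 := by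
    rw [Finset.card_univ, Fintype.card_pi]
    push_cast
    calc ∏ v, ((Fintype.card (Fin (N v)) : ℕ) : ℝ) ≤ ∏ v, (Cc / δ v ^ (3 * v.mult)) := by
          refine Finset.prod_le_prod (fun v _ => Nat.cast_nonneg _) fun v _ => ?_
          rw [Fintype.card_fin]
          exact hNb v
      _ = Cc ^ r / P ^ 3 := by
          rw [Finset.prod_div_distrib, Finset.prod_const, Finset.card_univ, hP, ← Finset.prod_pow]
          congr 1
          refine Finset.prod_congr rfl fun v _ => ?_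
          rw [← pow_mul, mul_comm]
  have hPR0 : 0 < ∏ v, (R * δ v) ^ v.mult := Finset.prod_pos fun v _ => by
    have := hδ v; positivity
  have hb2 : b ≤ (12 ^ d * Cc ^ d) ^ 5 *
      (1 + (∏ v, (R * δ v) ^ v.mult) / (Ideal.absNorm g : ℝ)) ^ 5 := by
    rw [hb, ← mul_pow]
    have e : ∏ v : InfinitePlace K, (Cc * R * δ v) ^ v.mult = Cc ^ d * ∏ v, (R * δ v) ^ v.mult := by
      rw [hd, ← prod_const_mult, ← Finset.prod_mul_distrib]
      refine Finset.prod_congr rfl fun v _ => ?_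
      rw [← mul_pow, mul_assoc]
    rw [e]
    have h2 : (1 : ℝ) ≤ Cc ^ d := one_le_pow₀ hCc1
    have hCc0 : 0 < Cc := by linarith
    generalize (∏ v : InfinitePlace K, (R * δ v) ^ v.mult) = PR at hPR0
    refine pow_le_pow_left₀ (by positivity) ?_ 5
    rw [mul_assoc]
    gcongr
    rw [mul_add, mul_one, mul_div_assoc]
    linarith
  have hb0 : 0 ≤ b := by
    have h1 : 0 < ∏ v : InfinitePlace K, (Cc * R * δ v) ^ v.mult :=
      Finset.prod_pos fun v _ => by have := hδ v; positivity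
    rw [hb]
    generalize (∏ v : InfinitePlace K, (Cc * R * δ v) ^ v.mult) = PR at h1
    positivity
  calc (T.card : ℝ) = ∑ c ∈ Rs ×ˢ (univ : Finset (∀ v : InfinitePlace K, Fin (N v))),
        (((T.filter fun a => Φ a = c).card : ℕ) : ℝ) := by rw [hcardT]; push_cast; rfl
    _ ≤ ∑ c ∈ Rs ×ˢ (univ : Finset (∀ v : InfinitePlace K, Fin (N v))), b := Finset.sum_le_sum hfib
    _ = (Rs.card : ℝ) * ((univ : Finset (∀ v : InfinitePlace K, Fin (N v))).card : ℝ) * b := by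
        rw [Finset.sum_const, Finset.card_product, nsmul_eq_mul]
        push_cast
        ring
    _ ≤ (Cr * (Ideal.absNorm g : ℝ) ^ (3 + ε)) * (Cc ^ r / P ^ 3) * ((12 ^ d * Cc ^ d) ^ 5 *
      (1 + (∏ v, (R * δ v) ^ v.mult) / (Ideal.absNorm g : ℝ)) ^ 5) := by
        gcongr
    _ = _ := by ring

end Pool.V5
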