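import Mathlib
import Pool.Agent.V5.Count2

set_option autoImplicit false

/-!
Counting: points `[u]` with `Dv u ≠ 0`.
-/

namespace Pool.V5

open Finset NumberField Pool.Lib18ea5f
open scoped LinearAlgebra.Projectivization

variable {K : Type} [Field K] [NumberField K]

/-- dyadic weights -/
noncomputable def dl (j : InfinitePlace K → ℕ) (v : InfinitePlace K) : ℝ := (1 / 2) ^ j v

lemma dl_pos (j : InfinitePlace K → ℕ) (v : InfinitePlace K) : 0 < dl j v := by
  unfold dl; positivity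

lemma dl_le (j : InfinitePlace K → ℕ) (v : InfinitePlace K) : dl j v ≤ 1 := by
  unfold dl; exact pow_le_one₀ (by norm_num) (by norm_num)

/-- product of the dyadic weights -/
noncomputable def Dl (j : InfinitePlace K → ℕ) : ℝ := ∏ v, dl j v ^ v.mult

lemma Dl_pos (j : InfinitePlace K → ℕ) : 0 < Dl j := Finset.prod_pos fun v _ => pow_pos (dl_pos j v) _

lemma Dl_le (j : InfinitePlace K → ℕ) : Dl j ≤ 1 :=
  Finset.prod_le_one (fun v _ => (pow_pos (dl_pos j v) _).le)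
    (fun v _ => pow_le_one₀ (dl_pos j v).le (dl_le j v))

lemma sum_Dl_le (J : Finset (InfinitePlace K → ℕ)) :
    ∑ j ∈ J, Dl j ≤ 2 ^ Fintype.card (InfinitePlace K) := by
  classical
  obtain ⟨L, hL⟩ : ∃ L : ℕ, ∀ j ∈ J, ∀ v, j v < L := by
    refine ⟨∑ j ∈ J, ∑ v, (j v) + 1, fun j hj v => ?_⟩
    have h1 : j v ≤ ∑ v, j v := Finset.single_le_sum (f := j) (fun _ _ => Nat.zero_le _) (mem_univ v)
    have h2 : ∑ v, j v ≤ ∑ j ∈ J, ∑ v, j v :=
      Finset.single_le_sum (f := fun j : InfinitePlace K → ℕ => ∑ v, j v) (fun _ _ => Nat.zero_le _) hj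
    omega
  have hsub : J ⊆ Fintype.piFinset fun _ : InfinitePlace K => Finset.range L := by
    intro j hj
    rw [Fintype.mem_piFinset]
    exact fun v => Finset.mem_range.mpr (hL j hj v)
  calc ∑ j ∈ J, Dl j ≤ ∑ j ∈ Fintype.piFinset fun _ : InfinitePlace K => Finset.range L, Dl j :=
        Finset.sum_le_sum_of_subset_of_nonneg hsub fun j _ _ => (Dl_pos j).le
    _ ≤ ∑ j ∈ Fintype.piFinset fun _ : InfinitePlace K => Finset.range L,
        ∏ v, (1 / 2 : ℝ) ^ (j v) := by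
        refine Finset.sum_le_sum fun j _ => Finset.prod_le_prod
          (fun v _ => (pow_pos (dl_pos j v) _).le) fun v _ => ?_
        have h1 : dl j v ^ v.mult ≤ dl j v ^ 1 :=
          pow_le_pow_of_le_one (dl_pos j v).le (dl_le j v) (by rcases mult_cases v with h | h <;> omega)
        rw [pow_one] at h1
        exact h1
    _ = ∏ v : InfinitePlace K, ∑ i ∈ Finset.range L, (1 / 2 : ℝ) ^ i := by
        rw [Finset.prod_univ_sum]
    _ ≤ ∏ v : InfinitePlace K, (2 : ℝ) := by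
        refine Finset.prod_le_prod (fun v _ => by positivity) fun v _ => ?_
        rw [geom_sum_eq (by norm_num)]
        have : (0 : ℝ) < (1 / 2) ^ L := by positivity
        have e : ((1 / 2 : ℝ) ^ L - 1) / (1 / 2 - 1) = 2 * (1 - (1 / 2) ^ L) := by ring
        rw [e]
        linarith
    _ = 2 ^ Fintype.card (InfinitePlace K) := by rw [Finset.prod_const, Finset.card_univ]

theorem Count_proof (hcrt : Stmt_Crt) (hres : Stmt_Res) (hcell : Stmt_Cell) (hbal : Stmt_Bal)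
    (hideals : Stmt_Ideals) : Stmt_Count := by
  intro K _ _ ω M Δ hω hN C₀ hC₀ ε hε
  classical
  obtain ⟨C1, hC1, hb⟩ := hbal K
  obtain ⟨κ1, hκ1, hDv⟩ := exists_Dv_bound ω
  set d := Module.finrank ℚ K with hd
  have hd0 : d ≠ 0 := Module.finrank_pos.ne'
  set κ : ℝ := max (2 * C1 ^ 2) κ1 with hκ
  have hκ2 : 2 ≤ κ := le_trans (by nlinarith) (le_max_left _ _)
  have hκpos : 0 < κ := by linarith
  set ε1 : ℝ := ε / 2 with hε1
  have hε10 : 0 < ε1 := by positivity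
  obtain ⟨Cf, hCf, hfb⟩ := fibre_bound hcrt hres hcell hω hN κ (by linarith) C1 ε1 hε10
  obtain ⟨CI, hCI, hId⟩ := hideals K ε1 hε10
  set C3 : ℝ := κ ^ d * (2 * C1) ^ 3 * C₀ with hC3
  have hκd : (1 : ℝ) ≤ κ ^ d := one_le_pow₀ (by linarith)
  have h2C1 : (1 : ℝ) ≤ (2 * C1) ^ 3 := one_le_pow₀ (by linarith)
  have hC31 : 1 ≤ C3 := by
    have : 1 ≤ κ ^ d * (2 * C1) ^ 3 := by nlinarith
    nlinarith
  have hC3p : 0 < C3 := by linarith
  set C9 : ℝ := Cf * (C3 + 2 * C1) ^ 5 with hC9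
  have hC91 : 1 ≤ C9 := by
    have : (1 : ℝ) ≤ (C3 + 2 * C1) ^ 5 := one_le_pow₀ (by linarith)
    nlinarith
  set r := Fintype.card (InfinitePlace K) with hr
  have hCε : (1 : ℝ) ≤ (C3 * C₀) ^ ε := Real.one_le_rpow (by nlinarith) hε.le
  refine ⟨C9 * 2 ^ r * CI * (C3 * C₀) ^ ε, ?_, ?_⟩
  · have h1 : (1 : ℝ) ≤ 2 ^ r := one_le_pow₀ (by norm_num)
    have h2 : 1 ≤ C9 * 2 ^ r := by nlinarith
    have h3 : 1 ≤ C9 * 2 ^ r * CI := by nlinarith
    nlinarith
  intro A B hA hB S hS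
  have hA0 : 0 < A := by linarith
  have hB0 : 0 < B := by linarith
  rcases S.eq_empty_or_nonempty with hSe | ⟨P0, hP0⟩
  · rw [hSe]
    simp only [Finset.card_empty, Nat.cast_zero]
    have h9 : 0 < C9 := by linarith
    have hCI0 : 0 < CI := by linarith
    have hC₀0 : 0 < C₀ := by linarith
    positivity
  -- representatives
  have hrep := fun P : ℙ K (Fin 5 → K) => hb (Fin 5) P.rep P.rep_nonzero
  choose u hu0 hu1 Sr hSr hnvS hSd hNu hSnv using hrep
  choose c hc huc using hu1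
  have hHu : ∀ P, ht (u P) = P.mulHeight := by
    intro P
    unfold ht
    rw [huc, Height.mulHeight_smul_eq_mulHeight _ (hc P), ← mulHeight_rep]
  set R : ℝ := (2 * C1 * A) ^ ((d : ℝ)⁻¹) with hR
  have h2CA : 0 < 2 * C1 * A := by positivity
  have hR0 : 0 < R := Real.rpow_pos_of_pos h2CA _
  have hRd : R ^ d = 2 * C1 * A := Real.rpow_inv_natCast_pow h2CA.le hd0
  have hSR : ∀ P ∈ S, Sr P ≤ R := by
    intro P hP
    obtain ⟨_, _, h2, _, _⟩ := hS P hP
    have h3 : Sr P ^ d ≤ R ^ d := by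
      rw [hRd]
      refine (hSd P).trans ?_
      rw [← mulHeight_rep]
      nlinarith
    exact (pow_le_pow_iff_left₀ (hSr P).le hR0.le hd0).mp h3
  have hRS : ∀ P ∈ S, R ≤ 2 * C1 * Sr P := by
    intro P hP
    obtain ⟨_, h1, _, _, _⟩ := hS P hP
    by_contra hcon
    push Not at hcon
    have h2 : (2 * C1 * Sr P) ^ d < R ^ d := pow_lt_pow_left₀ hcon (by have := hSr P; positivity) hd0
    rw [hRd, mul_pow] at h2
    have h3 : A ≤ Sr P ^ d := by
      refine h1.trans ?_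
      rw [← hHu P]
      exact ht_le_of_nv_le (hu0 P) (hnvS P)
    have h4 : 2 * C1 ≤ (2 * C1) ^ d := le_self_pow₀ (by linarith) hd0
    have h5 : 2 * C1 * A ≤ (2 * C1) ^ d * Sr P ^ d := by gcongr
    linarith
  -- the vector of minors
  set D : ℙ K (Fin 5 → K) → (Fin 5 × Fin 5) × Fin 5 → 𝓞 K := fun P => Dv ω (u P) with hD
  have hDK : ∀ P, (fun q => (D P q : K)) = (c P) ^ 3 • Dv (toK ω) P.rep := by
    intro P
    rw [← Dv_smul, ← huc]
    funext q
    exact (Dv_mp (algebraMap (𝓞 K) K) ω (u P) q).symm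
  have hD0 : ∀ P ∈ S, D P ≠ 0 := by
    intro P hP h
    obtain ⟨h1, _⟩ := hS P hP
    have h2 := hDK P
    rw [h] at h2
    apply h1
    have h3 : (c P) ^ 3 • Dv (toK ω) P.rep = 0 := by
      rw [← h2]; funext q; simp
    exact (smul_eq_zero.mp h3).resolve_left (pow_ne_zero _ (hc P))
  have hHD : ∀ P, ht (D P) = Height.mulHeight (Dv (toK ω) P.rep) := by
    intro P
    unfold ht
    rw [hDK, Height.mulHeight_smul_eq_mulHeight _ (pow_ne_zero _ (hc P))]
  have hDle : ∀ P ∈ S, ∀ v : InfinitePlace K, nv v (D P) ≤ κ * R ^ 3 := by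
    intro P hP v
    refine (hDv (u P) v).trans ?_
    have h1 : nv v (u P) ≤ R := (hnvS P v).trans (hSR P hP)
    have h2 := nv_nonneg v (u P)
    exact mul_le_mul (le_max_right _ _) (pow_le_pow_left₀ h2 h1 3) (by positivity) hκpos.le
  set j : ℙ K (Fin 5 → K) → InfinitePlace K → ℕ := fun P v =>
    ⌊Real.logb 2 (κ * R ^ 3 / nv v (D P))⌋₊ with hj
  have hjspec : ∀ P ∈ S, ∀ v : InfinitePlace K,
      nv v (D P) ≤ κ * R ^ 3 * dl (j P) v ∧ κ * R ^ 3 * dl (j P) v ≤ 2 * nv v (D P) := by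
    intro P hP v
    have hp : 0 < nv v (D P) := nv_pos v (hD0 P hP)
    have h1 : 1 ≤ κ * R ^ 3 / nv v (D P) := by
      rw [le_div_iff₀ hp, one_mul]; exact hDle P hP v
    obtain ⟨h2, h3⟩ := floor_logb_spec h1
    have e : dl (j P) v = 1 / 2 ^ (j P v) := by
      unfold dl; rw [div_pow, one_pow]
    rw [e]
    have h4 : (0 : ℝ) < 2 ^ (j P v) := by positivity
    constructor
    · rw [mul_one_div, le_div_iff₀ h4]
      rw [le_div_iff₀ hp] at h2
      have : (2 : ℝ) ^ (j P v) * nv v (D P) ≤ κ * R ^ 3 := h2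
      linarith
    · rw [mul_one_div, div_le_iff₀ h4]
      rw [div_le_iff₀ hp] at h3
      have : κ * R ^ 3 ≤ 2 * 2 ^ (j P v) * nv v (D P) := h3
      linarith
  -- product bounds
  have hR3 : (R ^ 3) ^ d = (2 * C1 * A) ^ 3 := by rw [← pow_mul, mul_comm 3 d, pow_mul, hRd]
  have hprodDl : ∀ (jj : InfinitePlace K → ℕ) (x : ℝ),
      ∏ v : InfinitePlace K, (x * dl jj v) ^ v.mult = x ^ d * Dl jj := by
    intro jj x
    simp_rw [mul_pow]
    rw [Finset.prod_mul_distrib, prod_const_mult]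
    rfl
  have hinfU : ∀ P ∈ S, infN (D P) ≤ κ ^ d * (2 * C1 * A) ^ 3 * Dl (j P) := by
    intro P hP
    unfold infN
    calc ∏ v : InfinitePlace K, nv v (D P) ^ v.mult
        ≤ ∏ v : InfinitePlace K, (κ * R ^ 3 * dl (j P) v) ^ v.mult :=
          Finset.prod_le_prod (fun v _ => pow_nonneg (nv_nonneg v _) _)
            (fun v _ => pow_le_pow_left₀ (nv_nonneg v _) (hjspec P hP v).1 _)
      _ = _ := by rw [hprodDl, mul_pow, hR3]
  have hinfL : ∀ P ∈ S, κ ^ d * (2 * C1 * A) ^ 3 * Dl (j P) ≤ 2 ^ d * infN (D P) := by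
    intro P hP
    unfold infN
    calc κ ^ d * (2 * C1 * A) ^ 3 * Dl (j P)
        = ∏ v : InfinitePlace K, (κ * R ^ 3 * dl (j P) v) ^ v.mult := by
          rw [hprodDl, mul_pow κ, hR3]
      _ ≤ ∏ v : InfinitePlace K, (2 * nv v (D P)) ^ v.mult :=
          Finset.prod_le_prod (fun v _ => by have := dl_pos (j P) v; positivity)
            (fun v _ => pow_le_pow_left₀ (by have := dl_pos (j P) v; positivity) (hjspec P hP v).2 _)
      _ = _ := by
          simp_rw [mul_pow]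
          rw [Finset.prod_mul_distrib, prod_const_mult]
  set g : ℙ K (Fin 5 → K) → Ideal (𝓞 K) := fun P => cI (D P) with hg
  have hg0 : ∀ P ∈ S, g P ≠ ⊥ := fun P hP => cI_ne_bot (hD0 P hP)
  have hNU : ∀ P ∈ S, (Ideal.absNorm (g P) : ℝ) ≤ C3 * A * Dl (j P) := by
    intro P hP
    obtain ⟨_, h1, _, h2, _⟩ := hS P hP
    have h3 := ht_mul_absNorm (hD0 P hP)
    have h4 := hinfU P hP
    rw [← h3, hHD] at h4
    have h5 : A ^ 2 ≤ C₀ * Height.mulHeight (Dv (toK ω) P.rep) :=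
      (pow_le_pow_left₀ hA0.le h1 2).trans h2
    have hNp := absNorm_pos (hg0 P hP)
    have h6 : A ^ 2 * (Ideal.absNorm (g P) : ℝ) ≤ A ^ 2 * (C3 * A * Dl (j P)) := by
      calc A ^ 2 * (Ideal.absNorm (g P) : ℝ)
          ≤ C₀ * Height.mulHeight (Dv (toK ω) P.rep) * (Ideal.absNorm (g P) : ℝ) := by gcongr
        _ = C₀ * (Height.mulHeight (Dv (toK ω) P.rep) * (Ideal.absNorm (g P) : ℝ)) := by ring
        _ ≤ C₀ * (κ ^ d * (2 * C1 * A) ^ 3 * Dl (j P)) := by gcongr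
        _ = _ := by rw [hC3]; ring
    exact le_of_mul_le_mul_left h6 (by positivity)
  have hNL : ∀ P ∈ S, A ^ 3 * Dl (j P) ≤ B * (Ideal.absNorm (g P) : ℝ) := by
    intro P hP
    obtain ⟨_, _, _, _, h2⟩ := hS P hP
    have h3 := ht_mul_absNorm (hD0 P hP)
    have h4 := hinfL P hP
    rw [← h3, hHD] at h4
    have hNp := absNorm_pos (hg0 P hP)
    have h5 : Height.mulHeight (Dv (toK ω) P.rep) * (Ideal.absNorm (g P) : ℝ) ≤
        B * (Ideal.absNorm (g P) : ℝ) := by gcongr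
    have h6 : (2 : ℝ) ^ d ≤ κ ^ d := pow_le_pow_left₀ (by norm_num) hκ2 d
    have hDp := Dl_pos (j P)
    have h7 : 2 ^ d * (A ^ 3 * Dl (j P)) ≤ 2 ^ d * (B * (Ideal.absNorm (g P) : ℝ)) := by
      calc 2 ^ d * (A ^ 3 * Dl (j P)) ≤ κ ^ d * ((2 * C1) ^ 3 * A ^ 3 * Dl (j P)) := by
            refine mul_le_mul h6 ?_ (by positivity) (by positivity)
            have : A ^ 3 ≤ (2 * C1) ^ 3 * A ^ 3 := le_mul_of_one_le_left (by positivity) h2C1
            gcongr
        _ = κ ^ d * (2 * C1 * A) ^ 3 * Dl (j P) := by ring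
        _ ≤ 2 ^ d * (Height.mulHeight (Dv (toK ω) P.rep) * (Ideal.absNorm (cI (D P)) : ℝ)) := h4
        _ ≤ _ := by
            have : (0 : ℝ) < 2 ^ d := by positivity
            exact mul_le_mul_of_nonneg_left h5 this.le
    exact le_of_mul_le_mul_left h7 (by positivity)
  -- fibre bound
  set E : ℝ := C9 * (A ^ 2 * B) * (C3 * A) ^ ε1 with hE
  have hC3A1 : 1 ≤ C3 * A := by nlinarith
  have hE0 : 0 < E := by
    have h9 : 0 < C9 := by linarith
    positivity
  have hfib : ∀ p ∈ (S.image j) ×ˢ (S.image g),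
      (((S.filter fun P => (j P, g P) = p).card : ℕ) : ℝ) ≤
        E * (Dl p.1 * (1 / (Ideal.absNorm p.2 : ℝ))) := by
    intro p _
    rcases (S.filter fun P => (j P, g P) = p).eq_empty_or_nonempty with he | ⟨Q, hQ⟩
    · rw [he]
      simp only [Finset.card_empty, Nat.cast_zero]
      have := Dl_pos p.1
      positivity
    obtain ⟨hQS, hQp⟩ := Finset.mem_filter.mp hQ
    obtain ⟨jj, gg⟩ := p
    simp only [Prod.mk.injEq] at hQp
    obtain ⟨hQj, hQg⟩ := hQp
    have hgg : gg ≠ ⊥ := by rw [← hQg]; exact hg0 Q hQS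
    have hNp := absNorm_pos hgg
    have hN1 := one_le_absNorm hgg
    have hDp := Dl_pos jj
    have hD1 := Dl_le jj
    have hNU' : (Ideal.absNorm gg : ℝ) ≤ C3 * A * Dl jj := by
      rw [← hQg, ← hQj]; exact hNU Q hQS
    have hNL' : A ^ 3 * Dl jj ≤ B * (Ideal.absNorm gg : ℝ) := by
      rw [← hQg, ← hQj]; exact hNL Q hQS
    have h := hfb gg hgg R hR0 (dl jj) (dl_pos jj) (dl_le jj) _
      (S.filter fun P => (j P, g P) = (jj, gg)) u
      (by
        intro P hP Q hQ hPQ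
        have e1 : c P • P.rep = c Q • Q.rep := by rw [← huc P, ← huc Q, hPQ]
        rw [← P.mk_rep, ← Q.mk_rep, Projectivization.mk_eq_mk_iff']
        refine ⟨(c P)⁻¹ * c Q, ?_⟩
        rw [mul_smul, ← e1, smul_smul, inv_mul_cancel₀ (hc P), one_smul])
      (fun P _ => ⟨hu0 P, hNu P⟩)
      (fun P hP v => by
        have hPS := (Finset.mem_filter.mp hP).1
        refine ⟨(hnvS P v).trans (hSR P hPS), ?_⟩
        calc R ≤ 2 * C1 * Sr P := hRS P hPS
          _ ≤ 2 * C1 * (C1 * nv v (u P)) := by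
              have := hSnv P v
              gcongr
          _ = 2 * C1 ^ 2 * nv v (u P) := by ring
          _ ≤ κ * nv v (u P) := mul_le_mul_of_nonneg_right (le_max_left _ _) (nv_nonneg v _))
      (fun P hP v => by
        obtain ⟨hPS, hPp⟩ := Finset.mem_filter.mp hP
        simp only [Prod.mk.injEq] at hPp
        rw [← hPp.1]
        exact (hjspec P hPS v).1)
      (fun P hP q => by
        obtain ⟨hPS, hPp⟩ := Finset.mem_filter.mp hP
        simp only [Prod.mk.injEq] at hPp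
        rw [← hPp.2]
        exact mem_cI (D P) q)
    refine h.trans ?_
    rw [hprodDl, hRd]
    have e1 : ∏ v, dl jj v ^ v.mult = Dl jj := rfl
    rw [e1]
    show Cf * ((Ideal.absNorm gg : ℝ) ^ (3 + ε1) / Dl jj ^ 3 *
      (1 + 2 * C1 * A * Dl jj / (Ideal.absNorm gg : ℝ)) ^ 5) ≤ E * (Dl jj * (1 / (Ideal.absNorm gg : ℝ)))
    set N : ℝ := (Ideal.absNorm gg : ℝ) with hNdef
    set X : ℝ := Dl jj with hX
    have h1 : 1 + 2 * C1 * A * X / N ≤ (C3 + 2 * C1) * (A * X / N) := by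
      have : 1 ≤ C3 * A * X / N := by rw [le_div_iff₀ hNp, one_mul]; exact hNU'
      have e : (C3 + 2 * C1) * (A * X / N) = C3 * A * X / N + 2 * C1 * A * X / N := by ring
      rw [e]; linarith
    have h2 : (1 + 2 * C1 * A * X / N) ^ 5 ≤ ((C3 + 2 * C1) * (A * X / N)) ^ 5 :=
      pow_le_pow_left₀ (by positivity) h1 5
    have h3 : N ^ (3 + ε1) = N ^ 3 * N ^ ε1 := by
      rw [Real.rpow_add hNp]
      congr 1
      exact_mod_cast Real.rpow_natCast N 3
    have h4 : N ^ ε1 ≤ (C3 * A) ^ ε1 := by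
      refine Real.rpow_le_rpow hNp.le ?_ hε10.le
      calc N ≤ C3 * A * X := hNU'
        _ ≤ C3 * A * 1 := by gcongr
        _ = C3 * A := mul_one _
    have h5 : A ^ 3 * X / N ≤ B := by rw [div_le_iff₀ hNp]; exact hNL'
    rw [h3]
    calc Cf * (N ^ 3 * N ^ ε1 / X ^ 3 * (1 + 2 * C1 * A * X / N) ^ 5)
        ≤ Cf * (N ^ 3 * (C3 * A) ^ ε1 / X ^ 3 * ((C3 + 2 * C1) * (A * X / N)) ^ 5) := by
          have hCf0 : 0 < Cf := by linarith
          gcongr
      _ = C9 * (C3 * A) ^ ε1 * (A ^ 2 * X / N) * (A ^ 3 * X / N) := by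
          rw [hC9]
          field_simp
      _ ≤ C9 * (C3 * A) ^ ε1 * (A ^ 2 * X / N) * B := by
          have h9 : 0 < C9 := by linarith
          gcongr
      _ = E * (X * (1 / N)) := by rw [hE]; ring
  -- the sum
  have hcard := Finset.card_eq_sum_card_fiberwise (f := fun P => (j P, g P)) (s := S)
    (t := (S.image j) ×ˢ (S.image g)) (fun P hP => by
      rw [Finset.mem_coe, Finset.mem_product]
      exact ⟨Finset.mem_image_of_mem j hP, Finset.mem_image_of_mem g hP⟩)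
  have hsumG : ∑ I ∈ S.image g, 1 / (Ideal.absNorm I : ℝ) ≤ CI * (C3 * A) ^ ε1 := by
    refine hId (C3 * A) hC3A1 _ fun I hI => ?_
    obtain ⟨P, hP, rfl⟩ := Finset.mem_image.mp hI
    refine ⟨hg0 P hP, (hNU P hP).trans ?_⟩
    have := Dl_le (j P)
    calc C3 * A * Dl (j P) ≤ C3 * A * 1 := by gcongr
      _ = C3 * A := mul_one _
  have hsumJ := sum_Dl_le (S.image j)
  have hAB : A ≤ C₀ * B := by
    obtain ⟨_, h1, _, h2, h3⟩ := hS P0 hP0
    have h4 : A ^ 2 ≤ C₀ * B := (pow_le_pow_left₀ hA0.le h1 2).trans (h2.trans (by gcongr))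
    nlinarith
  have hpow : (C3 * A) ^ ε1 * (C3 * A) ^ ε1 ≤ (C3 * C₀) ^ ε * B ^ ε := by
    rw [← Real.rpow_add (by positivity), hε1, add_halves, ← Real.mul_rpow (by positivity) hB0.le]
    refine Real.rpow_le_rpow (by positivity) ?_ hε.le
    calc C3 * A ≤ C3 * (C₀ * B) := by gcongr
      _ = C3 * C₀ * B := by ring
  calc (S.card : ℝ) = ∑ p ∈ (S.image j) ×ˢ (S.image g),
        (((S.filter fun P => (j P, g P) = p).card : ℕ) : ℝ) := by rw [hcard]; push_cast; rfl
    _ ≤ ∑ p ∈ (S.image j) ×ˢ (S.image g), E * (Dl p.1 * (1 / (Ideal.absNorm p.2 : ℝ))) :=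
        Finset.sum_le_sum hfib
    _ = E * ((∑ jj ∈ S.image j, Dl jj) * ∑ I ∈ S.image g, 1 / (Ideal.absNorm I : ℝ)) := by
        rw [← Finset.mul_sum, Finset.sum_product, Finset.sum_mul_sum]
    _ ≤ E * (2 ^ r * (CI * (C3 * A) ^ ε1)) := by
        have hnn : 0 ≤ ∑ I ∈ S.image g, 1 / (Ideal.absNorm I : ℝ) :=
          Finset.sum_nonneg fun I _ => by positivity
        gcongr
    _ = C9 * 2 ^ r * CI * (A ^ 2 * B) * ((C3 * A) ^ ε1 * (C3 * A) ^ ε1) := by rw [hE]; ring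
    _ ≤ C9 * 2 ^ r * CI * (A ^ 2 * B) * ((C3 * C₀) ^ ε * B ^ ε) := by
        have h9 : 0 < C9 := by linarith
        gcongr
    _ = C9 * 2 ^ r * CI * (C3 * C₀) ^ ε * (A ^ 2 * B ^ (1 + ε)) := by
        rw [Real.rpow_add hB0, Real.rpow_one]; ring

end Pool.V5
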