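import Mathlib
import Pool.Agent.V5.Count

set_option autoImplicit false

/-!
Assembly: the number of points of bounded height on `V_5` (integral forms).
-/

namespace Pool.V5

open Finset NumberField Pool.Lib18ea5f
open scoped LinearAlgebra.Projectivization

section lin

variable {F : Type*} [Field F]

lemma bil_add_left (m : Fin 5 → Fin 5 → F) (x y z : Fin 5 → F) :
    bil m (x + y) z = bil m x z + bil m y z := by
  simp only [bil, Pi.add_apply, ← Finset.sum_add_distrib]
  exact Finset.sum_congr rfl fun i _ => Finset.sum_congr rfl fun j _ => by ring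

lemma bil_add_right (m : Fin 5 → Fin 5 → F) (x y z : Fin 5 → F) :
    bil m x (y + z) = bil m x y + bil m x z := by
  simp only [bil, Pi.add_apply, ← Finset.sum_add_distrib]
  exact Finset.sum_congr rfl fun i _ => Finset.sum_congr rfl fun j _ => by ring

lemma bil_smul_left (m : Fin 5 → Fin 5 → F) (c : F) (x y : Fin 5 → F) :
    bil m (c • x) y = c * bil m x y := by
  simp only [bil, Pi.smul_apply, smul_eq_mul, Finset.mul_sum]
  exact Finset.sum_congr rfl fun i _ => Finset.sum_congr rfl fun j _ => by ring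

lemma bil_smul_right (m : Fin 5 → Fin 5 → F) (c : F) (x y : Fin 5 → F) :
    bil m x (c • y) = c * bil m x y := by
  simp only [bil, Pi.smul_apply, smul_eq_mul, Finset.mul_sum]
  exact Finset.sum_congr rfl fun i _ => Finset.sum_congr rfl fun j _ => by ring

lemma bil_swap {ω : Fin 3 → Fin 5 → Fin 5 → F} (h : IsAlt ω) (k : Fin 3) (x y : Fin 5 → F) :
    bil (ω k) x y = - bil (ω k) y x := by
  unfold bil
  rw [Finset.sum_comm, ← Finset.sum_neg_distrib]
  refine Finset.sum_congr rfl fun i _ => ?_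
  rw [← Finset.sum_neg_distrib]
  refine Finset.sum_congr rfl fun j _ => ?_
  rw [(h k j).2 i]; ring

lemma bil_self {ω : Fin 3 → Fin 5 → Fin 5 → F} (h : IsAlt ω) (k : Fin 3) (x : Fin 5 → F) :
    bil (ω k) x x = 0 := by
  have e : ∀ i j, ω k i j = - ω k j i := fun i j => (h k i).2 j
  have e0 : ∀ i, ω k i i = 0 := fun i => (h k i).1
  simp only [bil, Fin.sum_univ_five, e0]
  rw [e 1 0, e 2 0, e 3 0, e 4 0, e 2 1, e 3 1, e 4 1, e 3 2, e 4 2, e 4 3]
  ring

lemma bil_eq_col (ω : Fin 3 → Fin 5 → Fin 5 → F) (k : Fin 3) (u z : Fin 5 → F) :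
    bil (ω k) u z = ∑ j, col ω u j k * z j := by
  simp only [bil, col, Finset.sum_mul]
  rw [Finset.sum_comm]
  exact Finset.sum_congr rfl fun i _ => Finset.sum_congr rfl fun j _ => by ring

lemma pl_smul_left (c : F) (x y : Fin 5 → F) : pl (c • x) y = c • pl x y := by
  funext q; simp [pl]; ring

lemma pl_smul_right (c : F) (x y : Fin 5 → F) : pl x (c • y) = c • pl x y := by
  funext q; simp [pl]; ring

lemma pl_add_left (x y z : Fin 5 → F) : pl (x + y) z = pl x z + pl y z := by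
  funext q; simp [pl]; ring

lemma pl_add_right (x y z : Fin 5 → F) : pl x (y + z) = pl x y + pl x z := by
  funext q; simp [pl]; ring

lemma pl_self (x : Fin 5 → F) : pl x x = 0 := by
  funext q; simp [pl]; ring

lemma pl_swap (x y : Fin 5 → F) : pl x y = - pl y x := by
  funext q; simp [pl]; ring

/-- the linear map `z ↦ (ω_k(u,z))_k` -/
def Mu (ω : Fin 3 → Fin 5 → Fin 5 → F) (u : Fin 5 → F) : (Fin 5 → F) →ₗ[F] (Fin 3 → F) where
  toFun z := fun k => bil (ω k) u z
  map_add' x y := by funext k; exact bil_add_right _ _ _ _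
  map_smul' c x := by funext k; exact bil_smul_right _ _ _ _

lemma finrank_ker_Mu {ω : Fin 3 → Fin 5 → Fin 5 → F} {u : Fin 5 → F} {q : Fin 5 × Fin 5}
    (hq : av ω u q ≠ 0) : Module.finrank F (LinearMap.ker (Mu ω u)) ≤ 3 := by
  have h1 := LinearMap.finrank_range_add_finrank_ker (Mu ω u)
  rw [Module.finrank_fin_fun] at h1
  have hcol : ∀ j, Mu ω u (Pi.single j 1) = col ω u j := by
    intro j
    funext k
    show bil (ω k) u (Pi.single j 1) = _
    rw [bil_eq_col, Finset.sum_eq_single j]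
    · simp
    · intro i _ hi; simp [Pi.single_eq_of_ne hi]
    · intro h; exact absurd (mem_univ j) h
  have hli : LinearIndependent F ![col ω u q.1, col ω u q.2] := by
    rw [LinearIndependent.pair_iff]
    intro s t hst
    by_contra hcon
    apply hq
    have e : ∀ k, s * col ω u q.1 k + t * col ω u q.2 k = 0 := fun k => by
      have := congrFun hst k
      simpa using this
    have hs : s ≠ 0 ∨ t ≠ 0 := by
      by_contra h
      push Not at h
      exact hcon h
    have key : ∀ i j, col ω u q.1 i * col ω u q.2 j - col ω u q.1 j * col ω u q.2 i = 0 := by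
      intro i j
      rcases hs with hs | ht
      · apply mul_left_cancel₀ hs
        rw [mul_zero]
        linear_combination e i * col ω u q.2 j - e j * col ω u q.2 i
      · apply mul_left_cancel₀ ht
        rw [mul_zero]
        linear_combination col ω u q.1 i * e j - col ω u q.1 j * e i
    unfold av
    funext l
    fin_cases l
    · exact key 1 2
    · exact key 2 0
    · exact key 0 1
  have hle : 2 ≤ Module.finrank F (LinearMap.range (Mu ω u)) := by
    let w : Fin 2 → LinearMap.range (Mu ω u) :=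
      ![⟨col ω u q.1, ⟨_, hcol q.1⟩⟩, ⟨col ω u q.2, ⟨_, hcol q.2⟩⟩]
    have hw : LinearIndependent F w := by
      have h2 : (LinearMap.range (Mu ω u)).subtype ∘ w = ![col ω u q.1, col ω u q.2] := by
        funext i; fin_cases i <;> rfl
      rw [← h2] at hli
      exact LinearIndependent.of_comp _ hli
    have := hw.fintype_card_le_finrank
    simpa using this
  omega

/-- the planes through `u` lie on a line -/
lemma ker_span {ω : Fin 3 → Fin 5 → Fin 5 → F} (hω : IsAlt ω) {u : Fin 5 → F}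
    (hu : ∃ q, av ω u q ≠ 0) {z0 z1 z2 : Fin 5 → F} (h0 : ∀ k, bil (ω k) u z0 = 0)
    (h1 : ∀ k, bil (ω k) u z1 = 0) (h2 : ∀ k, bil (ω k) u z2 = 0)
    (hw : wedge (pl u z0) (pl u z1) ≠ 0) :
    ∃ β γ : F, pl u z2 = β • pl u z0 + γ • pl u z1 := by
  obtain ⟨q, hq⟩ := hu
  have hker := finrank_ker_Mu hq
  let w : Fin 4 → LinearMap.ker (Mu ω u) :=
    ![⟨u, by rw [LinearMap.mem_ker]; funext k; exact bil_self hω k u⟩,
      ⟨z0, by rw [LinearMap.mem_ker]; funext k; exact h0 k⟩,
      ⟨z1, by rw [LinearMap.mem_ker]; funext k; exact h1 k⟩,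
      ⟨z2, by rw [LinearMap.mem_ker]; funext k; exact h2 k⟩]
  have hdep : ¬ LinearIndependent F w := by
    intro hli
    have := hli.fintype_card_le_finrank
    rw [Fintype.card_fin] at this
    omega
  rw [Fintype.not_linearIndependent_iff] at hdep
  obtain ⟨g, hg, i, hi⟩ := hdep
  have hsum : g 0 • u + g 1 • z0 + g 2 • z1 + g 3 • z2 = 0 := by
    have := congrArg Subtype.val hg
    rw [Fin.sum_univ_four] at this
    simpa [w] using this
  have hpl : g 1 • pl u z0 + g 2 • pl u z1 + g 3 • pl u z2 = 0 := by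
    have := congrArg (pl u) hsum
    rw [pl_add_right, pl_add_right, pl_add_right, pl_smul_right, pl_smul_right, pl_smul_right,
      pl_smul_right, pl_self, smul_zero, zero_add] at this
    rw [this]
    funext q; simp [pl]
  by_cases h3 : g 3 = 0
  · exfalso
    rw [h3, zero_smul, add_zero] at hpl
    -- then wedge = 0 or everything vanishes
    have hpt : ∀ s, g 1 * pl u z0 s + g 2 * pl u z1 s = 0 := fun s => by
      have := congrFun hpl s
      simpa using this
    have hwz : ∀ s, g 1 * wedge (pl u z0) (pl u z1) s = 0 ∧ g 2 * wedge (pl u z0) (pl u z1) s = 0 := by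
      intro s
      unfold wedge
      constructor
      · linear_combination pl u z1 s.2 * hpt s.1 - pl u z1 s.1 * hpt s.2
      · linear_combination pl u z0 s.1 * hpt s.2 - pl u z0 s.2 * hpt s.1
    obtain ⟨s, hs⟩ := Function.ne_iff.mp hw
    simp only [Pi.zero_apply] at hs
    have g1 : g 1 = 0 := (mul_eq_zero.mp (hwz s).1).resolve_right hs
    have g2 : g 2 = 0 := (mul_eq_zero.mp (hwz s).2).resolve_right hs
    rw [g1, g2, h3, zero_smul, zero_smul, zero_smul, add_zero, add_zero, add_zero] at hsum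
    have hu0 : u ≠ 0 := by
      rintro rfl
      apply hw
      funext s
      simp [wedge, pl]
    have g0 : g 0 = 0 := (smul_eq_zero.mp hsum).resolve_right hu0
    fin_cases i
    · exact hi g0
    · exact hi g1
    · exact hi g2
    · exact hi h3
  · refine ⟨-(g 1 / g 3), -(g 2 / g 3), ?_⟩
    funext s
    have := congrFun hpl s
    simp only [Pi.add_apply, Pi.smul_apply, smul_eq_mul, Pi.zero_apply] at this ⊢
    field_simp
    linear_combination this

end lin

variable {K : Type} [Field K] [NumberField K]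

lemma exists_smul_of_wedge {ι : Type} {x y : ι → K} (hx : x ≠ 0) (h : wedge x y = 0) :
    ∃ c : K, y = c • x :=
  exists_smul_of_par hx fun i j => by
    have := congrFun h (i, j)
    simp only [wedge, Pi.zero_apply] at this
    linear_combination this

lemma exists_data {ω : Fin 3 → Fin 5 → Fin 5 → K} (hω : IsAlt ω) {Cs : ℝ}
    (hs : ∀ x y : Fin 5 → K, pl x y ≠ 0 →
      ∃ u : Fin 5 → K, u ≠ 0 ∧ (∃ α β : K, u = α • x + β • y) ∧
        Height.mulHeight u ^ 2 ≤ Cs * Height.mulHeight (pl x y))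
    (P : ℙ K (Fin 5 × Fin 5 → K)) (hP : OnX ω P.rep) :
    ∃ (p : ℙ K (Fin 5 → K)) (z : Fin 5 → K), (∀ k, bil (ω k) p.rep z = 0) ∧
      (∃ l : K, l ≠ 0 ∧ pl p.rep z = l • P.rep) ∧ p.mulHeight ^ 2 ≤ Cs * P.mulHeight := by
  obtain ⟨x, y, hxy, hb⟩ := hP
  have hne : pl x y ≠ 0 := by rw [← hxy]; exact P.rep_nonzero
  obtain ⟨u, hu, ⟨α, β, hue⟩, hH⟩ := hs x y hne
  obtain ⟨a, ha⟩ := Projectivization.exists_smul_eq_mk_rep K u hu
  have ha0 : (a : K) ≠ 0 := a.ne_zero
  have hrep : (Projectivization.mk K u hu).rep = (a : K) • u := ha.symm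
  have hHp : (Projectivization.mk K u hu).mulHeight ^ 2 ≤ Cs * P.mulHeight := by
    rw [mulHeight_rep P, hxy, Projectivization.mulHeight_mk (K := K) hu]
    exact hH
  have hb' : ∀ k, bil (ω k) y x = 0 := fun k => by rw [bil_swap hω, hb k, neg_zero]
  by_cases hα : α = 0
  · have hβ : β ≠ 0 := by
      rintro rfl
      apply hu
      rw [hue, hα, zero_smul, zero_smul, add_zero]
    have hu2 : u = β • y := by rw [hue, hα, zero_smul, zero_add]
    refine ⟨Projectivization.mk K u hu, x, fun k => ?_, ⟨-((a : K) * β), ?_, ?_⟩, hHp⟩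
    · rw [hrep, hu2, bil_smul_left, bil_smul_left, hb' k, mul_zero, mul_zero]
    · exact neg_ne_zero.mpr (mul_ne_zero ha0 hβ)
    · rw [hrep, hu2, pl_smul_left, pl_smul_left, hxy, pl_swap y x, smul_neg, smul_neg, smul_smul,
        neg_smul]
  · refine ⟨Projectivization.mk K u hu, y, fun k => ?_, ⟨(a : K) * α, ?_, ?_⟩, hHp⟩
    · rw [hrep, hue, bil_smul_left, bil_add_left, bil_smul_left, bil_smul_left, hb k,
        bil_self hω k y]
      ring
    · exact mul_ne_zero ha0 hα
    · rw [hrep, hue, pl_smul_left, pl_add_left, pl_smul_left, pl_smul_left, pl_self, smul_zero,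
        add_zero, hxy, smul_smul]

theorem Main_proof (hsg : Stmt_Siegel) (hrel : Stmt_Rel) (hzrel : Stmt_ZRel) (hzc : Stmt_ZCount)
    (hln : Stmt_LineN) (hcount : Stmt_Count) : Stmt_Main := by
  intro K _ _ ω M Δ hω hN ε hε
  classical
  have hωK : IsAlt (toK ω) := hω.map _
  obtain ⟨Cs, hCs, hs⟩ := hsg K
  obtain ⟨Cl, hCl, hl⟩ := hln K (Fin 5 × Fin 5)
  obtain ⟨Cz, hCz, hz⟩ := hzrel K ω M Δ hω hN
  obtain ⟨Cq, hCq, hq⟩ := hzc K ω M Δ hω hN 1 one_pos
  set ε' : ℝ := ε / 2 with hε'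
  have hε'0 : 0 < ε' := by positivity
  obtain ⟨Cc, hCc, hc⟩ := hcount K ω M Δ hω hN Cs hCs ε' hε'0
  obtain ⟨CL, hCL, hlog⟩ := log_pow_le ε' hε'0 1 Cs hCs
  set Ca : ℝ := CL * Cc * Cs with hCa
  set Cb : ℝ := (1 + Cl) * Cq * Cs ^ 2 + Cl * Real.sqrt Cz * (2 * CL) * (2 * Cq) with hCb
  have hsz : 1 ≤ Real.sqrt Cz := Real.one_le_sqrt.mpr hCz
  have hCa1 : 1 ≤ Ca := by
    have : 1 ≤ CL * Cc := by nlinarith
    nlinarith
  have hCb0 : 0 ≤ Cb := by positivity
  refine ⟨Ca + Cb, by linarith, ?_⟩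
  intro B hB S hS
  have hB0 : 0 < B := by linarith
  have hCsB : 1 ≤ Cs * B := by nlinarith
  have hlogB : Real.logb 2 (Cs * B) + 2 ≤ CL * B ^ ε' := by
    have := hlog B hB
    rwa [pow_one] at this
  have hlog0 : 0 ≤ Real.logb 2 (Cs * B) := Real.logb_nonneg (by norm_num) hCsB
  -- the data
  have hdata : ∀ P : ℙ K (Fin 5 × Fin 5 → K), ∃ (p : ℙ K (Fin 5 → K)) (z : Fin 5 → K),
      OnX (toK ω) P.rep → ((∀ k, bil (toK ω k) p.rep z = 0) ∧
        (∃ l : K, l ≠ 0 ∧ pl p.rep z = l • P.rep) ∧ p.mulHeight ^ 2 ≤ Cs * P.mulHeight) := by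
    intro P
    by_cases hP : OnX (toK ω) P.rep
    · obtain ⟨p, z, h⟩ := exists_data hωK hs P hP
      exact ⟨p, z, fun _ => h⟩
    · refine ⟨Projectivization.mk K (fun _ => 1) (fun h => ?_), 0, fun h => absurd h hP⟩
      have := congrFun h 0
      simp at this
  choose U z hUz using hdata
  have hU1 : ∀ P ∈ S, ∀ k, bil (toK ω k) (U P).rep (z P) = 0 := fun P hP => (hUz P (hS P hP).1).1
  have hU2 : ∀ P ∈ S, ∃ l : K, l ≠ 0 ∧ pl (U P).rep (z P) = l • P.rep :=
    fun P hP => (hUz P (hS P hP).1).2.1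
  have hU3 : ∀ P ∈ S, (U P).mulHeight ^ 2 ≤ Cs * P.mulHeight := fun P hP => (hUz P (hS P hP).1).2.2
  have hU4 : ∀ P ∈ S, (U P).mulHeight ^ 2 ≤ Cs * B := fun P hP =>
    (hU3 P hP).trans (by have := (hS P hP).2; gcongr)
  have hU5 : ∀ P ∈ S, 1 ≤ (U P).mulHeight := fun P _ => by
    rw [mulHeight_rep]; exact Height.one_le_mulHeight _
  have hplne : ∀ P ∈ S, pl (U P).rep (z P) ≠ 0 := by
    intro P hP
    obtain ⟨l, hl0, he⟩ := hU2 P hP
    rw [he]
    exact smul_ne_zero hl0 P.rep_nonzero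
  -- two points with proportional planes are equal
  have heq : ∀ P ∈ S, ∀ Q ∈ S, (∃ c : K, pl (U Q).rep (z Q) = c • pl (U P).rep (z P)) → P = Q := by
    intro P hP Q hQ ⟨c, hc⟩
    obtain ⟨l, hl0, he⟩ := hU2 P hP
    obtain ⟨l', hl0', he'⟩ := hU2 Q hQ
    rw [he, he', smul_smul] at hc
    symm
    rw [← P.mk_rep, ← Q.mk_rep, Projectivization.mk_eq_mk_iff']
    refine ⟨l'⁻¹ * (c * l), ?_⟩
    rw [mul_smul, ← hc, smul_smul, inv_mul_cancel₀ hl0', one_smul]
  set S1 := S.filter (fun P => Dv (toK ω) (U P).rep ≠ 0) with hS1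
  set S2 := S.filter (fun P => ¬ Dv (toK ω) (U P).rep ≠ 0) with hS2
  have hsplit : S.card = S1.card + S2.card := (Finset.card_filter_add_card_filter_not _).symm
  -- S1
  have hS1b : (S1.card : ℝ) ≤ Ca * B ^ (2 + ε) := by
    have hmem : ∀ P ∈ S1, P ∈ S ∧ Dv (toK ω) (U P).rep ≠ 0 := fun P hP => Finset.mem_filter.mp hP
    have hinj : Set.InjOn U S1 := by
      intro P hP Q hQ hPQ
      obtain ⟨hPS, hPD⟩ := hmem P hP
      obtain ⟨hQS, hQD⟩ := hmem Q hQ
      apply heq P hPS Q hQS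
      obtain ⟨_, h2⟩ := hrel K (toK ω) hωK (U P).rep (z P) (hU1 P hPS) hPD (hplne P hPS)
      obtain ⟨c, hc⟩ := h2 (z Q) (by rw [hPQ]; exact hU1 Q hQS)
      refine ⟨c, ?_⟩
      rw [← hPQ]; exact hc
    have hcard : (S1.image U).card = S1.card := Finset.card_image_of_injOn hinj
    set L := ⌊Real.logb 2 (Cs * B)⌋₊ with hL
    let f : ℙ K (Fin 5 → K) → ℕ := fun p => ⌊Real.logb 2 p.mulHeight⌋₊
    have hmaps : ∀ p ∈ S1.image U, f p ∈ Finset.range (L + 1) := by
      intro p hp
      obtain ⟨P, hP, rfl⟩ := Finset.mem_image.mp hp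
      have hPS := (hmem P hP).1
      rw [Finset.mem_range]
      refine Nat.lt_succ_of_le (Nat.floor_mono
        (Real.logb_le_logb_of_le (by norm_num) (by linarith [hU5 P hPS]) ?_))
      have h1 := hU4 P hPS
      have h2 := hU5 P hPS
      nlinarith
    have hcs := Finset.card_eq_sum_card_fiberwise (f := f) (s := S1.image U)
      (t := Finset.range (L + 1)) hmaps
    have hfib : ∀ i ∈ Finset.range (L + 1),
        ((((S1.image U).filter fun p => f p = i).card : ℕ) : ℝ) ≤ Cc * (Cs * B * B ^ (1 + ε')) := by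
      intro i _
      rcases ((S1.image U).filter fun p => f p = i).eq_empty_or_nonempty with he | ⟨p0, hp0⟩
      · rw [he]
        simp only [Finset.card_empty, Nat.cast_zero]
        positivity
      have hspec : ∀ p ∈ (S1.image U).filter (fun p => f p = i),
          (2 : ℝ) ^ i ≤ p.mulHeight ∧ p.mulHeight ≤ 2 * 2 ^ i := by
        intro p hp
        obtain ⟨hp1, hp2⟩ := Finset.mem_filter.mp hp
        obtain ⟨P, hP, rfl⟩ := Finset.mem_image.mp hp1
        rw [← hp2]
        exact floor_logb_spec (hU5 P (hmem P hP).1)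
      have h1 := hc (2 ^ i) B (one_le_pow₀ (by norm_num)) hB
        ((S1.image U).filter fun p => f p = i) (by
          intro p hp
          have hsp := hspec p hp
          obtain ⟨hp1, _⟩ := Finset.mem_filter.mp hp
          obtain ⟨P, hP, rfl⟩ := Finset.mem_image.mp hp1
          obtain ⟨hPS, hPD⟩ := hmem P hP
          obtain ⟨h2, _⟩ := hrel K (toK ω) hωK (U P).rep (z P) (hU1 P hPS) hPD (hplne P hPS)
          obtain ⟨l, hl0, he⟩ := hU2 P hPS
          have h3 : Height.mulHeight (Dv (toK ω) (U P).rep) = P.mulHeight := by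
            rw [h2, he, Height.mulHeight_smul_eq_mulHeight _ hl0, ← mulHeight_rep]
          refine ⟨hPD, hsp.1, hsp.2, ?_, ?_⟩
          · rw [h3]; exact hU3 P hPS
          · rw [h3]; exact (hS P hPS).2)
      refine h1.trans ?_
      have h2 : ((2 : ℝ) ^ i) ^ 2 ≤ Cs * B := by
        have hsp := (hspec p0 hp0).1
        obtain ⟨hp1, _⟩ := Finset.mem_filter.mp hp0
        obtain ⟨P, hP, rfl⟩ := Finset.mem_image.mp hp1
        exact (pow_le_pow_left₀ (by positivity) hsp 2).trans (hU4 P (hmem P hP).1)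
      gcongr
    have hLle : ((L : ℝ) + 1) ≤ CL * B ^ ε' := by
      have := Nat.floor_le hlog0
      have h1 : (L : ℝ) ≤ Real.logb 2 (Cs * B) := this
      linarith
    calc (S1.card : ℝ) = ((S1.image U).card : ℝ) := by rw [hcard]
      _ = ∑ i ∈ Finset.range (L + 1), ((((S1.image U).filter fun p => f p = i).card : ℕ) : ℝ) := by
          rw [hcs]; push_cast; rfl
      _ ≤ ∑ i ∈ Finset.range (L + 1), Cc * (Cs * B * B ^ (1 + ε')) := Finset.sum_le_sum hfib
      _ = ((L : ℝ) + 1) * (Cc * (Cs * B * B ^ (1 + ε'))) := by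
          rw [Finset.sum_const, Finset.card_range, nsmul_eq_mul]; push_cast; ring
      _ ≤ (CL * B ^ ε') * (Cc * (Cs * B * B ^ (1 + ε'))) := by gcongr
      _ = Ca * (B * B ^ (1 + ε') * B ^ ε') := by rw [hCa]; ring
      _ = Ca * B ^ (2 + ε) := by
          congr 1
          rw [← Real.rpow_one_add' hB0.le (by positivity), ← Real.rpow_add hB0]
          congr 1
          rw [hε']; ring
  -- S2
  have hS2b : (S2.card : ℝ) ≤ Cb * B ^ (2 + ε) := by
    have hmem : ∀ P ∈ S2, P ∈ S ∧ Dv (toK ω) (U P).rep = 0 := fun P hP => by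
      obtain ⟨h1, h2⟩ := Finset.mem_filter.mp hP
      push Not at h2
      exact ⟨h1, h2⟩
    set T := S2.image U with hT
    have hTmem : ∀ p ∈ T, Dv (toK ω) p.rep = 0 ∧ p.mulHeight ^ 2 ≤ Cs * B ∧ 1 ≤ p.mulHeight := by
      intro p hp
      obtain ⟨P, hP, rfl⟩ := Finset.mem_image.mp hp
      obtain ⟨hPS, hPD⟩ := hmem P hP
      exact ⟨hPD, hU4 P hPS, hU5 P hPS⟩
    let h : ℙ K (Fin 5 → K) → ℝ := fun p => p.mulHeight ^ (5 / 2 : ℝ)
    have hfib : ∀ p ∈ T, (((S2.filter fun P => U P = p).card : ℕ) : ℝ) ≤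
        (1 + Cl) + Cl * Real.sqrt Cz * B ^ 2 * (1 / h p) := by
      intro p hp
      have hp1 := (hTmem p hp).2.2
      have hh0 : 0 < h p := Real.rpow_pos_of_pos (by linarith) _
      rcases le_or_gt (S2.filter fun P => U P = p).card 1 with hle | hgt
      · have : (((S2.filter fun P => U P = p).card : ℕ) : ℝ) ≤ 1 := by exact_mod_cast hle
        have h2 : 0 ≤ Cl * Real.sqrt Cz * B ^ 2 * (1 / h p) := by positivity
        linarith
      obtain ⟨P0, hP0, P1, hP1, hne⟩ := Finset.one_lt_card.mp hgt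
      obtain ⟨hP0', hU0⟩ := Finset.mem_filter.mp hP0
      obtain ⟨hP1', hU1'⟩ := Finset.mem_filter.mp hP1
      have hP0S := (hmem P0 hP0').1
      have hP1S := (hmem P1 hP1').1
      have hw : wedge (pl p.rep (z P0)) (pl p.rep (z P1)) ≠ 0 := by
        intro hw0
        have hx : pl p.rep (z P0) ≠ 0 := by rw [← hU0]; exact hplne P0 hP0S
        obtain ⟨c, hc⟩ := exists_smul_of_wedge hx hw0
        apply hne
        apply heq P0 hP0S P1 hP1S
        refine ⟨c, ?_⟩
        rw [hU0, hU1']; exact hc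
      have hb0 : ∀ k, bil (toK ω k) p.rep (z P0) = 0 := by rw [← hU0]; exact hU1 P0 hP0S
      have hb1 : ∀ k, bil (toK ω k) p.rep (z P1) = 0 := by rw [← hU1']; exact hU1 P1 hP1S
      have hline := hl _ _ hw (S2.filter fun P => U P = p) B hB (by
        intro P hP
        obtain ⟨hP', hUP⟩ := Finset.mem_filter.mp hP
        have hPS := (hmem P hP').1
        refine ⟨?_, (hS P hPS).2⟩
        obtain ⟨l, hl0, he⟩ := hU2 P hPS
        rw [hUP] at he
        obtain ⟨β, γ, hβγ⟩ := ker_span hωK (exists_av_ne hN p.rep_nonzero) hb0 hb1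
          (by rw [← hUP]; exact hU1 P hPS) hw
        refine ⟨l⁻¹ * β, l⁻¹ * γ, ?_⟩
        rw [mul_smul, mul_smul, ← smul_add, ← hβγ, he, smul_smul, inv_mul_cancel₀ hl0, one_smul])
      have hzr := hz p.rep (z P0) (z P1) hb0 hb1 hw
      set w := Height.mulHeight (wedge (pl p.rep (z P0)) (pl p.rep (z P1))) with hwdef
      have hw0 : 0 < w := Height.mulHeight_pos _
      rw [← mulHeight_rep] at hzr
      have hhw : h p ≤ Real.sqrt Cz * w := by
        have h1 : (h p) ^ 2 ≤ (Real.sqrt Cz * w) ^ 2 := by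
          have e1 : (h p) ^ 2 = p.mulHeight ^ 5 := by
            show (p.mulHeight ^ (5 / 2 : ℝ)) ^ 2 = _
            rw [← Real.rpow_natCast, ← Real.rpow_mul (by linarith)]
            norm_num
          rw [e1, mul_pow, Real.sq_sqrt (by linarith)]
          exact hzr
        exact (pow_le_pow_iff_left₀ hh0.le (by positivity) two_ne_zero).mp h1
      refine hline.trans ?_
      have h3 : B ^ 2 / w ≤ Real.sqrt Cz * B ^ 2 * (1 / h p) := by
        rw [mul_one_div, div_le_div_iff₀ hw0 hh0]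
        calc B ^ 2 * h p ≤ B ^ 2 * (Real.sqrt Cz * w) := by gcongr
          _ = _ := by ring
      calc Cl * (1 + B ^ 2 / w) ≤ Cl * (1 + Real.sqrt Cz * B ^ 2 * (1 / h p)) := by gcongr
        _ ≤ _ := by nlinarith
    have hcs := Finset.card_eq_sum_card_fiberwise (f := U) (s := S2) (t := T)
      (fun P hP => Finset.mem_image_of_mem U hP)
    have hA0 : ∀ p ∈ T, p.mulHeight ≤ (Cs * B) ^ (1 / 2 : ℝ) := by
      intro p hp
      rw [← Real.sqrt_eq_rpow]
      exact Real.le_sqrt_of_sq_le (hTmem p hp).2.1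
    have h12 : 1 ≤ (Cs * B) ^ (1 / 2 : ℝ) := Real.one_le_rpow hCsB (by norm_num)
    have e54 : ((Cs * B) ^ (1 / 2 : ℝ)) ^ (5 / 2 : ℝ) ≤ (Cs * B) ^ 2 := by
      rw [← Real.rpow_mul (by positivity), ← Real.rpow_natCast]
      exact Real.rpow_le_rpow_of_exponent_le hCsB (by norm_num)
    have hTcard : (T.card : ℝ) ≤ Cq * (Cs * B) ^ 2 := by
      have h1 := hq _ h12 T (fun p hp => ⟨(hTmem p hp).1, hA0 p hp⟩)
      refine h1.trans ?_
      have e : (3 / 2 + 1 : ℝ) = 5 / 2 := by norm_num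
      rw [e]
      gcongr
    have hrec : ∑ p ∈ T, 1 / h p ≤ (Real.logb 2 ((Cs * B) ^ 2) + 1) * (2 * Cq) := by
      refine dyadic_recip T h ((Cs * B) ^ 2) (2 * Cq) ?_ ?_ (one_le_pow₀ hCsB) (by positivity) ?_
      · intro p hp
        exact Real.one_le_rpow (hTmem p hp).2.2 (by norm_num)
      · intro p hp
        refine le_trans ?_ e54
        exact Real.rpow_le_rpow (by linarith [(hTmem p hp).2.2]) (hA0 p hp) (by norm_num)
      · intro X hX _ S' hS' hXS
        have h2X : 1 ≤ (2 * X) ^ (2 / 5 : ℝ) := Real.one_le_rpow (by linarith) (by norm_num)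
        have h1 := hq _ h2X S' (fun p hp => by
          refine ⟨(hTmem p (hS' hp)).1, ?_⟩
          have h2 := (hXS p hp).2
          have hp1 := (hTmem p (hS' hp)).2.2
          have h3 : (h p) ^ (2 / 5 : ℝ) ≤ (2 * X) ^ (2 / 5 : ℝ) :=
            Real.rpow_le_rpow (Real.rpow_nonneg (by linarith) _) h2 (by norm_num)
          have e : (h p) ^ (2 / 5 : ℝ) = p.mulHeight := by
            show (p.mulHeight ^ (5 / 2 : ℝ)) ^ (2 / 5 : ℝ) = _
            rw [← Real.rpow_mul (by linarith)]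
            norm_num
          rwa [e] at h3)
        refine h1.trans (le_of_eq ?_)
        rw [← Real.rpow_mul (by linarith)]
        norm_num
        ring
    have hlog2 : Real.logb 2 ((Cs * B) ^ 2) + 1 ≤ 2 * CL * B ^ ε' := by
      have e : Real.logb 2 ((Cs * B) ^ 2) = 2 * Real.logb 2 (Cs * B) := by
        rw [Real.logb_pow]; norm_num
      rw [e]
      nlinarith
    have hBε : 1 ≤ B ^ ε' := Real.one_le_rpow hB hε'0.le
    have hBε2 : B ^ ε' ≤ B ^ ε := Real.rpow_le_rpow_of_exponent_le hB (by rw [hε']; linarith)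
    have hB2 : B ^ (2 + ε) = B ^ 2 * B ^ ε := by
      rw [Real.rpow_add hB0]
      congr 1
      exact_mod_cast Real.rpow_natCast B 2
    calc (S2.card : ℝ) = ∑ p ∈ T, (((S2.filter fun P => U P = p).card : ℕ) : ℝ) := by
          rw [hcs]; push_cast; rfl
      _ ≤ ∑ p ∈ T, ((1 + Cl) + Cl * Real.sqrt Cz * B ^ 2 * (1 / h p)) := Finset.sum_le_sum hfib
      _ = (1 + Cl) * (T.card : ℝ) + Cl * Real.sqrt Cz * B ^ 2 * ∑ p ∈ T, 1 / h p := by
          rw [Finset.sum_add_distrib, ← Finset.mul_sum, Finset.sum_const, nsmul_eq_mul]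
          ring
      _ ≤ (1 + Cl) * (Cq * (Cs * B) ^ 2) +
          Cl * Real.sqrt Cz * B ^ 2 * ((2 * CL * B ^ ε') * (2 * Cq)) := by
          have : ∑ p ∈ T, 1 / h p ≤ (2 * CL * B ^ ε') * (2 * Cq) := hrec.trans (by gcongr)
          gcongr
      _ ≤ (1 + Cl) * (Cq * (Cs * B) ^ 2) * B ^ ε +
          Cl * Real.sqrt Cz * B ^ 2 * ((2 * CL * B ^ ε) * (2 * Cq)) := by
          have h1 : 0 ≤ (1 + Cl) * (Cq * (Cs * B) ^ 2) := by positivity
          have h2 : 1 ≤ B ^ ε := hBε.trans hBε2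
          have h3 : (1 + Cl) * (Cq * (Cs * B) ^ 2) ≤ (1 + Cl) * (Cq * (Cs * B) ^ 2) * B ^ ε :=
            le_mul_of_one_le_right h1 h2
          gcongr
      _ = Cb * B ^ (2 + ε) := by rw [hB2, hCb]; ring
  calc (S.card : ℝ) = S1.card + S2.card := by rw [hsplit]; push_cast; rfl
    _ ≤ Ca * B ^ (2 + ε) + Cb * B ^ (2 + ε) := add_le_add hS1b hS2b
    _ = _ := by ring

end Pool.V5
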