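import Mathlib
import Pool.Agent.V5.Main

set_option autoImplicit false

/-!
From forms over `K` to integral forms; the final statement.
-/

namespace Pool.V5

open Finset NumberField Pool.Lib18ea5f
open scoped LinearAlgebra.Projectivization

lemma bil_scale {F : Type*} [Field F] (b : F) (m : Fin 5 → Fin 5 → F) (x y : Fin 5 → F) :
    bil (fun i j => b * m i j) x y = b * bil m x y := by
  simp only [bil, Finset.mul_sum]
  exact Finset.sum_congr rfl fun i _ => Finset.sum_congr rfl fun j _ => by ring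

lemma comb_scale {F : Type*} [Field F] (b : F) (ω : Fin 3 → Fin 5 → Fin 5 → F) (a : Fin 3 → F) :
    comb (fun k i j => b * ω k i j) a = fun i j => b * comb ω a i j := by
  funext i j
  simp only [comb, Finset.mul_sum]
  exact Finset.sum_congr rfl fun k _ => by ring

lemma smooth_scale {F : Type*} [Field F] {b : F} (hb : b ≠ 0) {ω : Fin 3 → Fin 5 → Fin 5 → F}
    (h : Smooth ω) : Smooth (fun k i j => b * ω k i j) := by
  intro x y hxy h0 a ha
  obtain ⟨z, hz⟩ := h x y hxy (fun k => by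
    have := h0 k
    rw [bil_scale] at this
    exact (mul_eq_zero.mp this).resolve_left hb) a ha
  refine ⟨z, ?_⟩
  rw [comb_scale, bil_scale, bil_scale]
  exact hz.imp (fun h => mul_ne_zero hb h) (fun h => mul_ne_zero hb h)

lemma onX_scale {F : Type*} [Field F] {b : F} (hb : b ≠ 0) {ω : Fin 3 → Fin 5 → Fin 5 → F}
    {p : Fin 5 × Fin 5 → F} (h : OnX ω p) : OnX (fun k i j => b * ω k i j) p := by
  obtain ⟨x, y, hp, h0⟩ := h
  exact ⟨x, y, hp, fun k => by rw [bil_scale, h0 k, mul_zero]⟩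

theorem final (hsm : Stmt_Smooth) (hnull : Stmt_Null) (hmain : Stmt_Main)
    (K : Type) [Field K] [NumberField K] (ω : Fin 3 → Fin 5 → Fin 5 → K) (hω : IsAlt ω)
    (hs : Smooth (mp (algebraMap K (AlgebraicClosure K)) ω)) (r ε : ℝ) (hr : 0 < r) (hε : 0 < ε) :
    ∃ C : ℝ, ∀ T : ℝ, 1 ≤ T →
      {P : ℙ K (Fin 5 × Fin 5 → K) | OnX ω P.rep ∧ P.mulHeight ^ r ≤ T}.Finite ∧
      ({P : ℙ K (Fin 5 × Fin 5 → K) | OnX ω P.rep ∧ P.mulHeight ^ r ≤ T}.ncard : ℝ) ≤
        C * T ^ (2 / r + ε) := by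
  classical
  -- integral forms
  obtain ⟨b, hb⟩ := IsLocalization.exist_integer_multiples_of_finite (nonZeroDivisors (𝓞 K))
    (fun s : Fin 3 × Fin 5 × Fin 5 => ω s.1 s.2.1 s.2.2)
  choose w hw using hb
  have hb0 : ((b : 𝓞 K) : K) ≠ 0 := by
    have := nonZeroDivisors.coe_ne_zero b
    simpa using this
  set ω' : Fin 3 → Fin 5 → Fin 5 → 𝓞 K := fun k i j => w (k, i, j) with hω'
  have hωK : ∀ k i j, algebraMap (𝓞 K) K (ω' k i j) = ((b : 𝓞 K) : K) * ω k i j := by
    intro k i j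
    have h1 := hw (k, i, j)
    rw [Algebra.smul_def] at h1
    exact h1
  have hinjK : Function.Injective (algebraMap (𝓞 K) K) := FaithfulSMul.algebraMap_injective (𝓞 K) K
  have halt : IsAlt ω' := by
    intro k i
    refine ⟨?_, fun j => ?_⟩
    · apply hinjK
      rw [hωK, (hω k i).1, mul_zero, map_zero]
    · apply hinjK
      rw [map_neg, hωK, hωK, (hω k i).2 j]; ring
  have htoK : toK ω' = fun k i j => ((b : 𝓞 K) : K) * ω k i j := by
    funext k i j
    exact hωK k i j
  set bb : AlgebraicClosure K := algebraMap K (AlgebraicClosure K) ((b : 𝓞 K) : K) with hbb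
  have hbb0 : bb ≠ 0 := by
    rw [hbb, Ne, map_eq_zero]; exact hb0
  have hcl : mp (algebraMap (𝓞 K) (AlgebraicClosure K)) ω' =
      fun k i j => bb * mp (algebraMap K (AlgebraicClosure K)) ω k i j := by
    funext k i j
    show algebraMap (𝓞 K) (AlgebraicClosure K) (ω' k i j) = _
    rw [IsScalarTower.algebraMap_apply (𝓞 K) K (AlgebraicClosure K), hωK, map_mul]
    rfl
  have hsm' : Smooth (mp (algebraMap (𝓞 K) (AlgebraicClosure K)) ω') := by
    rw [hcl]; exact smooth_scale hbb0 hs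
  obtain ⟨h1, h2⟩ := hsm (AlgebraicClosure K) _ (halt.map _) hsm'
  obtain ⟨M, Δ, hN⟩ := hnull K ω' h1 h2
  obtain ⟨C, hC, hcount⟩ := hmain K ω' M Δ halt hN (r * ε) (by positivity)
  refine ⟨C, fun T hT => ?_⟩
  have hT0 : 0 < T := by linarith
  set S0 := {P : ℙ K (Fin 5 × Fin 5 → K) | OnX ω P.rep ∧ P.mulHeight ^ r ≤ T} with hS0
  have hB1 : 1 ≤ T ^ (1 / r) := Real.one_le_rpow hT (by positivity)
  have hfinS : ∀ S : Finset (ℙ K (Fin 5 × Fin 5 → K)), (∀ P ∈ S, P ∈ S0) →
      (S.card : ℝ) ≤ C * T ^ (2 / r + ε) := by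
    intro S hS
    have h3 := hcount (T ^ (1 / r)) hB1 S (fun P hP => by
      obtain ⟨hX, hH⟩ := hS P hP
      refine ⟨?_, ?_⟩
      · rw [htoK]; exact onX_scale hb0 hX
      · have hp : 0 ≤ P.mulHeight := by
          rw [mulHeight_rep]; exact (Height.mulHeight_pos _).le
        have h4 : (P.mulHeight ^ r) ^ (1 / r) ≤ T ^ (1 / r) :=
          Real.rpow_le_rpow (Real.rpow_nonneg hp _) hH (by positivity)
        rwa [← Real.rpow_mul hp, mul_one_div, div_self hr.ne', Real.rpow_one] at h4)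
    refine h3.trans (le_of_eq ?_)
    rw [← Real.rpow_mul hT0.le]
    congr 2
    field_simp
  have hfinite : S0.Finite := by
    by_contra hinf
    obtain ⟨n, hn⟩ := exists_nat_gt (C * T ^ (2 / r + ε))
    obtain ⟨S, hSsub, hScard⟩ := Set.Infinite.exists_subset_card_eq hinf n
    have := hfinS S (fun P hP => hSsub hP)
    rw [hScard] at this
    linarith
  refine ⟨hfinite, ?_⟩
  rw [Set.ncard_eq_toFinset_card _ hfinite]
  exact hfinS _ (fun P hP => (Set.Finite.mem_toFinset hfinite).mp hP)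

end Pool.V5
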