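import Mathlib
import Pool.Agent.V5.Stmts

set_option autoImplicit false

/-!
# Module IDEALS: the sum of the reciprocals of the norms of the ideals
-/

namespace Pool.V5.Ideals

open Finset NumberField Filter Topology Pool.Lib18ea5f

lemma card_ideals_le (K : Type) [Field K] [NumberField K] :
    ∃ C : ℝ, 1 ≤ C ∧ ∀ X : ℝ, 1 ≤ X → ∀ S : Finset (Ideal (𝓞 K)),
      (∀ g ∈ S, (Ideal.absNorm g : ℝ) ≤ X) → (S.card : ℝ) ≤ C * X := by
  classical
  have ht := NumberField.Ideal.tendsto_norm_le_div_atTop K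
  set L : ℝ := (2 ^ InfinitePlace.nrRealPlaces K * (2 * Real.pi) ^ InfinitePlace.nrComplexPlaces K *
    Units.regulator K * classNumber K) / (Units.torsionOrder K * Real.sqrt |discr K|) with hL
  have hev : ∀ᶠ s : ℝ in atTop,
      (Nat.card {I : Ideal (𝓞 K) // (Ideal.absNorm I : ℝ) ≤ s} : ℝ) / s ≤ L + 1 :=
    ht.eventually_le_const (by linarith)
  obtain ⟨s0, hs0⟩ := eventually_atTop.mp hev
  set s1 : ℝ := max s0 1 with hs1
  have hfin : ∀ s : ℝ, {I : Ideal (𝓞 K) | (Ideal.absNorm I : ℝ) ≤ s}.Finite := by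
    intro s
    refine (Ideal.finite_setOfPred_absNorm_le (S := 𝓞 K) ⌊s⌋₊).subset fun I hI => ?_
    exact Nat.le_floor hI
  have hcard : ∀ s : ℝ, ∀ S : Finset (Ideal (𝓞 K)),
      (∀ g ∈ S, (Ideal.absNorm g : ℝ) ≤ s) →
      S.card ≤ Nat.card {I : Ideal (𝓞 K) // (Ideal.absNorm I : ℝ) ≤ s} := by
    intro s S hS
    have hf : Finite {I : Ideal (𝓞 K) // (Ideal.absNorm I : ℝ) ≤ s} := (hfin s).to_subtype
    have : S.card = Nat.card {I : Ideal (𝓞 K) // I ∈ S} := by simp
    rw [this]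
    exact Nat.card_le_card_of_injective (fun I => (⟨I.1, hS I.1 I.2⟩ :
      {I : Ideal (𝓞 K) // (Ideal.absNorm I : ℝ) ≤ s})) (fun a b h =>
        Subtype.ext (Subtype.mk.inj h))
  have hbig : ∀ s : ℝ, s1 ≤ s → ∀ S : Finset (Ideal (𝓞 K)),
      (∀ g ∈ S, (Ideal.absNorm g : ℝ) ≤ s) → (S.card : ℝ) ≤ (L + 1) * s := by
    intro s hs S hS
    have hs1' : 1 ≤ s := (le_max_right _ _).trans hs
    have h1 := hs0 s ((le_max_left _ _).trans hs)
    rw [div_le_iff₀ (by linarith)] at h1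
    exact le_trans (by exact_mod_cast hcard s S hS) h1
  have hs11 : 1 ≤ s1 := le_max_right _ _
  have hL0 : 0 ≤ L + 1 := by
    have := hbig s1 le_rfl ∅ (by simp)
    simp only [Finset.card_empty, Nat.cast_zero] at this
    by_contra h
    push Not at h
    nlinarith
  refine ⟨max 1 ((L + 1) * s1), le_max_left _ _, fun X hX S hS => ?_⟩
  have hX' : s1 ≤ s1 * X := by nlinarith
  have h2 := hbig (s1 * X) hX' S (fun g hg => (hS g hg).trans (by nlinarith))
  refine h2.trans ?_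
  calc (L + 1) * (s1 * X) = ((L + 1) * s1) * X := by ring
    _ ≤ _ := by gcongr; exact le_max_right _ _

theorem ideals_proof : Stmt_Ideals := by
  intro K _ _ ε hε
  obtain ⟨C1, hC1, hcount⟩ := card_ideals_le K
  obtain ⟨C2, hC2, hlog⟩ := log_pow_le ε hε 1 1 le_rfl
  refine ⟨C2 * (2 * C1), by nlinarith, fun G hG S hS => ?_⟩
  have hd := dyadic_recip S (fun g => (Ideal.absNorm g : ℝ)) G (2 * C1)
    (fun g hg => by
      have h1 : Ideal.absNorm g ≠ 0 := by
        rw [Ne, Ideal.absNorm_eq_zero_iff]; exact (hS g hg).1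
      exact_mod_cast Nat.one_le_iff_ne_zero.mpr h1)
    (fun g hg => (hS g hg).2) hG (by positivity)
    (by
      intro X hX hXG S' _ hS'
      have h1 := hcount (2 * X) (by linarith) S' (fun g hg => (hS' g hg).2)
      refine h1.trans (le_of_eq ?_)
      ring)
  refine hd.trans ?_
  have h3 := hlog G hG
  rw [pow_one, one_mul] at h3
  have h4 : Real.logb 2 G + 1 ≤ C2 * G ^ ε := by linarith
  calc (Real.logb 2 G + 1) * (2 * C1) ≤ (C2 * G ^ ε) * (2 * C1) := by gcongr
    _ = C2 * (2 * C1) * G ^ ε := by ring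

end Pool.V5.Ideals
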