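import Mathlib
import Pool.Agent.V5.Stmts
import Pool.Agent.Lib18ea5f.Cover
import Pool.Agent.Lib18ea5f.Rep
import Pool.Agent.Lib18ea5f.ClassCount

set_option autoImplicit false

/-!
Points of bounded height on a projective line (module LINEN).
-/

namespace Pool.V5

open Finset NumberField Pool.Lib18ea5f
open scoped LinearAlgebra.Projectivization

section alg

variable {R : Type*} [CommRing R] {ι : Type*}

lemma wedge_span (x y : ι → R) (α β : R) (l i j : ι) :
    (α * x l + β * y l) * wedge x y (i, j) =
      (α * x i + β * y i) * wedge x y (l, j) + (α * x j + β * y j) * wedge x y (i, l) := by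
  simp only [wedge]; ring

lemma wedge_comb (x y : ι → R) (α β α' β' : R) (s : ι × ι) :
    (α * x s.1 + β * y s.1) * (α' * x s.2 + β' * y s.2) -
      (α * x s.2 + β * y s.2) * (α' * x s.1 + β' * y s.1) =
      (α * β' - β * α') * wedge x y s := by
  simp only [wedge]; ring

end alg

variable {K : Type*} [Field K] [NumberField K]

lemma v_neg (v : InfinitePlace K) (a : K) : v (-a) = v a := by
  rw [← v.norm_embedding_eq, ← v.norm_embedding_eq, map_neg, norm_neg]

lemma v_add_le (v : InfinitePlace K) (a b : K) : v (a + b) ≤ v a + v b := by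
  rw [← v.norm_embedding_eq, ← v.norm_embedding_eq, ← v.norm_embedding_eq, map_add]
  exact norm_add_le _ _

lemma cI_wedge {ι : Type*} (p q : ι → 𝓞 K) : cI p * cI q ∣ cI (wedge p q) := by
  rw [Ideal.dvd_iff_le]
  unfold cI
  rw [Ideal.span_le]
  rintro _ ⟨s, rfl⟩
  refine Ideal.sub_mem _ ?_ ?_
  · exact Ideal.mul_mem_mul (mem_cI p _) (mem_cI q _)
  · exact Ideal.mul_mem_mul (mem_cI p _) (mem_cI q _)

/-- Points on a line. -/
theorem span_line_count {α ι : Type*} [Finite ι] {x y : ι → K} (hw : wedge x y ≠ 0)
    (S : Finset α) (p : α → ι → 𝓞 K) (hp : ∀ a ∈ S, p a ≠ 0)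
    (hspan : ∀ a ∈ S, ∃ α β : K, ∀ i, (p a i : K) = α * x i + β * y i)
    (hne : ∀ a ∈ S, ∀ b ∈ S, a ≠ b → wedge (p a) (p b) ≠ 0)
    (B : ℝ) (hB : 1 ≤ B) (hht : ∀ a ∈ S, ht (p a) ≤ B) :
    (S.card : ℝ) ≤ 2 ^ Fintype.card (InfinitePlace K) * 24 ^ Module.finrank ℚ K *
      (1 + B ^ 2 / Height.mulHeight (wedge x y)) := by
  classical
  set d := Module.finrank ℚ K with hd
  set r := Fintype.card (InfinitePlace K) with hr
  have hHw : 0 < Height.mulHeight (wedge x y) := Height.mulHeight_pos _
  have hnei : Nonempty ι := by
    obtain ⟨s, _⟩ := Function.ne_iff.mp hw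
    exact ⟨s.1⟩
  -- the largest coordinate of `w` at `v`
  have hmaxw : ∀ v : InfinitePlace K, ∃ s : ι × ι, ∀ t, v (wedge x y t) ≤ v (wedge x y s) := by
    intro v
    exact Finite.exists_max fun s => v (wedge x y s)
  choose s hs using hmaxw
  have hsp : ∀ v : InfinitePlace K, 0 < v (wedge x y (s v)) := by
    intro v
    obtain ⟨t, ht'⟩ := Function.ne_iff.mp hw
    exact lt_of_lt_of_le (InfinitePlace.pos_iff.mpr (by simpa using ht')) (hs v t)
  -- numerators and denominators of the charts
  let den : (InfinitePlace K → Bool) → InfinitePlace K → ι :=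
    fun b v => if b v then (s v).1 else (s v).2
  let num : (InfinitePlace K → Bool) → InfinitePlace K → ι :=
    fun b v => if b v then (s v).2 else (s v).1
  let ch : α → InfinitePlace K → Bool :=
    fun a v => decide (v (p a (s v).2 : K) ≤ v (p a (s v).1 : K))
  have hnumden : ∀ (a : α) (v : InfinitePlace K), v (p a (num (ch a) v) : K) ≤ v (p a (den (ch a) v) : K) := by
    intro a v
    by_cases h : v (p a (s v).2 : K) ≤ v (p a (s v).1 : K)
    · have : ch a v = true := decide_eq_true h
      simp only [num, den, this, if_true]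
      exact h
    · have : ch a v = false := decide_eq_false h
      simp only [num, den, this]
      exact (not_le.mp h).le
  have hden : ∀ a ∈ S, ∀ v : InfinitePlace K, nv v (p a) ≤ 2 * v (p a (den (ch a) v) : K) := by
    intro a ha v
    apply nv_le
    intro l
    obtain ⟨α, β, hab⟩ := hspan a ha
    have h1 := wedge_span x y α β l (s v).1 (s v).2
    rw [← hab, ← hab, ← hab] at h1
    have h2 : v (p a l : K) * v (wedge x y (s v)) ≤
        (v (p a (s v).1 : K) + v (p a (s v).2 : K)) * v (wedge x y (s v)) := by
      rw [← map_mul, show wedge x y (s v) = wedge x y ((s v).1, (s v).2) from rfl, h1]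
      refine (v_add_le v _ _).trans ?_
      rw [map_mul, map_mul, add_mul]
      exact add_le_add (mul_le_mul_of_nonneg_left (hs v _) (apply_nonneg _ _))
        (mul_le_mul_of_nonneg_left (hs v _) (apply_nonneg _ _))
    have h3 := le_of_mul_le_mul_right h2 (hsp v)
    refine h3.trans ?_
    by_cases h : v (p a (s v).2 : K) ≤ v (p a (s v).1 : K)
    · have : ch a v = true := decide_eq_true h
      simp only [den, this, if_true]
      linarith
    · have : ch a v = false := decide_eq_false h
      simp only [den, this]
      have := not_le.mp h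
      simp only [Bool.false_eq_true, if_false]
      linarith
  have hdpos : ∀ a ∈ S, ∀ v : InfinitePlace K, 0 < v (p a (den (ch a) v) : K) := by
    intro a ha v
    have := nv_pos v (hp a ha)
    have := hden a ha v
    linarith
  have hcardS := Finset.card_eq_sum_card_fiberwise (f := ch) (s := S)
    (t := (Finset.univ : Finset (InfinitePlace K → Bool))) (fun _ _ => Finset.mem_univ _)
  have hfib : ∀ b ∈ (Finset.univ : Finset (InfinitePlace K → Bool)),
      (((S.filter fun a => ch a = b).card : ℕ) : ℝ) ≤
        24 ^ d * (1 + B ^ 2 / Height.mulHeight (wedge x y)) := by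
    intro b _
    let t : α → InfinitePlace K → ℂ := fun a v =>
      v.embedding ((p a (num b v) : K) / (p a (den b v) : K))
    have him : ∀ v : InfinitePlace K, v.mult = 1 → ∀ a, (t a v).im = 0 := by
      intro v h a
      have hrr : v.IsReal := by
        by_contra hc
        have : v.mult = 2 := by simp [InfinitePlace.mult, hc]
        omega
      have h2 := InfinitePlace.isReal_iff.mp hrr
      have h3 := RingHom.congr_fun h2 ((p a (num b v) : K) / (p a (den b v) : K))
      rw [ComplexEmbedding.conjugate_coe_eq] at h3
      exact Complex.conj_eq_iff_im.mp h3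
    have hmem : ∀ a ∈ S.filter (fun a => ch a = b), a ∈ S ∧ ch a = b := fun a ha =>
      Finset.mem_filter.mp ha
    have htle : ∀ a ∈ S.filter (fun a => ch a = b), ∀ v, ‖t a v‖ ≤ 1 := by
      intro a ha v
      obtain ⟨haS, rfl⟩ := hmem a ha
      simp only [t]
      rw [InfinitePlace.norm_embedding_eq, map_div₀]
      exact div_le_one_of_le₀ (hnumden a v) (apply_nonneg _ _)
    -- the distance formula
    have hdist : ∀ a ∈ S.filter (fun a => ch a = b), ∀ c ∈ S.filter (fun a => ch a = b), ∀ v,
        ‖t a v - t c v‖ = nv v (wedge (p a) (p c)) /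
          (v (p a (den b v) : K) * v (p c (den b v) : K)) := by
      intro a ha c hc v
      obtain ⟨haS, hab⟩ := hmem a ha
      obtain ⟨hcS, hcb⟩ := hmem c hc
      have pa : 0 < v (p a (den b v) : K) := by rw [← hab]; exact hdpos a haS v
      have pc : 0 < v (p c (den b v) : K) := by rw [← hcb]; exact hdpos c hcS v
      have ha0 : (p a (den b v) : K) ≠ 0 := InfinitePlace.pos_iff.mp pa
      have hc0 : (p c (den b v) : K) ≠ 0 := InfinitePlace.pos_iff.mp pc
      have hnvw : nv v (wedge (p a) (p c)) = v ((wedge (p a) (p c) (s v) : 𝓞 K) : K) := by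
        apply le_antisymm _ (le_nv v _ _)
        apply nv_le
        intro l
        obtain ⟨α, β, h1⟩ := hspan a haS
        obtain ⟨α', β', h2⟩ := hspan c hcS
        have h3 : ∀ u : ι × ι, ((wedge (p a) (p c) u : 𝓞 K) : K) =
            (α * β' - β * α') * wedge x y u := by
          intro u
          rw [← wedge_comb x y α β α' β' u, ← h1, ← h1, ← h2, ← h2]
          simp [wedge]
        rw [h3, h3, map_mul, map_mul]
        exact mul_le_mul_of_nonneg_left (hs v _) (apply_nonneg _ _)
      rw [hnvw]
      simp only [t]
      rw [← map_sub, InfinitePlace.norm_embedding_eq, ← map_mul v, ← map_div₀ v]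
      have hw1 : ((wedge (p a) (p c) (s v) : 𝓞 K) : K) =
          (p a (s v).1 : K) * (p c (s v).2 : K) - (p a (s v).2 : K) * (p c (s v).1 : K) := by
        simp [wedge]
      by_cases hb : b v = true
      · have e1 : num b v = (s v).2 := by simp [num, hb]
        have e2 : den b v = (s v).1 := by simp [den, hb]
        rw [e2] at ha0 hc0
        rw [e1, e2, hw1]
        have e : (p a (s v).2 : K) / (p a (s v).1 : K) - (p c (s v).2 : K) / (p c (s v).1 : K) =
            -(((p a (s v).1 : K) * (p c (s v).2 : K) - (p a (s v).2 : K) * (p c (s v).1 : K)) /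
              ((p a (s v).1 : K) * (p c (s v).1 : K))) := by
          field_simp
          ring
        rw [e, v_neg]
      · have e1 : num b v = (s v).1 := by simp [num, hb]
        have e2 : den b v = (s v).2 := by simp [den, hb]
        rw [e2] at ha0 hc0
        rw [e1, e2, hw1]
        congr 1
        field_simp
    have hcov := cover (α := α) (ι := InfinitePlace K) (fun v => v.mult) mult_cases inferInstance
      (S.filter fun a => ch a = b) t him
      (fun _ => 2) (fun v => by norm_num)
      (fun a ha c hc v => by
        have h1 := htle a ha v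
        have h2 := htle c hc v
        have h3 := norm_sub_le (t a v) (t c v)
        linarith)
      (Height.mulHeight (wedge x y) / B ^ 2) (by positivity)
      (fun a ha c hc hac => by
        obtain ⟨haS, hab⟩ := hmem a ha
        obtain ⟨hcS, hcb⟩ := hmem c hc
        have hne' := hne a haS c hcS hac
        have hprod : (infN (wedge (p a) (p c))) / (infN (p a) * infN (p c)) ≤
            ∏ v : InfinitePlace K, ‖t a v - t c v‖ ^ v.mult := by
          unfold infN
          rw [← Finset.prod_mul_distrib, ← Finset.prod_div_distrib]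
          refine Finset.prod_le_prod (fun v _ => ?_) fun v _ => ?_
          · have := nv_nonneg v (wedge (p a) (p c))
            have := nv_nonneg v (p a)
            have := nv_nonneg v (p c)
            positivity
          · rw [hdist a ha c hc v, ← mul_pow, ← div_pow]
            have pa : 0 < v (p a (den b v) : K) := by rw [← hab]; exact hdpos a haS v
            have pc : 0 < v (p c (den b v) : K) := by rw [← hcb]; exact hdpos c hcS v
            have h3 := le_nv v (p a) (den b v)
            have h4 := le_nv v (p c) (den b v)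
            have h5 := nv_nonneg v (wedge (p a) (p c))
            have h6 := nv_nonneg v (p a)
            have h7 := nv_nonneg v (p c)
            gcongr
        refine le_trans ?_ hprod
        -- the height of the wedge product
        have hhw : ht (wedge (p a) (p c)) = Height.mulHeight (wedge x y) := by
          obtain ⟨α, β, h1⟩ := hspan a haS
          obtain ⟨α', β', h2⟩ := hspan c hcS
          have h3 : (fun u => ((wedge (p a) (p c) u : 𝓞 K) : K)) =
              (α * β' - β * α') • wedge x y := by
            funext u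
            simp only [Pi.smul_apply, smul_eq_mul]
            rw [← wedge_comb x y α β α' β' u, ← h1, ← h1, ← h2, ← h2]
            simp [wedge]
          have h4 : (α * β' - β * α') ≠ 0 := by
            intro h
            rw [h, zero_smul] at h3
            exact coe_ne_zero hne' h3
          unfold ht
          rw [h3, Height.mulHeight_smul_eq_mulHeight _ h4]
        rw [← ht_mul_absNorm hne', ← ht_mul_absNorm (hp a haS), ← ht_mul_absNorm (hp c hcS), hhw]
        have ca := absNorm_pos (cI_ne_bot (hp a haS))
        have cc := absNorm_pos (cI_ne_bot (hp c hcS))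
        have cw := absNorm_pos (cI_ne_bot hne')
        have pa := ht_pos (p a)
        have pc := ht_pos (p c)
        have hab' : ht (p a) * ht (p c) ≤ B ^ 2 := by
          rw [sq]
          exact mul_le_mul (hht a haS) (hht c hcS) pc.le (by linarith)
        have hN : (Ideal.absNorm (cI (p a)) : ℝ) * Ideal.absNorm (cI (p c)) ≤
            Ideal.absNorm (cI (wedge (p a) (p c))) := by
          have h1 := map_dvd Ideal.absNorm (cI_wedge (p a) (p c))
          rw [map_mul] at h1
          have h2 := Nat.le_of_dvd (by exact_mod_cast cw) h1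
          exact_mod_cast h2
        rw [div_le_div_iff₀ (by positivity) (by positivity)]
        calc Height.mulHeight (wedge x y) * (ht (p a) * (Ideal.absNorm (cI (p a)) : ℝ) *
              (ht (p c) * (Ideal.absNorm (cI (p c)) : ℝ)))
            = (Height.mulHeight (wedge x y) *
                ((Ideal.absNorm (cI (p a)) : ℝ) * Ideal.absNorm (cI (p c)))) *
              (ht (p a) * ht (p c)) := by ring
          _ ≤ (Height.mulHeight (wedge x y) * (Ideal.absNorm (cI (wedge (p a) (p c))) : ℝ)) *
                B ^ 2 := by gcongr)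
    rw [InfinitePlace.sum_mult_eq] at hcov
    rw [prod_const_mult] at hcov
    refine hcov.trans ?_
    rw [← hd]
    have e3 : (24 : ℝ) ^ d = 12 ^ d * 2 ^ d := by rw [← mul_pow]; norm_num
    rw [e3, mul_assoc]
    gcongr
    have e2 : (2 : ℝ) ^ d / (Height.mulHeight (wedge x y) / B ^ 2) =
        2 ^ d * (B ^ 2 / Height.mulHeight (wedge x y)) := by
      field_simp
    rw [e2]
    have h3 : (1 : ℝ) ≤ 2 ^ d := one_le_pow₀ (by norm_num)
    nlinarith
  calc (S.card : ℝ) = ∑ b ∈ (Finset.univ : Finset (InfinitePlace K → Bool)),
        (((S.filter fun a => ch a = b).card : ℕ) : ℝ) := by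
        rw [hcardS]; push_cast; rfl
    _ ≤ ∑ b ∈ (Finset.univ : Finset (InfinitePlace K → Bool)),
        24 ^ d * (1 + B ^ 2 / Height.mulHeight (wedge x y)) := Finset.sum_le_sum hfib
    _ = 2 ^ r * 24 ^ d * (1 + B ^ 2 / Height.mulHeight (wedge x y)) := by
        rw [Finset.sum_const, nsmul_eq_mul, Finset.card_univ, Fintype.card_fun, Fintype.card_bool]
        push_cast
        rw [← hr]; ring

theorem LineN_proof : Stmt_LineN := by
  classical
  intro K _ _ ι _
  refine ⟨2 ^ Fintype.card (InfinitePlace K) * 24 ^ Module.finrank ℚ K, ?_, ?_⟩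
  · have h1 : (1 : ℝ) ≤ 2 ^ Fintype.card (InfinitePlace K) := one_le_pow₀ (by norm_num)
    have h2 : (1 : ℝ) ≤ 24 ^ Module.finrank ℚ K := one_le_pow₀ (by norm_num)
    nlinarith
  intro x y hw S B hB hS
  have hrep : ∀ P : ℙ K (ι → K), ∃ z : ι → 𝓞 K, z ≠ 0 ∧ ∃ c : K, c ≠ 0 ∧
      (fun i => (z i : K)) = c • P.rep := fun P => exists_int_rep P.rep_nonzero
  choose p hp0 c hc0 hpc using hrep
  refine span_line_count hw S p (fun P _ => hp0 P) ?_ ?_ B hB ?_
  · intro P hP
    obtain ⟨⟨α, β, hab⟩, _⟩ := hS P hP
    refine ⟨c P * α, c P * β, fun i => ?_⟩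
    have h1 := congrFun (hpc P) i
    rw [hab] at h1
    simp only [Pi.smul_apply, Pi.add_apply, smul_eq_mul] at h1
    rw [h1]
    ring
  · intro P _ Q _ hPQ h0
    apply hPQ
    have hK : ∀ i j, P.rep i * Q.rep j = P.rep j * Q.rep i := by
      intro i j
      have h1 : ((wedge (p P) (p Q) (i, j) : 𝓞 K) : K) = 0 := by rw [h0]; simp
      have h2 : ((wedge (p P) (p Q) (i, j) : 𝓞 K) : K) =
          (p P i : K) * (p Q j : K) - (p P j : K) * (p Q i : K) := by simp [wedge]
      rw [h2] at h1
      have a0 := congrFun (hpc P) i
      have a1 := congrFun (hpc P) j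
      have b0 := congrFun (hpc Q) i
      have b1 := congrFun (hpc Q) j
      simp only [Pi.smul_apply, smul_eq_mul] at a0 a1 b0 b1
      rw [a0, a1, b0, b1] at h1
      have h3 : (c P * c Q) * (P.rep i * Q.rep j - P.rep j * Q.rep i) = 0 := by
        linear_combination h1
      have h4 := (mul_eq_zero.mp h3).resolve_left (mul_ne_zero (hc0 P) (hc0 Q))
      linear_combination h4
    rw [← P.mk_rep, ← Q.mk_rep]
    rw [Projectivization.mk_eq_mk_iff']
    obtain ⟨j, hj⟩ := Function.ne_iff.mp Q.rep_nonzero
    simp only [Pi.zero_apply] at hj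
    refine ⟨P.rep j / Q.rep j, ?_⟩
    funext i
    simp only [Pi.smul_apply, smul_eq_mul]
    rw [div_mul_eq_mul_div, div_eq_iff hj]
    exact hK j i
  · intro P hP
    have h := Projectivization.mulHeight_mk (K := K) P.rep_nonzero
    rw [Projectivization.mk_rep] at h
    unfold ht
    rw [hpc P, Height.mulHeight_smul_eq_mulHeight _ (hc0 P), ← h]
    exact (hS P hP).2

end Pool.V5
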