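import Mathlib
import Pool.Agent.V5.Stmts
import Pool.Agent.Lib18ea5f.Null

set_option autoImplicit false

/-!
Nullstellensatz data for a net of alternating forms (module NULL).
-/

namespace Pool.V5

open Finset NumberField Pool.Lib18ea5f MvPolynomial

attribute [local instance] MvPolynomial.algebraMvPolynomial in
/-- Nullstellensatz with integral coefficients. -/
theorem int_null {K : Type*} [Field K] [NumberField K] {σ ι' : Type*} [Finite σ] [Fintype ι']
    (p : ι' → MvPolynomial σ (𝓞 K))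
    (h0 : ∀ x : σ → AlgebraicClosure K, (∀ j, aeval x (p j) = 0) → x = 0) :
    ∃ (M : ℕ) (Δ : 𝓞 K), Δ ≠ 0 ∧ ∀ k : σ, ∃ c : ι' → MvPolynomial σ (𝓞 K),
      ∑ j, c j * p j = C Δ * (X k : MvPolynomial σ (𝓞 K)) ^ M := by
  classical
  cases nonempty_fintype σ
  set φ : MvPolynomial σ (𝓞 K) →+* MvPolynomial σ K := MvPolynomial.map (algebraMap (𝓞 K) K)
    with hφ
  have hφi : Function.Injective φ :=
    MvPolynomial.map_injective _ (FaithfulSMul.algebraMap_injective (𝓞 K) K)
  set I : Ideal (MvPolynomial σ K) := Ideal.span (Set.range fun j => φ (p j)) with hI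
  have hzl : ∀ x ∈ zeroLocus (AlgebraicClosure K) I, x = 0 := by
    intro x hx
    apply h0
    intro j
    have h1 := hx (φ (p j)) (Ideal.subset_span ⟨j, rfl⟩)
    rw [← h1, hφ, aeval_map_algebraMap]
  have hrad : ∀ k : σ, (X k : MvPolynomial σ K) ∈ I.radical := by
    intro k
    rw [← vanishingIdeal_zeroLocus_eq_radical (K := AlgebraicClosure K) I]
    intro x hx
    rw [hzl x hx]
    simp
  choose n hn using fun k => hrad k
  set M : ℕ := ∑ k, n k with hM
  have hX : ∀ k : σ, (X k : MvPolynomial σ K) ^ M ∈ I := by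
    intro k
    have hle : n k ≤ M := Finset.single_le_sum (fun _ _ => Nat.zero_le _) (Finset.mem_univ k)
    exact Ideal.pow_mem_of_pow_mem I (hn k) hle
  have hex : ∀ k : σ, ∃ c : ι' → MvPolynomial σ K,
      ∑ j, c j * φ (p j) = (X k : MvPolynomial σ K) ^ M := by
    intro k
    have := hX k
    rw [hI, Ideal.mem_span_range_iff_exists_fun] at this
    exact this
  choose c hc using hex
  -- clear denominators
  obtain ⟨b, hb⟩ := IsLocalization.exist_integer_multiples
    ((nonZeroDivisors (𝓞 K)).map (MvPolynomial.C (σ := σ)))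
    (S := MvPolynomial σ K) (Finset.univ : Finset (σ × ι')) (fun s => c s.1 s.2)
  obtain ⟨b', hb', hbb⟩ := b.2
  have hint : ∀ s : σ × ι', ∃ e : MvPolynomial σ (𝓞 K),
      φ e = C (algebraMap (𝓞 K) K b') * c s.1 s.2 := by
    intro s
    obtain ⟨e, he⟩ := hb s (Finset.mem_univ s)
    refine ⟨e, ?_⟩
    have h2 : (b : MvPolynomial σ (𝓞 K)) = C b' := hbb.symm
    have h3 : φ e = algebraMap (MvPolynomial σ (𝓞 K)) (MvPolynomial σ K) e := rfl
    have h5 : (C b' : MvPolynomial σ (𝓞 K)) • c s.1 s.2 = φ (C b') * c s.1 s.2 :=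
      Algebra.smul_def _ _
    have h6 : φ (C b') = C (algebraMap (𝓞 K) K b') := by rw [hφ, map_C]
    rw [h3, he, h2, h5, h6]
  choose e he using hint
  refine ⟨M, b', nonZeroDivisors.ne_zero hb', fun k => ⟨fun j => e (k, j), ?_⟩⟩
  apply hφi
  rw [map_sum, map_mul, map_pow]
  have h4 : ∀ j, φ (e (k, j) * p j) = C (algebraMap (𝓞 K) K b') * (c k j * φ (p j)) := by
    intro j
    rw [map_mul, he (k, j), mul_assoc]
  rw [Finset.sum_congr rfl fun j _ => h4 j, ← Finset.mul_sum, hc k, hφ, map_C, map_X]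

/-- The previous theorem, with a larger exponent and a multiple of `Δ`, specialised. -/
theorem int_null' {K : Type} [Field K] [NumberField K] {σ ι' : Type} [Finite σ] [Fintype ι']
    (p : ι' → MvPolynomial σ (𝓞 K))
    (h0 : ∀ x : σ → AlgebraicClosure K, (∀ j, aeval x (p j) = 0) → x = 0) :
    ∃ (M : ℕ) (Δ : 𝓞 K), Δ ≠ 0 ∧ ∀ (M' : ℕ) (E : 𝓞 K), M ≤ M' →
      ∀ (A : Type) [CommRing A] (f : 𝓞 K →+* A) (a : σ → A) (k : σ),
        ∃ c : ι' → A, ∑ j, c j * eval₂ f a (p j) = f (Δ * E) * a k ^ M' := by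
  obtain ⟨M, Δ, hΔ, h⟩ := int_null p h0
  refine ⟨M, Δ, hΔ, fun M' E hM A _ f a k => ?_⟩
  obtain ⟨c, hc⟩ := h k
  refine ⟨fun j => f E * a k ^ (M' - M) * eval₂ f a (c j), ?_⟩
  have h1 := congrArg (eval₂ f a) hc
  rw [eval₂_sum, eval₂_mul, eval₂_C, eval₂_pow, eval₂_X] at h1
  have h2 : ∀ j, f E * a k ^ (M' - M) * eval₂ f a (c j) * eval₂ f a (p j) =
      f E * a k ^ (M' - M) * eval₂ f a (c j * p j) := by
    intro j
    rw [eval₂_mul, mul_assoc]
  rw [Finset.sum_congr rfl fun j _ => h2 j, ← Finset.mul_sum, h1, map_mul]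
  have h3 : a k ^ M' = a k ^ (M' - M) * a k ^ M := by
    rw [← pow_add, Nat.sub_add_cancel hM]
  rw [h3]
  ring

section nat

variable {R S : Type*} [CommRing R] [CommRing S]

lemma map_comb (g : R →+* S) (ω : Fin 3 → Fin 5 → Fin 5 → R) (a : Fin 3 → R) (i j : Fin 5) :
    g (comb ω a i j) = comb (mp g ω) (fun k => g (a k)) i j := by
  simp [comb, mp]

lemma map_pf (g : R →+* S) (m : Fin 5 → Fin 5 → R) (j : Fin 5) :
    g (pf m j) = pf (fun i l => g (m i l)) j := by
  fin_cases j <;> simp [pf]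

lemma map_pf_comb (g : R →+* S) (ω : Fin 3 → Fin 5 → Fin 5 → R) (a : Fin 3 → R) (j : Fin 5) :
    g (pf (comb ω a) j) = pf (comb (mp g ω) fun k => g (a k)) j := by
  rw [map_pf]
  congr 1
  funext i l
  exact map_comb g ω a i l

lemma map_av (g : R →+* S) (ω : Fin 3 → Fin 5 → Fin 5 → R) (u : Fin 5 → R) (q : Fin 5 × Fin 5)
    (k : Fin 3) : g (av ω u q k) = av (mp g ω) (fun i => g (u i)) q k := by
  fin_cases k <;> simp [av, cr, col, mp]

lemma mp_mp {T : Type*} (g : R → S) (h : S → T) (ω : Fin 3 → Fin 5 → Fin 5 → R) :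
    mp h (mp g ω) = mp (fun x => h (g x)) ω := rfl

end nat

theorem Null_proof : Stmt_Null := by
  classical
  intro K _ _ ω h1 h2
  -- the polynomials
  set P : Fin 5 → MvPolynomial (Fin 3) (𝓞 K) := fun j => pf (comb (mp C ω) X) j with hP
  set Q : (Fin 5 × Fin 5) × Fin 3 → MvPolynomial (Fin 5) (𝓞 K) :=
    fun s => av (mp C ω) X s.1 s.2 with hQ
  have hPe : ∀ (A : Type) [CommRing A] (f : 𝓞 K →+* A) (a : Fin 3 → A) (j : Fin 5),
      eval₂ f a (P j) = pf (comb (mp f ω) a) j := by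
    intro A _ f a j
    have h3 := map_pf_comb (eval₂Hom f a) (mp C ω) X j
    rw [mp_mp] at h3
    simpa using h3
  have hQe : ∀ (A : Type) [CommRing A] (f : 𝓞 K →+* A) (u : Fin 5 → A)
      (s : (Fin 5 × Fin 5) × Fin 3), eval₂ f u (Q s) = av (mp f ω) u s.1 s.2 := by
    intro A _ f u s
    have h3 := map_av (eval₂Hom f u) (mp C ω) X s.1 s.2
    rw [mp_mp] at h3
    simpa using h3
  have hP0 : ∀ x : Fin 3 → AlgebraicClosure K, (∀ j, aeval x (P j) = 0) → x = 0 := by
    intro x hx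
    by_contra hne
    apply h1 x hne
    funext j
    have h3 := hx j
    rw [aeval_def, hPe] at h3
    exact h3
  have hQ0 : ∀ x : Fin 5 → AlgebraicClosure K, (∀ j, aeval x (Q j) = 0) → x = 0 := by
    intro x hx
    by_contra hne
    obtain ⟨q, hq⟩ := h2 x hne
    apply hq
    funext k
    have h3 := hx (q, k)
    rw [aeval_def, hQe] at h3
    exact h3
  obtain ⟨M1, Δ1, hΔ1, g1⟩ := int_null' P hP0
  obtain ⟨M2, Δ2, hΔ2, g2⟩ := int_null' Q hQ0
  -- height parts
  set PK : Fin 5 → MvPolynomial (Fin 3) K :=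
    fun j => pf (comb (mp C (mp (algebraMap (𝓞 K) K) ω)) X) j with hPK
  set QK : (Fin 5 × Fin 5) × Fin 3 → MvPolynomial (Fin 5) K :=
    fun s => av (mp C (mp (algebraMap (𝓞 K) K) ω)) X s.1 s.2 with hQK
  have hPKe : ∀ (A : Type) [CommRing A] (f : K →+* A) (a : Fin 3 → A) (j : Fin 5),
      eval₂ f a (PK j) = pf (comb (mp (f.comp (algebraMap (𝓞 K) K)) ω) a) j := by
    intro A _ f a j
    have h3 := map_pf_comb (eval₂Hom f a) (mp C (mp (algebraMap (𝓞 K) K) ω)) X j
    rw [mp_mp, mp_mp] at h3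
    simp only [coe_eval₂Hom, eval₂_C, eval₂_X] at h3
    exact h3
  have hQKe : ∀ (A : Type) [CommRing A] (f : K →+* A) (u : Fin 5 → A)
      (s : (Fin 5 × Fin 5) × Fin 3),
      eval₂ f u (QK s) = av (mp (f.comp (algebraMap (𝓞 K) K)) ω) u s.1 s.2 := by
    intro A _ f u s
    have h3 := map_av (eval₂Hom f u) (mp C (mp (algebraMap (𝓞 K) K) ω)) X s.1 s.2
    rw [mp_mp, mp_mp] at h3
    simp only [coe_eval₂Hom, eval₂_C, eval₂_X] at h3
    exact h3
  have hcombh : ∀ i j : Fin 5, (comb (mp C (mp (algebraMap (𝓞 K) K) ω)) X i j :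
      MvPolynomial (Fin 3) K).IsHomogeneous 1 := by
    intro i j
    unfold comb mp
    refine IsHomogeneous.sum _ _ _ fun k _ => ?_
    have := (isHomogeneous_X K k).mul (isHomogeneous_C (Fin 3) (algebraMap (𝓞 K) K (ω k i j)))
    simpa using this
  have hPKh : ∀ j, (PK j).IsHomogeneous 2 := by
    intro j
    have hm : ∀ a b c d : Fin 5, (comb (mp C (mp (algebraMap (𝓞 K) K) ω)) X a b *
        comb (mp C (mp (algebraMap (𝓞 K) K) ω)) X c d :
          MvPolynomial (Fin 3) K).IsHomogeneous 2 := fun a b c d =>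
      (hcombh a b).mul (hcombh c d)
    rw [hPK]
    fin_cases j
    · exact ((hm _ _ _ _).sub (hm _ _ _ _)).add (hm _ _ _ _)
    · exact (((hm _ _ _ _).sub (hm _ _ _ _)).add (hm _ _ _ _)).neg
    · exact ((hm _ _ _ _).sub (hm _ _ _ _)).add (hm _ _ _ _)
    · exact (((hm _ _ _ _).sub (hm _ _ _ _)).add (hm _ _ _ _)).neg
    · exact ((hm _ _ _ _).sub (hm _ _ _ _)).add (hm _ _ _ _)
  have hcolh : ∀ (j : Fin 5) (k : Fin 3),
      (col (mp C (mp (algebraMap (𝓞 K) K) ω)) X j k : MvPolynomial (Fin 5) K).IsHomogeneous 1 := by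
    intro j k
    unfold col mp
    refine IsHomogeneous.sum _ _ _ fun i _ => ?_
    have := (isHomogeneous_C (Fin 5) (algebraMap (𝓞 K) K (ω k i j))).mul (isHomogeneous_X K i)
    simpa using this
  have hQKh : ∀ s, (QK s).IsHomogeneous 2 := by
    rintro ⟨q, k⟩
    have hm : ∀ (a b : Fin 5) (c d : Fin 3),
        (col (mp C (mp (algebraMap (𝓞 K) K) ω)) X a c *
          col (mp C (mp (algebraMap (𝓞 K) K) ω)) X b d :
            MvPolynomial (Fin 5) K).IsHomogeneous 2 := fun a b c d =>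
      (hcolh a c).mul (hcolh b d)
    rw [hQK]
    fin_cases k
    · exact (hm _ _ _ _).sub (hm _ _ _ _)
    · exact (hm _ _ _ _).sub (hm _ _ _ _)
    · exact (hm _ _ _ _).sub (hm _ _ _ _)
  have halg : (algebraMap K (AlgebraicClosure K)).comp (algebraMap (𝓞 K) K) =
      algebraMap (𝓞 K) (AlgebraicClosure K) :=
    (IsScalarTower.algebraMap_eq (𝓞 K) K (AlgebraicClosure K)).symm
  refine ⟨M1 + M2, Δ1 * Δ2, ?_, ?_, ?_, ?_, ?_⟩
  · exact mul_ne_zero hΔ1 hΔ2
  · intro A _ f a k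
    obtain ⟨c, hc⟩ := g1 (M1 + M2) Δ2 (Nat.le_add_right _ _) A f a k
    refine ⟨c, ?_⟩
    rw [← hc]
    exact Finset.sum_congr rfl fun j _ => by rw [hPe]
  · intro A _ f u i
    obtain ⟨c, hc⟩ := g2 (M1 + M2) Δ1 (Nat.le_add_left _ _) A f u i
    refine ⟨fun q k => c (q, k), ?_⟩
    have h5 : ∀ (q : Fin 5 × Fin 5) (k : Fin 3), c (q, k) * av (mp f ω) u q k =
        c (q, k) * eval₂ f u (Q (q, k)) := fun q k => by rw [hQe A f u (q, k)]
    have h6 : ∑ j, c j * eval₂ f u (Q j) =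
        ∑ q : Fin 5 × Fin 5, ∑ k : Fin 3, c (q, k) * eval₂ f u (Q (q, k)) :=
      Fintype.sum_prod_type _
    rw [mul_comm Δ1 Δ2, ← hc, h6]
    simp only [h5]
  · obtain ⟨C, hC, hh⟩ := null_height (K := K) 2 PK hPKh (by
      intro x hx
      by_contra hne
      apply h1 x hne
      funext j
      have h3 := hx j
      rw [aeval_def, hPKe, halg] at h3
      exact h3)
    refine ⟨C, hC, fun a => ?_⟩
    have h3 := hh a
    have h4 : (fun j => (PK j).eval a) = pf (comb (mp (algebraMap (𝓞 K) K) ω) a) := by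
      funext j
      have := hPKe K (RingHom.id K) a j
      rw [RingHom.id_comp] at this
      exact this
    rw [h4] at h3
    exact h3
  · obtain ⟨C, hC, hh⟩ := null_height (K := K) 2 QK hQKh (by
      intro x hx
      by_contra hne
      obtain ⟨q, hq⟩ := h2 x hne
      apply hq
      funext k
      have h3 := hx (q, k)
      rw [aeval_def, hQKe, halg] at h3
      exact h3)
    refine ⟨C, hC, fun u => ?_⟩
    have h3 := hh u
    have h4 : (fun s => (QK s).eval u) = (fun s : (Fin 5 × Fin 5) × Fin 3 =>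
        av (mp (algebraMap (𝓞 K) K) ω) u s.1 s.2) := by
      funext s
      have := hQKe K (RingHom.id K) u s
      rw [RingHom.id_comp] at this
      exact this
    rw [h4] at h3
    exact h3

end Pool.V5
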