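import Mathlib
import Pool.Agent.V5.Stmts

set_option autoImplicit false

/-!
# Module REL: the complementary minors of a `3 × 5` matrix with kernel `⟨u, z⟩`
-/

namespace Pool.V5.Rel

open Finset NumberField Pool.Lib18ea5f

section

variable {K : Type} [Field K]

/-- determinant of three columns -/
def dt (c : Fin 5 → Fin 3 → K) (x y l : Fin 5) : K := dot (cr (c x) (c y)) (c l)

lemma dt_def (c : Fin 5 → Fin 3 → K) (x y l : Fin 5) : dt c x y l =
    (c x 1 * c y 2 - c x 2 * c y 1) * c l 0 + (c x 2 * c y 0 - c x 0 * c y 2) * c l 1 +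
      (c x 0 * c y 1 - c x 1 * c y 0) * c l 2 := by
  simp [dt, dot, cr]

/-- the complementary minors -/
def Ev (c : Fin 5 → Fin 3 → K) : Fin 5 × Fin 5 → K := fun q =>
  match q with
  | (0, 1) => dt c 2 3 4
  | (1, 0) => - dt c 2 3 4
  | (0, 2) => - dt c 1 3 4
  | (2, 0) => - (- dt c 1 3 4)
  | (0, 3) => dt c 4 1 2
  | (3, 0) => - dt c 4 1 2
  | (0, 4) => - dt c 3 1 2
  | (4, 0) => - (- dt c 3 1 2)
  | (1, 2) => dt c 0 3 4
  | (2, 1) => - dt c 0 3 4
  | (1, 3) => dt c 0 4 2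
  | (3, 1) => - dt c 0 4 2
  | (1, 4) => - dt c 0 3 2
  | (4, 1) => - (- dt c 0 3 2)
  | (2, 3) => dt c 0 1 4
  | (3, 2) => - dt c 0 1 4
  | (2, 4) => - dt c 0 1 3
  | (4, 2) => - (- dt c 0 1 3)
  | (3, 4) => dt c 0 1 2
  | (4, 3) => - dt c 0 1 2
  | _ => 0

lemma main (c : Fin 5 → Fin 3 → K) (hD : dt c 0 1 2 ≠ 0) (u z : Fin 5 → K)
    (hu : ∀ k, ∑ j, c j k * u j = 0) (hz : ∀ k, ∑ j, c j k * z j = 0) (q : Fin 5 × Fin 5) :
    pl u z q * dt c 0 1 2 = pl u z (3, 4) * Ev c q := by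
  have hu0 := hu 0
  have hu1 := hu 1
  have hu2 := hu 2
  have hz0 := hz 0
  have hz1 := hz 1
  have hz2 := hz 2
  simp only [Fin.sum_univ_five] at hu0 hu1 hu2 hz0 hz1 hz2
  have e0 : dt c 0 1 2 * u 0 = -(u 3 * dt c 3 1 2 + u 4 * dt c 4 1 2) := by
    simp only [dt_def]
    linear_combination (c 1 1 * c 2 2 - c 1 2 * c 2 1) * hu0 + (c 1 2 * c 2 0 - c 1 0 * c 2 2) * hu1 +
      (c 1 0 * c 2 1 - c 1 1 * c 2 0) * hu2
  have f0 : dt c 0 1 2 * z 0 = -(z 3 * dt c 3 1 2 + z 4 * dt c 4 1 2) := by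
    simp only [dt_def]
    linear_combination (c 1 1 * c 2 2 - c 1 2 * c 2 1) * hz0 + (c 1 2 * c 2 0 - c 1 0 * c 2 2) * hz1 +
      (c 1 0 * c 2 1 - c 1 1 * c 2 0) * hz2
  have e1 : dt c 0 1 2 * u 1 = -(u 3 * dt c 0 3 2 + u 4 * dt c 0 4 2) := by
    simp only [dt_def]
    linear_combination -(c 0 1 * c 2 2 - c 0 2 * c 2 1) * hu0 - (c 0 2 * c 2 0 - c 0 0 * c 2 2) * hu1 -
      (c 0 0 * c 2 1 - c 0 1 * c 2 0) * hu2
  have f1 : dt c 0 1 2 * z 1 = -(z 3 * dt c 0 3 2 + z 4 * dt c 0 4 2) := by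
    simp only [dt_def]
    linear_combination -(c 0 1 * c 2 2 - c 0 2 * c 2 1) * hz0 - (c 0 2 * c 2 0 - c 0 0 * c 2 2) * hz1 -
      (c 0 0 * c 2 1 - c 0 1 * c 2 0) * hz2
  have e2 : dt c 0 1 2 * u 2 = -(u 3 * dt c 0 1 3 + u 4 * dt c 0 1 4) := by
    simp only [dt_def]
    linear_combination (c 0 1 * c 1 2 - c 0 2 * c 1 1) * hu0 + (c 0 2 * c 1 0 - c 0 0 * c 1 2) * hu1 +
      (c 0 0 * c 1 1 - c 0 1 * c 1 0) * hu2
  have f2 : dt c 0 1 2 * z 2 = -(z 3 * dt c 0 1 3 + z 4 * dt c 0 1 4) := by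
    simp only [dt_def]
    linear_combination (c 0 1 * c 1 2 - c 0 2 * c 1 1) * hz0 + (c 0 2 * c 1 0 - c 0 0 * c 1 2) * hz1 +
      (c 0 0 * c 1 1 - c 0 1 * c 1 0) * hz2
  have g12 : dt c 0 1 2 * dt c 0 3 4 = dt c 0 3 2 * dt c 0 1 4 - dt c 0 4 2 * dt c 0 1 3 := by
    simp only [dt_def]; ring
  have g02 : - (dt c 0 1 2 * dt c 1 3 4) = dt c 3 1 2 * dt c 0 1 4 - dt c 4 1 2 * dt c 0 1 3 := by
    simp only [dt_def]; ring
  have g01 : dt c 0 1 2 * dt c 2 3 4 = dt c 3 1 2 * dt c 0 4 2 - dt c 4 1 2 * dt c 0 3 2 := by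
    simp only [dt_def]; ring
  have h01 : pl u z (0, 1) * dt c 0 1 2 = pl u z (3, 4) * dt c 2 3 4 := by
    apply mul_right_cancel₀ hD
    simp only [pl]
    linear_combination (dt c 0 1 2 * z 1) * e0 - (u 3 * dt c 3 1 2 + u 4 * dt c 4 1 2) * f1
      - (dt c 0 1 2 * u 1) * f0 + (z 3 * dt c 3 1 2 + z 4 * dt c 4 1 2) * e1
      - (u 3 * z 4 - u 4 * z 3) * g01
  have h02 : pl u z (0, 2) * dt c 0 1 2 = pl u z (3, 4) * (- dt c 1 3 4) := by
    apply mul_right_cancel₀ hD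
    simp only [pl]
    linear_combination (dt c 0 1 2 * z 2) * e0 - (u 3 * dt c 3 1 2 + u 4 * dt c 4 1 2) * f2
      - (dt c 0 1 2 * u 2) * f0 + (z 3 * dt c 3 1 2 + z 4 * dt c 4 1 2) * e2
      - (u 3 * z 4 - u 4 * z 3) * g02
  have h12 : pl u z (1, 2) * dt c 0 1 2 = pl u z (3, 4) * dt c 0 3 4 := by
    apply mul_right_cancel₀ hD
    simp only [pl]
    linear_combination (dt c 0 1 2 * z 2) * e1 - (u 3 * dt c 0 3 2 + u 4 * dt c 0 4 2) * f2
      - (dt c 0 1 2 * u 2) * f1 + (z 3 * dt c 0 3 2 + z 4 * dt c 0 4 2) * e2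
      - (u 3 * z 4 - u 4 * z 3) * g12
  have h03 : pl u z (0, 3) * dt c 0 1 2 = pl u z (3, 4) * dt c 4 1 2 := by
    simp only [pl]; linear_combination z 3 * e0 - u 3 * f0
  have h04 : pl u z (0, 4) * dt c 0 1 2 = pl u z (3, 4) * (- dt c 3 1 2) := by
    simp only [pl]; linear_combination z 4 * e0 - u 4 * f0
  have h13 : pl u z (1, 3) * dt c 0 1 2 = pl u z (3, 4) * dt c 0 4 2 := by
    simp only [pl]; linear_combination z 3 * e1 - u 3 * f1
  have h14 : pl u z (1, 4) * dt c 0 1 2 = pl u z (3, 4) * (- dt c 0 3 2) := by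
    simp only [pl]; linear_combination z 4 * e1 - u 4 * f1
  have h23 : pl u z (2, 3) * dt c 0 1 2 = pl u z (3, 4) * dt c 0 1 4 := by
    simp only [pl]; linear_combination z 3 * e2 - u 3 * f2
  have h24 : pl u z (2, 4) * dt c 0 1 2 = pl u z (3, 4) * (- dt c 0 1 3) := by
    simp only [pl]; linear_combination z 4 * e2 - u 4 * f2
  have anti : ∀ i j : Fin 5, ∀ X : K, pl u z (i, j) * dt c 0 1 2 = pl u z (3, 4) * X →
      pl u z (j, i) * dt c 0 1 2 = pl u z (3, 4) * (-X) := by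
    intro i j X h
    have : pl u z (j, i) = - pl u z (i, j) := by simp only [pl]; ring
    rw [this]; linear_combination -h
  have diag : ∀ i : Fin 5, pl u z (i, i) * dt c 0 1 2 = pl u z (3, 4) * 0 := by
    intro i
    have : pl u z (i, i) = 0 := by simp only [pl]; ring
    rw [this]; ring
  have h34 : pl u z (3, 4) * dt c 0 1 2 = pl u z (3, 4) * dt c 0 1 2 := rfl
  match q with
  | (0, 0) => exact diag 0
  | (1, 1) => exact diag 1
  | (2, 2) => exact diag 2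
  | (3, 3) => exact diag 3
  | (4, 4) => exact diag 4
  | (0, 1) => exact h01
  | (0, 2) => exact h02
  | (0, 3) => exact h03
  | (0, 4) => exact h04
  | (1, 2) => exact h12
  | (1, 3) => exact h13
  | (1, 4) => exact h14
  | (2, 3) => exact h23
  | (2, 4) => exact h24
  | (3, 4) => exact h34
  | (1, 0) => exact anti 0 1 _ h01
  | (2, 0) => exact anti 0 2 _ h02
  | (3, 0) => exact anti 0 3 _ h03
  | (4, 0) => exact anti 0 4 _ h04
  | (2, 1) => exact anti 1 2 _ h12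
  | (3, 1) => exact anti 1 3 _ h13
  | (4, 1) => exact anti 1 4 _ h14
  | (3, 2) => exact anti 2 3 _ h23
  | (4, 2) => exact anti 2 4 _ h24
  | (4, 3) => exact anti 3 4 _ h34

end

section

variable {K : Type} [Field K]

lemma tri_cases (P : Fin 5 → Fin 5 → Fin 5 → Prop) (hs : ∀ x y l, P x y l → P y x l)
    (ht : ∀ x y l, P x y l → P x l y) (hd : ∀ x l, P x x l)
    (h012 : P 0 1 2) (h013 : P 0 1 3) (h014 : P 0 1 4) (h023 : P 0 2 3) (h024 : P 0 2 4)
    (h034 : P 0 3 4) (h123 : P 1 2 3) (h124 : P 1 2 4) (h134 : P 1 3 4) (h234 : P 2 3 4) :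
    ∀ x y l, P x y l := by
  have key : ∀ x y l : Fin 5, x < y → y < l → P x y l := by
    intro x y l hxy hyl
    fin_cases x <;> fin_cases y <;> fin_cases l <;>
      first
        | assumption
        | (exfalso; revert hxy hyl; decide)
  intro x y l
  rcases lt_trichotomy x y with h1 | h1 | h1
  · rcases lt_trichotomy y l with h2 | h2 | h2
    · exact key _ _ _ h1 h2
    · subst h2; exact hs _ _ _ (ht _ _ _ (hd y x))
    · rcases lt_trichotomy x l with h3 | h3 | h3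
      · exact ht _ _ _ (key _ _ _ h3 h2)
      · subst h3; exact ht _ _ _ (hd x y)
      · exact ht _ _ _ (hs _ _ _ (key _ _ _ h3 h1))
  · subst h1; exact hd _ _
  · rcases lt_trichotomy y l with h2 | h2 | h2
    · rcases lt_trichotomy x l with h3 | h3 | h3
      · exact hs _ _ _ (key _ _ _ h1 h3)
      · subst h3; exact ht _ _ _ (hd x y)
      · exact hs _ _ _ (ht _ _ _ (key _ _ _ h2 h3))
    · subst h2; exact hs _ _ _ (ht _ _ _ (hd y x))
    · exact hs _ _ _ (ht _ _ _ (hs _ _ _ (key _ _ _ h2 h1)))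

lemma dt_swap (c : Fin 5 → Fin 3 → K) (x y l : Fin 5) : dt c y x l = - dt c x y l := by
  simp only [dt_def]; ring

lemma dt_swap' (c : Fin 5 → Fin 3 → K) (x y l : Fin 5) : dt c x l y = - dt c x y l := by
  simp only [dt_def]; ring

lemma dt_self (c : Fin 5 → Fin 3 → K) (x l : Fin 5) : dt c x x l = 0 := by
  simp only [dt_def]; ring

lemma dt_Ev (c : Fin 5 → Fin 3 → K) : ∀ x y l : Fin 5,
    dt c x y l = 0 ∨ ∃ q, dt c x y l = Ev c q ∨ dt c x y l = - Ev c q := by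
  apply tri_cases (fun x y l => dt c x y l = 0 ∨ ∃ q, dt c x y l = Ev c q ∨ dt c x y l = - Ev c q)
  · rintro x y l (h | ⟨q, h | h⟩)
    · left; rw [dt_swap, h, neg_zero]
    · right; refine ⟨q, Or.inr ?_⟩; rw [dt_swap, h]
    · right; refine ⟨q, Or.inl ?_⟩; rw [dt_swap, h, neg_neg]
  · rintro x y l (h | ⟨q, h | h⟩)
    · left; rw [dt_swap', h, neg_zero]
    · right; refine ⟨q, Or.inr ?_⟩; rw [dt_swap', h]
    · right; refine ⟨q, Or.inl ?_⟩; rw [dt_swap', h, neg_neg]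
  · intro x l; left; exact dt_self c x l
  · exact Or.inr ⟨(3, 4), Or.inl rfl⟩
  · exact Or.inr ⟨(2, 4), Or.inr (neg_neg _).symm⟩
  · exact Or.inr ⟨(2, 3), Or.inl rfl⟩
  · exact Or.inr ⟨(1, 4), Or.inl (dt_swap' c 0 3 2)⟩
  · exact Or.inr ⟨(1, 3), Or.inr (dt_swap' c 0 4 2)⟩
  · exact Or.inr ⟨(1, 2), Or.inl rfl⟩
  · refine Or.inr ⟨(0, 4), Or.inr ?_⟩
    show dt c 1 2 3 = - - dt c 3 1 2
    simp only [dt_def]; ring
  · refine Or.inr ⟨(0, 3), Or.inl ?_⟩
    show dt c 1 2 4 = dt c 4 1 2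
    simp only [dt_def]; ring
  · exact Or.inr ⟨(0, 2), Or.inr (neg_neg _).symm⟩
  · exact Or.inr ⟨(0, 1), Or.inl rfl⟩

lemma Ev_dt (c : Fin 5 → Fin 3 → K) (q : Fin 5 × Fin 5) :
    Ev c q = 0 ∨ ∃ x y l, Ev c q = dt c x y l ∨ Ev c q = - dt c x y l := by
  match q with
  | (0, 0) => exact Or.inl rfl
  | (1, 1) => exact Or.inl rfl
  | (2, 2) => exact Or.inl rfl
  | (3, 3) => exact Or.inl rfl
  | (4, 4) => exact Or.inl rfl
  | (0, 1) => exact Or.inr ⟨2, 3, 4, Or.inl rfl⟩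
  | (1, 0) => exact Or.inr ⟨2, 3, 4, Or.inr rfl⟩
  | (0, 2) => exact Or.inr ⟨1, 3, 4, Or.inr rfl⟩
  | (2, 0) => exact Or.inr ⟨1, 3, 4, Or.inl (neg_neg _)⟩
  | (0, 3) => exact Or.inr ⟨4, 1, 2, Or.inl rfl⟩
  | (3, 0) => exact Or.inr ⟨4, 1, 2, Or.inr rfl⟩
  | (0, 4) => exact Or.inr ⟨3, 1, 2, Or.inr rfl⟩
  | (4, 0) => exact Or.inr ⟨3, 1, 2, Or.inl (neg_neg _)⟩
  | (1, 2) => exact Or.inr ⟨0, 3, 4, Or.inl rfl⟩
  | (2, 1) => exact Or.inr ⟨0, 3, 4, Or.inr rfl⟩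
  | (1, 3) => exact Or.inr ⟨0, 4, 2, Or.inl rfl⟩
  | (3, 1) => exact Or.inr ⟨0, 4, 2, Or.inr rfl⟩
  | (1, 4) => exact Or.inr ⟨0, 3, 2, Or.inr rfl⟩
  | (4, 1) => exact Or.inr ⟨0, 3, 2, Or.inl (neg_neg _)⟩
  | (2, 3) => exact Or.inr ⟨0, 1, 4, Or.inl rfl⟩
  | (3, 2) => exact Or.inr ⟨0, 1, 4, Or.inr rfl⟩
  | (2, 4) => exact Or.inr ⟨0, 1, 3, Or.inr rfl⟩
  | (4, 2) => exact Or.inr ⟨0, 1, 3, Or.inl (neg_neg _)⟩
  | (3, 4) => exact Or.inr ⟨0, 1, 2, Or.inl rfl⟩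
  | (4, 3) => exact Or.inr ⟨0, 1, 2, Or.inr rfl⟩

/-- the conclusion, invariant under permutations -/
def Concl (c : Fin 5 → Fin 3 → K) : Prop :=
  ∃ E : Fin 5 × Fin 5 → K,
    (∀ x y l, dt c x y l = 0 ∨ ∃ q, dt c x y l = E q ∨ dt c x y l = - E q) ∧
    (∀ q, E q = 0 ∨ ∃ x y l, E q = dt c x y l ∨ E q = - dt c x y l) ∧
    ∀ u z : Fin 5 → K, (∀ k, ∑ j, c j k * u j = 0) → (∀ k, ∑ j, c j k * z j = 0) →
      ∃ μ : K, pl u z = μ • E

lemma concl_012 (c : Fin 5 → Fin 3 → K) (hD : dt c 0 1 2 ≠ 0) : Concl c := by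
  refine ⟨Ev c, dt_Ev c, Ev_dt c, fun u z hu hz => ⟨pl u z (3, 4) / dt c 0 1 2, ?_⟩⟩
  funext q
  have h := main c hD u z hu hz q
  rw [Pi.smul_apply, smul_eq_mul, div_mul_eq_mul_div, eq_div_iff hD]
  exact h

lemma concl_perm (c : Fin 5 → Fin 3 → K) (σ : Equiv.Perm (Fin 5))
    (h : Concl (fun j => c (σ j))) : Concl c := by
  obtain ⟨E, h1, h2, h3⟩ := h
  refine ⟨fun q => E (σ.symm q.1, σ.symm q.2), ?_, ?_, ?_⟩
  · intro x y l
    rcases h1 (σ.symm x) (σ.symm y) (σ.symm l) with h | ⟨q, h⟩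
    · left; simpa [dt] using h
    · right
      refine ⟨(σ q.1, σ q.2), ?_⟩
      simpa [dt] using h
  · intro q
    rcases h2 (σ.symm q.1, σ.symm q.2) with h | ⟨x, y, l, h⟩
    · left; exact h
    · right
      exact ⟨σ x, σ y, σ l, h⟩
  · intro u z hu hz
    obtain ⟨μ, hμ⟩ := h3 (fun j => u (σ j)) (fun j => z (σ j))
      (fun k => by
        rw [← hu k]
        exact Equiv.sum_comp σ (fun j => c j k * u j))
      (fun k => by
        rw [← hz k]
        exact Equiv.sum_comp σ (fun j => c j k * z j))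
    refine ⟨μ, ?_⟩
    funext q
    have h := congrFun hμ (σ.symm q.1, σ.symm q.2)
    simp only [pl, Equiv.apply_symm_apply, Pi.smul_apply, smul_eq_mul] at h ⊢
    exact h

lemma exists_perm (i j l : Fin 5) (hij : i ≠ j) (hjl : j ≠ l) (hil : i ≠ l) :
    ∃ σ : Equiv.Perm (Fin 5), σ 0 = i ∧ σ 1 = j ∧ σ 2 = l := by
  set s1 : Equiv.Perm (Fin 5) := Equiv.swap 0 i with hs1
  set j' := s1.symm j with hj'
  have hj0 : j' ≠ 0 := by
    intro h
    apply hij
    have : s1 0 = j := by rw [← h, hj', Equiv.apply_symm_apply]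
    rw [← this, hs1, Equiv.swap_apply_left]
  set s2 : Equiv.Perm (Fin 5) := Equiv.swap 1 j' with hs2
  have h20 : s2 0 = 0 := Equiv.swap_apply_of_ne_of_ne (by decide) hj0.symm
  have h21 : s2 1 = j' := Equiv.swap_apply_left _ _
  set l' := (s2.trans s1).symm l with hl'
  have hl0 : l' ≠ 0 := by
    intro h
    apply hil
    have : (s2.trans s1) 0 = l := by rw [← h, hl', Equiv.apply_symm_apply]
    rw [← this, Equiv.trans_apply, h20, hs1, Equiv.swap_apply_left]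
  have hl1 : l' ≠ 1 := by
    intro h
    apply hjl
    have : (s2.trans s1) 1 = l := by rw [← h, hl', Equiv.apply_symm_apply]
    rw [← this, Equiv.trans_apply, h21, hj', Equiv.apply_symm_apply]
  refine ⟨(Equiv.swap 2 l').trans (s2.trans s1), ?_, ?_, ?_⟩
  · rw [Equiv.trans_apply, Equiv.swap_apply_of_ne_of_ne (by decide) hl0.symm,
      Equiv.trans_apply, h20, hs1, Equiv.swap_apply_left]
  · rw [Equiv.trans_apply, Equiv.swap_apply_of_ne_of_ne (by decide) hl1.symm,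
      Equiv.trans_apply, h21, hj', Equiv.apply_symm_apply]
  · rw [Equiv.trans_apply, Equiv.swap_apply_left, hl', Equiv.apply_symm_apply]

lemma concl (c : Fin 5 → Fin 3 → K) {x y l : Fin 5} (h : dt c x y l ≠ 0) : Concl c := by
  have hxy : x ≠ y := by
    rintro rfl; exact h (dt_self c x l)
  have hyl : y ≠ l := by
    rintro rfl; apply h; simp only [dt_def]; ring
  have hxl : x ≠ l := by
    rintro rfl; apply h; simp only [dt_def]; ring
  obtain ⟨σ, h0, h1, h2⟩ := exists_perm x y l hxy hyl hxl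
  apply concl_perm c σ
  apply concl_012
  show dt c (σ 0) (σ 1) (σ 2) ≠ 0
  rw [h0, h1, h2]; exact h

end

lemma mulHeight_congr {K : Type} [Field K] [NumberField K] {ι κ : Type} [Finite ι] [Finite κ]
    {x : ι → K} {y : κ → K} (hx : x ≠ 0) (hy : y ≠ 0)
    (h1 : ∀ i, x i = 0 ∨ ∃ k, x i = y k ∨ x i = - y k)
    (h2 : ∀ k, y k = 0 ∨ ∃ i, y k = x i ∨ y k = - x i) :
    Height.mulHeight x = Height.mulHeight y := by
  have hι : Nonempty ι := by
    by_contra h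
    rw [not_nonempty_iff] at h
    exact hx (Subsingleton.elim _ _)
  have hκ : Nonempty κ := by
    by_contra h
    rw [not_nonempty_iff] at h
    exact hy (Subsingleton.elim _ _)
  have H : ∀ v : AbsoluteValue K ℝ, ⨆ i, v (x i) = ⨆ k, v (y k) := by
    intro v
    apply le_antisymm
    · refine ciSup_le fun i => ?_
      rcases h1 i with h | ⟨k, h | h⟩
      · rw [h, map_zero]
        exact Real.iSup_nonneg fun k => apply_nonneg _ _
      · rw [h]; exact Finite.le_ciSup_of_le k le_rfl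
      · rw [h, AbsoluteValue.map_neg]; exact Finite.le_ciSup_of_le k le_rfl
    · refine ciSup_le fun k => ?_
      rcases h2 k with h | ⟨i, h | h⟩
      · rw [h, map_zero]
        exact Real.iSup_nonneg fun k => apply_nonneg _ _
      · rw [h]; exact Finite.le_ciSup_of_le i le_rfl
      · rw [h, AbsoluteValue.map_neg]; exact Finite.le_ciSup_of_le i le_rfl
  rw [Height.mulHeight_eq hx, Height.mulHeight_eq hy]
  simp only [H]

lemma bil_eq {K : Type} [Field K] (ω : Fin 3 → Fin 5 → Fin 5 → K) (u w : Fin 5 → K) (k : Fin 3) :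
    ∑ j, col ω u j k * w j = bil (ω k) u w := by
  unfold col bil
  simp only [Finset.sum_mul]
  rw [Finset.sum_comm]
  refine Finset.sum_congr rfl fun i _ => Finset.sum_congr rfl fun j _ => ?_
  ring

lemma bil_self {K : Type} [Field K] [CharZero K] {ω : Fin 3 → Fin 5 → Fin 5 → K} (hω : IsAlt ω)
    (u : Fin 5 → K) (k : Fin 3) : bil (ω k) u u = 0 := by
  have h : bil (ω k) u u = - bil (ω k) u u := by
    conv_lhs => unfold bil
    rw [Finset.sum_comm]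
    unfold bil
    rw [← Finset.sum_neg_distrib]
    refine Finset.sum_congr rfl fun i _ => ?_
    rw [← Finset.sum_neg_distrib]
    refine Finset.sum_congr rfl fun j _ => ?_
    rw [(hω k j).2 i]; ring
  have h2 : (2 : K) * bil (ω k) u u = 0 := by linear_combination h
  exact (mul_eq_zero.mp h2).resolve_left two_ne_zero

theorem rel_proof : Stmt_Rel := by
  intro K _ _ ω hω u z huz hD hpl
  have huu := bil_self hω u
  obtain ⟨q, hq⟩ := Function.ne_iff.mp hD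
  obtain ⟨E, h1, h2, h3⟩ := concl (col ω u) (x := q.1.1) (y := q.1.2) (l := q.2) hq
  have hu0 : ∀ k, ∑ j, col ω u j k * u j = 0 := fun k => by rw [bil_eq]; exact huu k
  have hz0 : ∀ k, ∑ j, col ω u j k * z j = 0 := fun k => by rw [bil_eq]; exact huz k
  obtain ⟨μ, hμ⟩ := h3 u z hu0 hz0
  have hμ0 : μ ≠ 0 := by
    rintro rfl; apply hpl; rw [hμ, zero_smul]
  have hE : E ≠ 0 := by
    rintro rfl; apply hpl; rw [hμ, smul_zero]
  constructor
  · rw [hμ, Height.mulHeight_smul_eq_mulHeight _ hμ0]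
    refine mulHeight_congr hD hE ?_ ?_
    · intro i; exact h1 i.1.1 i.1.2 i.2
    · intro k
      rcases h2 k with h | ⟨x, y, l, h⟩
      · exact Or.inl h
      · exact Or.inr ⟨((x, y), l), h⟩
  · intro z' hz'
    obtain ⟨μ', hμ'⟩ := h3 u z' hu0 (fun k => by rw [bil_eq]; exact hz' k)
    refine ⟨μ' / μ, ?_⟩
    rw [hμ', hμ, smul_smul, div_mul_cancel₀ _ hμ0]

end Pool.V5.Rel
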