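import Mathlib

set_option autoImplicit false

/-!
# Tools for module RES: counting in finite commutative rings
-/

namespace Pool.V5.Res

open Finset

/-- powers in a finite monoid become idempotent -/
theorem exists_pow_idem {R : Type*} [CommRing R] [Finite R] (a : R) :
    ∃ n : ℕ, 0 < n ∧ a ^ n * a ^ n = a ^ n := by
  obtain ⟨i, j, hij, h⟩ := Finite.exists_ne_map_eq_of_infinite (fun n : ℕ => a ^ n)
  wlog hlt : i < j generalizing i j
  · exact this j i hij.symm h.symm (by omega)
  obtain ⟨p, rfl⟩ := Nat.exists_eq_add_of_lt hlt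
  have h1 : ∀ m k : ℕ, a ^ (i + m) = a ^ (i + m + k * (p + 1)) := by
    intro m k
    induction k with
    | zero => simp
    | succ k ih =>
      rw [ih]
      have e1 : i + m + k * (p + 1) = i + (m + k * (p + 1)) := by ring
      have e2 : i + m + (k + 1) * (p + 1) = (i + p + 1) + (m + k * (p + 1)) := by ring
      rw [e1, e2, pow_add a i, pow_add a (i + p + 1), ← h]
  refine ⟨(i + 1) * (p + 1), by positivity, ?_⟩
  obtain ⟨m, hm⟩ := Nat.exists_eq_add_of_le (show i ≤ (i + 1) * (p + 1) by nlinarith)
  rw [← pow_add]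
  have h2 := h1 m (i + 1)
  rw [← hm] at h2
  exact h2.symm

/-- stable range one -/
theorem stable_range {R : Type*} [CommRing R] [Finite R] (a b c d : R) (h : a * c + b * d = 1) :
    ∃ e : R, IsUnit (a + b * e) := by
  obtain ⟨n, hn, hidem⟩ := exists_pow_idem a
  refine ⟨1 - a ^ n, ?_⟩
  by_contra hu
  obtain ⟨m, hm, hmem⟩ := exists_max_ideal_of_mem_nonunits hu
  have hp := hm.isPrime
  have h0 : a ^ n * (1 - a ^ n) ∈ m := by
    have : a ^ n * (1 - a ^ n) = 0 := by rw [mul_sub, mul_one, hidem, sub_self]
    rw [this]; exact m.zero_mem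
  have h1 : a ∈ m := by
    rcases hp.mem_or_mem h0 with h1 | h1
    · exact hp.mem_of_pow_mem n h1
    · have : a + b * (1 - a ^ n) - b * (1 - a ^ n) ∈ m := m.sub_mem hmem (m.mul_mem_left _ h1)
      simpa using this
  have h2 : a ^ n ∈ m := Ideal.pow_mem_of_mem m h1 n hn
  have h3 : b * (1 - a ^ n) ∈ m := by
    have : a + b * (1 - a ^ n) - a ∈ m := m.sub_mem hmem h1
    simpa using this
  have h4 : b ∈ m := by
    rcases hp.mem_or_mem h3 with h4 | h4
    · exact h4
    · exfalso
      apply hm.ne_top
      rw [Ideal.eq_top_iff_one]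
      have := m.add_mem h4 h2
      simpa using this
  apply hm.ne_top
  rw [Ideal.eq_top_iff_one, ← h]
  exact m.add_mem (m.mul_mem_right _ h1) (m.mul_mem_right _ h4)

theorem exists_unit {R : Type*} [CommRing R] [Finite R] {x y : R}
    (h : Ideal.span {x} = Ideal.span ({y} : Set R)) : ∃ t : Rˣ, y = t * x := by
  obtain ⟨s, hs⟩ := Ideal.mem_span_singleton'.1 (h ▸ Ideal.mem_span_singleton_self x)
  obtain ⟨t, ht⟩ := Ideal.mem_span_singleton'.1 (h.symm ▸ Ideal.mem_span_singleton_self y)
  obtain ⟨e, u, hu⟩ := stable_range t (1 - s * t) s 1 (by ring)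
  refine ⟨u, ?_⟩
  rw [hu]
  have : (t + (1 - s * t) * e) * x = t * x + e * (x - s * (t * x)) := by ring
  rw [this, ht, hs]
  ring

theorem card_le_units {R : Type*} [CommRing R] [Finite R] :
    Nat.card R ≤ Nat.card Rˣ * Nat.card (Ideal R) := by
  classical
  have := Fintype.ofFinite R
  have := Fintype.ofFinite Rˣ
  have : Finite (Ideal R) := Finite.of_injective (fun I : Ideal R => (I : Set R)) SetLike.coe_injective
  have := Fintype.ofFinite (Ideal R)
  rw [Nat.card_eq_fintype_card, Nat.card_eq_fintype_card, Nat.card_eq_fintype_card]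
  have h := card_le_mul_card_image (f := fun x : R => Ideal.span ({x} : Set R)) (univ : Finset R)
    (Fintype.card Rˣ) (by
      intro I hI
      obtain ⟨x, -, rfl⟩ := mem_image.1 hI
      have : (univ.filter fun y : R => Ideal.span ({y} : Set R) = Ideal.span {x}) ⊆
          (univ : Finset Rˣ).image fun t : Rˣ => (t : R) * x := by
        intro y hy
        simp only [mem_filter, mem_univ, true_and] at hy
        obtain ⟨t, ht⟩ := exists_unit hy.symm
        exact mem_image.2 ⟨t, mem_univ _, ht.symm⟩
      exact (card_le_card this).trans (card_image_le.trans (by rw [card_univ])))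
  exact h.trans (Nat.mul_le_mul_left _ (card_le_univ _))

/-- annihilator count -/
theorem ann_card {R : Type*} [CommRing R] [Finite R] (D : R) :
    Nat.card {x : R // D * x = 0} = Nat.card (R ⧸ Ideal.span ({D} : Set R)) := by
  have e1 : Nat.card {x : R // D * x = 0} = Nat.card (AddMonoidHom.mulLeft D).ker := by
    refine Nat.card_congr (Equiv.subtypeEquivRight fun x => ?_)
    rw [AddMonoidHom.mem_ker]; rfl
  have e2 : Nat.card R = Nat.card (AddMonoidHom.mulLeft D).ker * Nat.card (AddMonoidHom.mulLeft D).range := by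
    rw [AddSubgroup.card_eq_card_quotient_mul_card_addSubgroup (AddMonoidHom.mulLeft D).ker,
      Nat.card_congr (QuotientAddGroup.quotientKerEquivRange (AddMonoidHom.mulLeft D)).toEquiv, mul_comm]
  have e3 : Nat.card R = Nat.card (R ⧸ Ideal.span ({D} : Set R)) * Nat.card (Ideal.span ({D} : Set R)) :=
    (Submodule.card_eq_card_quotient_mul_card _).trans (by ring)
  have e4 : Nat.card (AddMonoidHom.mulLeft D).range = Nat.card (Ideal.span ({D} : Set R)) := by
    refine Nat.card_congr (Equiv.subtypeEquivRight fun x => ?_)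
    rw [AddMonoidHom.mem_range, Ideal.mem_span_singleton']
    constructor
    · rintro ⟨y, hy⟩; exact ⟨y, by rw [← hy]; simp [mul_comm]⟩
    · rintro ⟨y, hy⟩; exact ⟨y, by rw [← hy]; simp [mul_comm]⟩
  have hpos : 0 < Nat.card (Ideal.span ({D} : Set R)) := Nat.card_pos
  rw [e1]
  rw [e4] at e2
  exact Nat.eq_of_mul_eq_mul_right hpos (e2.symm.trans e3)

/-- counting the pairs for fixed `a` -/
theorem fix_count {R : Type*} [CommRing R] [Fintype R] [DecidableEq R] (p : Fin 5 → R) (D : R)
    (hD : D ∈ Ideal.span (Set.range p)) :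
    (univ.filter fun u : Fin 5 → R => ∀ i j, u i * p j = u j * p i).card ≤
      (univ.filter fun x : R => D * x = 0).card ^ 5 * Fintype.card R := by
  obtain ⟨e, he⟩ := (Ideal.mem_span_range_iff_exists_fun).1 hD
  have h := card_le_mul_card_image (f := fun u : Fin 5 → R => ∑ j, e j * u j)
    (univ.filter fun u : Fin 5 → R => ∀ i j, u i * p j = u j * p i)
    ((univ.filter fun x : R => D * x = 0).card ^ 5) (by
      intro s hs
      obtain ⟨u₀, hu₀, rfl⟩ := mem_image.1 hs
      have hkey : ∀ u : Fin 5 → R, (∀ i j, u i * p j = u j * p i) → ∀ i, D * u i = (∑ j, e j * u j) * p i := by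
        intro u hu i
        rw [← he, sum_mul, sum_mul]
        refine sum_congr rfl fun j _ => ?_
        calc e j * p j * u i = e j * (u i * p j) := by ring
          _ = e j * (u j * p i) := by rw [hu i j]
          _ = _ := by ring
      have hcard : (Fintype.piFinset fun _ : Fin 5 => (univ.filter fun x : R => D * x = 0)).card =
          (univ.filter fun x : R => D * x = 0).card ^ 5 := by
        rw [Fintype.card_piFinset]; simp
      rw [← hcard]
      refine card_le_card_of_injOn (fun u => u - u₀) ?_ ?_
      · intro u hu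
        simp only [coe_filter, mem_filter, mem_univ, true_and, Set.mem_ofPred_eq] at hu hu₀
        simp only [Fintype.coe_piFinset, Set.mem_pi, Set.mem_univ, forall_true_left, coe_filter,
          mem_univ, true_and, Set.mem_ofPred_eq, Pi.sub_apply]
        intro i
        rw [mul_sub, hkey u hu.1 i, hkey u₀ hu₀ i, hu.2, sub_self]
      · intro u _ u' _ huu
        simpa using huu)
  refine h.trans (Nat.mul_le_mul_left _ ?_)
  exact card_le_univ _

theorem set_count {R : Type*} [CommRing R] [Fintype R] [DecidableEq R] (p : (Fin 3 → R) → Fin 5 → R)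
    (hp : ∀ (t : R) a, p (t • a) = t ^ 2 • p a) (D' D : R)
    (hD : ∀ a, D' ∈ Ideal.span (Set.range a) → D ∈ Ideal.span (Set.range (p a))) :
    Fintype.card Rˣ * Nat.card {u : Fin 5 → R // ∃ a : Fin 3 → R, D' ∈ Ideal.span (Set.range a) ∧
        ∀ i j, u i * p a j = u j * p a i} ≤
      (univ.filter fun x : R => D' * x = 0).card *
        ((univ.filter fun x : R => D * x = 0).card ^ 5 * Fintype.card R ^ 4) := by
  classical
  set P : Finset ((Fin 5 → R) × (Fin 3 → R)) := univ.filter fun ua =>
    D' ∈ Ideal.span (Set.range ua.2) ∧ ∀ i j, ua.1 i * p ua.2 j = ua.1 j * p ua.2 i with hP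
  set S : Finset (Fin 5 → R) := univ.filter fun u => ∃ a : Fin 3 → R, D' ∈ Ideal.span (Set.range a) ∧
        ∀ i j, u i * p a j = u j * p a i with hS
  have hSc : Nat.card {u : Fin 5 → R // ∃ a : Fin 3 → R, D' ∈ Ideal.span (Set.range a) ∧
        ∀ i j, u i * p a j = u j * p a i} = S.card := by
    rw [Nat.card_eq_fintype_card, Fintype.card_subtype]
  rw [hSc]
  -- upper bound for the number of pairs
  have hPc : P.card ≤ (univ.filter fun x : R => D * x = 0).card ^ 5 * Fintype.card R ^ 4 := by
    have h := card_le_mul_card_image (f := fun ua : (Fin 5 → R) × (Fin 3 → R) => ua.2) P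
      ((univ.filter fun x : R => D * x = 0).card ^ 5 * Fintype.card R) (by
        intro a ha
        obtain ⟨ua, hua, rfl⟩ := mem_image.1 ha
        simp only [hP, mem_filter, mem_univ, true_and] at hua
        refine le_trans ?_ (fix_count (p ua.2) D (hD _ hua.1))
        refine card_le_card_of_injOn (fun x => x.1) ?_ ?_
        · intro x hx
          simp only [hP, coe_filter, mem_filter, mem_univ, true_and, Set.mem_ofPred_eq] at hx ⊢
          rw [← hx.2]
          exact hx.1.2
        · intro x hx y hy hxy
          simp only [coe_filter, Set.mem_ofPred_eq] at hx hy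
          exact Prod.ext hxy (hx.2.trans hy.2.symm))
    refine h.trans ?_
    have h2 : (P.image fun ua => ua.2).card ≤ Fintype.card R ^ 3 := by
      refine (card_le_univ _).trans ?_
      simp
    calc (univ.filter fun x : R => D * x = 0).card ^ 5 * Fintype.card R * (P.image fun ua => ua.2).card
        ≤ (univ.filter fun x : R => D * x = 0).card ^ 5 * Fintype.card R * Fintype.card R ^ 3 :=
          Nat.mul_le_mul_left _ h2
      _ = _ := by ring
  refine le_trans ?_ (Nat.mul_le_mul_left _ hPc)
  -- lower bound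
  have hmaps : ∀ ua ∈ P, ua.1 ∈ S := by
    intro ua hua
    simp only [hP, mem_filter, mem_univ, true_and] at hua
    simp only [hS, mem_filter, mem_univ, true_and]
    exact ⟨ua.2, hua⟩
  rw [card_eq_sum_card_fiberwise (f := fun ua : (Fin 5 → R) × (Fin 3 → R) => ua.1) (s := P) (t := S) hmaps,
    mul_sum, mul_comm, ← smul_eq_mul, ← sum_const]
  refine sum_le_sum fun u hu => ?_
  simp only [hS, mem_filter, mem_univ, true_and] at hu
  obtain ⟨a₀, ha₀, hua₀⟩ := hu
  obtain ⟨b, hb⟩ := (Ideal.mem_span_range_iff_exists_fun).1 ha₀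
  have h := card_le_mul_card_image (f := fun t : Rˣ => (u, (t : R) • a₀)) (univ : Finset Rˣ)
    ((univ.filter fun x : R => D' * x = 0).card) (by
      intro w hw
      obtain ⟨t₀, -, rfl⟩ := mem_image.1 hw
      refine card_le_card_of_injOn (fun t => (t : R) - t₀) ?_ ?_
      · intro t ht
        simp only [coe_filter, mem_univ, true_and, Set.mem_ofPred_eq, Prod.mk.injEq] at ht ⊢
        rw [← hb, sum_mul]
        refine sum_eq_zero fun k _ => ?_
        have := congrFun ht k
        simp only [Pi.smul_apply, smul_eq_mul] at this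
        calc b k * a₀ k * ((t : R) - t₀) = b k * ((t : R) * a₀ k - t₀ * a₀ k) := by ring
          _ = 0 := by rw [this, sub_self, mul_zero]
      · intro t _ t' _ htt
        simp only [sub_left_inj] at htt
        exact Units.ext htt)
  rw [← card_univ]
  refine h.trans (Nat.mul_le_mul_left _ (card_le_card ?_))
  intro w hw
  obtain ⟨t, -, rfl⟩ := mem_image.1 hw
  simp only [hP, mem_filter, mem_univ, true_and, and_true]
  constructor
  · have : D' = ∑ k, (b k * ↑t⁻¹) * ((t : R) • a₀) k := by
      rw [← hb]
      refine sum_congr rfl fun k _ => ?_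
      simp only [Pi.smul_apply, smul_eq_mul]
      calc b k * a₀ k = b k * (((t⁻¹ : Rˣ) : R) * t) * a₀ k := by rw [Units.inv_mul, mul_one]
        _ = _ := by ring
    rw [this]
    exact Ideal.sum_mem _ fun k _ => Ideal.mul_mem_left _ _ (Ideal.subset_span ⟨k, rfl⟩)
  · intro i j
    rw [hp]
    simp only [Pi.smul_apply, smul_eq_mul]
    linear_combination (t : R) ^ 2 * hua₀ i j

end Pool.V5.Res
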