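import Mathlib
import Pool.Agent.V5.Stmts
import Pool.Agent.V5.ResAux
import Pool.Agent.Lib18ea5f.IdealDiv

set_option autoImplicit false

/-!
# Module RES (weak Manin for quintic del Pezzo threefolds, MP_18ea5f_nt)
-/

namespace Pool.V5

open Finset NumberField Pool.Lib18ea5f

namespace Res

theorem pf_smul {R : Type*} [CommRing R] (ω : Fin 3 → Fin 5 → Fin 5 → R) (t : R) (a : Fin 3 → R) :
    pf (comb ω (t • a)) = t ^ 2 • pf (comb ω a) := by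
  have h : ∀ i j, comb ω (t • a) i j = t * comb ω a i j := by
    intro i j
    simp only [comb, Pi.smul_apply, smul_eq_mul, mul_sum]
    exact sum_congr rfl fun k _ => by ring
  funext j
  simp only [Pi.smul_apply, smul_eq_mul, pf, h]
  fin_cases j <;> simp <;> ring

/-- powers of an element of `(a_0, a_1, a_2)` -/
theorem pow_mem {R : Type*} [CommRing R] (a : Fin 3 → R) (D : R) (hD : D ∈ Ideal.span (Set.range a))
    (M : ℕ) (I : Ideal R) (hI : ∀ k, a k ^ M ∈ I) : D ^ (3 * M) ∈ I := by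
  obtain ⟨b, hb⟩ := (Ideal.mem_span_range_iff_exists_fun).1 hD
  rw [Fin.sum_univ_three] at hb
  have h : ∀ k, (b k * a k) ^ M ∈ I := by
    intro k
    rw [mul_pow]
    exact I.mul_mem_left _ (hI k)
  rw [← hb]
  have h1 : (b 0 * a 0 + b 1 * a 1) ^ (2 * M) ∈ I :=
    Ideal.add_pow_mem_of_pow_mem_of_le I (h 0) (h 1) (by omega)
  exact Ideal.add_pow_mem_of_pow_mem_of_le I h1 (h 2) (by omega)

variable {K : Type} [Field K] [NumberField K]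

theorem card_ideals_le (g : Ideal (𝓞 K)) (hfin : {h : Ideal (𝓞 K) | h ∣ g}.Finite) :
    Nat.card (Ideal (𝓞 K ⧸ g)) ≤ {h : Ideal (𝓞 K) | h ∣ g}.ncard := by
  rw [← Nat.card_coe_set_eq]
  have := hfin.to_subtype
  refine Nat.card_le_card_of_injective
    (fun I : Ideal (𝓞 K ⧸ g) => (⟨Ideal.comap (Ideal.Quotient.mk g) I, ?_⟩ : {h : Ideal (𝓞 K) | h ∣ g})) ?_
  · change _ ∣ g
    rw [Ideal.dvd_iff_le]
    intro x hx
    rw [Ideal.mem_comap, Ideal.Quotient.eq_zero_iff_mem.2 hx]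
    exact I.zero_mem
  · intro I J h
    simp only [Subtype.mk.injEq] at h
    exact Ideal.comap_injective_of_surjective _ Ideal.Quotient.mk_surjective h

theorem ann_le (g : Ideal (𝓞 K)) [Finite (𝓞 K ⧸ g)] (δ : 𝓞 K) (hδ : δ ≠ 0) :
    Nat.card {x : 𝓞 K ⧸ g // Ideal.Quotient.mk g δ * x = 0} ≤ Ideal.absNorm (Ideal.span ({δ} : Set (𝓞 K))) := by
  rw [ann_card, Ideal.absNorm_apply, Submodule.cardQuot_apply]
  have hne : Ideal.span ({δ} : Set (𝓞 K)) ≠ ⊥ := by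
    rw [Ne, Ideal.span_singleton_eq_bot]; exact hδ
  have : Finite (𝓞 K ⧸ Ideal.span ({δ} : Set (𝓞 K))) := Ideal.finiteQuotientOfFreeOfNeBot _ hne
  have hle : Ideal.span ({δ} : Set (𝓞 K)) ≤
      Ideal.comap (Ideal.Quotient.mk g) (Ideal.span ({Ideal.Quotient.mk g δ} : Set (𝓞 K ⧸ g))) := by
    rw [Ideal.span_singleton_le_iff_mem, Ideal.mem_comap]
    exact Ideal.mem_span_singleton_self _
  exact Nat.card_le_card_of_surjective (Ideal.quotientMap _ (Ideal.Quotient.mk g) hle)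
    (Ideal.quotientMap_surjective Ideal.Quotient.mk_surjective)

theorem arith {U X N A₁ A₂ a₁ a₂ C ε : ℝ} (hX : 0 ≤ X) (hN : 0 < N) (ha₁ : 0 ≤ a₁) (ha₂ : 0 ≤ a₂)
    (hC : 0 ≤ C) (h1 : U * X ≤ a₁ * (a₂ ^ 5 * N ^ 4)) (h4 : a₁ ≤ A₁) (h5 : a₂ ≤ A₂)
    (h8 : N ≤ U * (C * N ^ ε)) : X ≤ A₁ * A₂ ^ 5 * C * N ^ (3 + ε) := by
  have h6 : U * X ≤ A₁ * (A₂ ^ 5 * N ^ 4) := by
    refine h1.trans ?_
    have : a₂ ^ 5 ≤ A₂ ^ 5 := pow_le_pow_left₀ ha₂ h5 5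
    exact mul_le_mul h4 (mul_le_mul_of_nonneg_right this (by positivity)) (by positivity)
      (ha₁.trans h4)
  have hNe : 0 ≤ N ^ ε := (Real.rpow_pos_of_pos hN ε).le
  have h12 : N * X ≤ N * (A₁ * A₂ ^ 5 * C * N ^ (3 + ε)) := by
    calc N * X ≤ U * (C * N ^ ε) * X := mul_le_mul_of_nonneg_right h8 hX
      _ = (C * N ^ ε) * (U * X) := by ring
      _ ≤ (C * N ^ ε) * (A₁ * (A₂ ^ 5 * N ^ 4)) := mul_le_mul_of_nonneg_left h6 (mul_nonneg hC hNe)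
      _ = N * (A₁ * A₂ ^ 5 * C * N ^ (3 + ε)) := by
          rw [Real.rpow_add hN]
          have : N ^ (3 : ℝ) = N ^ (3 : ℕ) := by exact_mod_cast Real.rpow_natCast N 3
          rw [this]; ring
  exact le_of_mul_le_mul_left h12 hN

theorem hD_aux (ω : Fin 3 → Fin 5 → Fin 5 → 𝓞 K) (M : ℕ) (Δ Δ' : 𝓞 K) (hN : NullData ω M Δ)
    (g : Ideal (𝓞 K)) (a : Fin 3 → 𝓞 K ⧸ g) (ha : Ideal.Quotient.mk g Δ' ∈ Ideal.span (Set.range a)) :
    Ideal.Quotient.mk g (Δ * Δ' ^ (3 * M)) ∈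
      Ideal.span (Set.range (pf (comb (mp (Ideal.Quotient.mk g) ω) a))) := by
  have h2 : Ideal.Quotient.mk g Δ' ^ (3 * M) ∈ Ideal.span (Set.range fun k => a k ^ M) :=
    pow_mem a _ ha M _ fun k => Ideal.subset_span ⟨k, rfl⟩
  obtain ⟨b, hb⟩ := (Ideal.mem_span_range_iff_exists_fun).1 h2
  have h3 : Ideal.Quotient.mk g (Δ * Δ' ^ (3 * M)) = ∑ k, b k * (Ideal.Quotient.mk g Δ * a k ^ M) := by
    rw [map_mul, map_pow, ← hb, mul_sum]
    exact sum_congr rfl fun k _ => by ring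
  rw [h3]
  refine Ideal.sum_mem _ fun k _ => Ideal.mul_mem_left _ _ ?_
  obtain ⟨c, hc⟩ := hN.hpf (𝓞 K ⧸ g) (Ideal.Quotient.mk g) a k
  rw [← hc]
  exact Ideal.sum_mem _ fun j _ => Ideal.mul_mem_left _ _ (Ideal.subset_span ⟨j, rfl⟩)

theorem main_aux (ω : Fin 3 → Fin 5 → Fin 5 → 𝓞 K) (M : ℕ) (Δ Δ' : 𝓞 K) (hN : NullData ω M Δ)
    (hΔ' : Δ' ≠ 0) (ε C : ℝ) (hC1 : 1 ≤ C) (g : Ideal (𝓞 K)) (hg : g ≠ ⊥)
    (hfin : {h : Ideal (𝓞 K) | h ∣ g}.Finite)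
    (hdiv : (({h : Ideal (𝓞 K) | h ∣ g}.ncard : ℕ) : ℝ) ≤ C * (Ideal.absNorm g : ℝ) ^ ε) :
    (Nat.card {u : Fin 5 → 𝓞 K ⧸ g // ∃ a : Fin 3 → 𝓞 K ⧸ g,
        Ideal.Quotient.mk g Δ' ∈ Ideal.span (Set.range a) ∧
        ∀ i j, u i * pf (comb (mp (Ideal.Quotient.mk g) ω) a) j =
          u j * pf (comb (mp (Ideal.Quotient.mk g) ω) a) i} : ℝ) ≤
      (Ideal.absNorm (Ideal.span ({Δ'} : Set (𝓞 K))) : ℝ) *
        (Ideal.absNorm (Ideal.span ({Δ * Δ' ^ (3 * M)} : Set (𝓞 K))) : ℝ) ^ 5 * C *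
        (Ideal.absNorm g : ℝ) ^ (3 + ε) := by
  classical
  have hδ0 : Δ * Δ' ^ (3 * M) ≠ 0 := mul_ne_zero hN.hΔ (pow_ne_zero _ hΔ')
  have hfinR : Finite (𝓞 K ⧸ g) := Ideal.finiteQuotientOfFreeOfNeBot _ hg
  have := Fintype.ofFinite (𝓞 K ⧸ g)
  have hcard : Ideal.absNorm g = Fintype.card (𝓞 K ⧸ g) := by
    rw [Ideal.absNorm_apply, Submodule.cardQuot_apply, Nat.card_eq_fintype_card]
  have h1 := set_count (R := 𝓞 K ⧸ g) (fun a => pf (comb (mp (Ideal.Quotient.mk g) ω) a))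
    (fun t a => pf_smul _ t a) (Ideal.Quotient.mk g Δ') (Ideal.Quotient.mk g (Δ * Δ' ^ (3 * M)))
    (hD_aux ω M Δ Δ' hN g)
  have h4 := ann_le g Δ' hΔ'
  rw [Nat.card_eq_fintype_card, Fintype.card_subtype] at h4
  have h5 := ann_le g (Δ * Δ' ^ (3 * M)) hδ0
  rw [Nat.card_eq_fintype_card, Fintype.card_subtype] at h5
  have h9 := card_le_units (R := 𝓞 K ⧸ g)
  have h10 := card_ideals_le g hfin
  rw [Nat.card_eq_fintype_card, Nat.card_eq_fintype_card] at h9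
  have h11 := h9.trans (Nat.mul_le_mul_left _ h10)
  rw [← hcard] at h1 h11
  have h1' := (Nat.cast_le (α := ℝ)).2 h1
  have h4' := (Nat.cast_le (α := ℝ)).2 h4
  have h5' := (Nat.cast_le (α := ℝ)).2 h5
  have h11' := (Nat.cast_le (α := ℝ)).2 h11
  rw [Nat.cast_mul, Nat.cast_mul, Nat.cast_mul, Nat.cast_pow, Nat.cast_pow] at h1'
  rw [Nat.cast_mul] at h11'
  have hpos : (0 : ℝ) < (Ideal.absNorm g : ℝ) := by
    rw [hcard]; exact_mod_cast Fintype.card_pos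
  refine arith (Nat.cast_nonneg _) hpos (Nat.cast_nonneg _) (Nat.cast_nonneg _) (by linarith) h1' h4' h5' ?_
  exact h11'.trans (mul_le_mul_of_nonneg_left hdiv (Nat.cast_nonneg _))

end Res

open Res in
theorem res_proof : Stmt_Res := by
  intro K _ _ ω M Δ Δ' hN hΔ' ε hε
  obtain ⟨C, hC1, hC⟩ := ideal_divisor_bound K ε hε
  refine ⟨max 1 ((Ideal.absNorm (Ideal.span ({Δ'} : Set (𝓞 K))) : ℝ) *
        (Ideal.absNorm (Ideal.span ({Δ * Δ' ^ (3 * M)} : Set (𝓞 K))) : ℝ) ^ 5 * C), le_max_left _ _,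
    fun g hg => ?_⟩
  obtain ⟨hfin, hdiv⟩ := hC g hg
  refine (main_aux ω M Δ Δ' hN hΔ' ε C hC1 g hg hfin hdiv).trans ?_
  exact mul_le_mul_of_nonneg_right (le_max_right _ _) (Real.rpow_nonneg (Nat.cast_nonneg _) _)

end Pool.V5
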