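import Pool.Agent.V5.Alt
import Pool.Agent.Lib18ea5f.Smooth

set_option autoImplicit false

/-!
# SMOOTH: the net of alternating forms of a smooth quintic del Pezzo threefold
-/

namespace Pool.V5

open Finset Pool.Lib18ea5f

namespace SmoothM

section

variable {F : Type*} [Field F]

/-- every nonzero vector is, up to a factor, a cross product -/
theorem exists_cr (w : Fin 3 → F) (hw : w ≠ 0) : ∃ (s t : Fin 3 → F) (c : F), c ≠ 0 ∧ cr s t = c • w := by
  obtain ⟨k, hk⟩ := Function.ne_iff.mp hw
  have hk' : w k ≠ 0 := hk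
  fin_cases k
  · refine ⟨![-w 1, w 0, 0], ![-w 2, 0, w 0], w 0, hk', ?_⟩
    funext i
    fin_cases i <;> simp [cr] <;> ring
  · refine ⟨![0, -w 2, w 1], ![w 1, -w 0, 0], w 1, hk', ?_⟩
    funext i
    fin_cases i <;> simp [cr] <;> ring
  · refine ⟨![w 2, 0, -w 0], ![0, w 2, -w 1], w 2, hk', ?_⟩
    funext i
    fin_cases i <;> simp [cr] <;> ring

/-- combination of three vectors -/
def lin (y : Fin 3 → Fin 5 → F) (s : Fin 3 → F) : Fin 5 → F := fun j => ∑ i, s i * y i j

theorem bil_add_left (m : Fin 5 → Fin 5 → F) (x x' z : Fin 5 → F) :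
    bil m (x + x') z = bil m x z + bil m x' z := by
  unfold bil
  rw [← Finset.sum_add_distrib]
  refine Finset.sum_congr rfl fun i _ => ?_
  rw [← Finset.sum_add_distrib]
  exact Finset.sum_congr rfl fun j _ => by simp only [Pi.add_apply]; ring

theorem bil_smul_left (m : Fin 5 → Fin 5 → F) (c : F) (x z : Fin 5 → F) :
    bil m (c • x) z = c * bil m x z := by
  unfold bil
  rw [Finset.mul_sum]
  refine Finset.sum_congr rfl fun i _ => ?_
  rw [Finset.mul_sum]
  exact Finset.sum_congr rfl fun j _ => by simp only [Pi.smul_apply, smul_eq_mul]; ring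

theorem bil_swap {m : Fin 5 → Fin 5 → F} (hm : AltM m) (x z : Fin 5 → F) :
    bil m x z = - bil m z x := by
  unfold bil
  rw [Finset.sum_comm, ← Finset.sum_neg_distrib]
  refine Finset.sum_congr rfl fun i _ => ?_
  rw [← Finset.sum_neg_distrib]
  exact Finset.sum_congr rfl fun j _ => by rw [(hm j).2 i]; ring

theorem bil_self {m : Fin 5 → Fin 5 → F} (hm : AltM m) (x : Fin 5 → F) : bil m x x = 0 := by
  have d0 := (hm 0).1
  have d1 := (hm 1).1
  have d2 := (hm 2).1
  have d3 := (hm 3).1
  have d4 := (hm 4).1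
  have a10 := (hm 1).2 0
  have a20 := (hm 2).2 0
  have a30 := (hm 3).2 0
  have a40 := (hm 4).2 0
  have a21 := (hm 2).2 1
  have a31 := (hm 3).2 1
  have a41 := (hm 4).2 1
  have a32 := (hm 3).2 2
  have a42 := (hm 4).2 2
  have a43 := (hm 4).2 3
  simp only [bil, Fin.sum_univ_five, d0, d1, d2, d3, d4, a10, a20, a30, a40, a21, a31, a41, a32, a42, a43]
  ring

theorem lin_eq (y : Fin 3 → Fin 5 → F) (s : Fin 3 → F) :
    lin y s = s 0 • y 0 + (s 1 • y 1 + s 2 • y 2) := by
  funext j
  simp only [lin, Fin.sum_univ_three, Pi.add_apply, Pi.smul_apply, smul_eq_mul]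
  ring

theorem bil_lin {m : Fin 5 → Fin 5 → F} (hm : AltM m) (y : Fin 3 → Fin 5 → F) (s t : Fin 3 → F) :
    bil m (lin y s) (lin y t) = dot ![bil m (y 1) (y 2), bil m (y 2) (y 0), bil m (y 0) (y 1)] (cr s t) := by
  have h1 : ∀ x, bil m x (lin y t) = t 0 * bil m x (y 0) + (t 1 * bil m x (y 1) + t 2 * bil m x (y 2)) := by
    intro x
    rw [bil_swap hm x, lin_eq, bil_add_left, bil_add_left, bil_smul_left, bil_smul_left, bil_smul_left,
      bil_swap hm (y 0) x, bil_swap hm (y 1) x, bil_swap hm (y 2) x]
    ring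
  rw [h1, lin_eq, bil_add_left, bil_add_left, bil_smul_left, bil_smul_left, bil_smul_left,
    bil_add_left, bil_add_left, bil_smul_left, bil_smul_left, bil_smul_left,
    bil_add_left, bil_add_left, bil_smul_left, bil_smul_left, bil_smul_left,
    bil_self hm, bil_self hm, bil_self hm, bil_swap hm (y 1) (y 0), bil_swap hm (y 0) (y 2),
    bil_swap hm (y 2) (y 1)]
  simp only [dot, cr, Matrix.cons_val]
  ring

/-- kernel of a form -/
theorem bil_ker {m : Fin 5 → Fin 5 → F} (hm : AltM m) {x : Fin 5 → F} (h : ∀ l, ∑ j, m l j * x j = 0)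
    (z : Fin 5 → F) : bil m x z = 0 := by
  rw [bil_swap hm, neg_eq_zero]
  unfold bil
  refine Finset.sum_eq_zero fun i _ => ?_
  calc ∑ j, m i j * (z i * x j) = z i * ∑ j, m i j * x j := by
        rw [Finset.mul_sum]; exact Finset.sum_congr rfl fun j _ => by ring
    _ = 0 := by rw [h i, mul_zero]

/-- an alternating form whose sub-Pfaffians vanish has a kernel of dimension at least three -/
theorem exists_ker3 {m : Fin 5 → Fin 5 → F} (hm : AltM m) (h : pf m = 0) :
    ∃ (y : Fin 3 → Fin 5 → F) (r : Fin 3 → Fin 5) (c : F), c ≠ 0 ∧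
      (∀ s l, ∑ j, m l j * y s j = 0) ∧ ∀ s t, y s (r t) = if s = t then c else 0 := by
  by_cases h0 : ∃ p q, m p q ≠ 0
  · obtain ⟨p, q, hpq⟩ := h0
    have hne : p ≠ q := by
      rintro rfl
      exact hpq (hm p).1
    have hc : (univ \ {p, q} : Finset (Fin 5)).card = 3 := by
      rw [card_sdiff_of_subset (subset_univ _), card_pair hne]; simp
    let r : Fin 3 → Fin 5 := fun s => (univ \ {p, q} : Finset (Fin 5)).orderEmbOfFin hc s
    have hr : ∀ s, r s ≠ p ∧ r s ≠ q := by
      intro s
      have := Finset.orderEmbOfFin_mem (univ \ {p, q} : Finset (Fin 5)) hc s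
      simp only [mem_sdiff, mem_univ, true_and, mem_insert, mem_singleton, not_or] at this
      exact this
    have hri : Function.Injective r := (Finset.orderEmbOfFin _ hc).injective
    refine ⟨fun s j => m p q * (if j = r s then 1 else 0) + m q (r s) * (if j = p then 1 else 0) +
      m (r s) p * (if j = q then 1 else 0), r, m p q, hpq, ?_, ?_⟩
    · intro s l
      have e : ∀ j, m l j * (m p q * (if j = r s then 1 else 0) + m q (r s) * (if j = p then 1 else 0) +
          m (r s) p * (if j = q then 1 else 0)) = (if j = r s then m l j * m p q else 0) +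
          ((if j = p then m l j * m q (r s) else 0) + (if j = q then m l j * m (r s) p else 0)) := by
        intro j
        split_ifs <;> ring
      simp only [e]
      rw [Finset.sum_add_distrib, Finset.sum_add_distrib, Finset.sum_ite_eq', Finset.sum_ite_eq',
        Finset.sum_ite_eq']
      simp only [mem_univ, if_true]
      have := P4_zero hm h l p q (r s)
      unfold P4 at this
      rw [(hm (r s)).2 p]
      linear_combination this
    · intro s t
      have h1 := (hr t).1
      have h2 := (hr t).2
      simp only [h1, h2, if_false, mul_zero, add_zero]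
      by_cases hst : s = t
      · subst hst; simp
      · have : r t ≠ r s := fun he => hst (hri he).symm
        simp [this, hst]
  · push Not at h0
    refine ⟨fun s j => if j = s.castLE (by norm_num) then 1 else 0, fun t => t.castLE (by norm_num), 1,
      one_ne_zero, ?_, ?_⟩
    · intro s l
      exact Finset.sum_eq_zero fun j _ => by rw [h0]; ring
    · intro s t
      by_cases hst : s = t
      · subst hst; simp
      · have : ¬ (t.castLE (by norm_num : 3 ≤ 5) = s.castLE (by norm_num : 3 ≤ 5)) := by
          intro he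
          exact hst (Fin.castLE_injective (by norm_num) he).symm
        simp [this, hst]

theorem lin_coord {y : Fin 3 → Fin 5 → F} {r : Fin 3 → Fin 5} {c : F}
    (h : ∀ s t, y s (r t) = if s = t then c else 0) (s : Fin 3 → F) (t : Fin 3) :
    lin y s (r t) = s t * c := by
  unfold lin
  simp only [h, mul_ite, mul_zero]
  rw [Finset.sum_ite_eq']
  simp

theorem comb_bil (ω : Fin 3 → Fin 5 → Fin 5 → F) (a : Fin 3 → F) (x z : Fin 5 → F) :
    bil (comb ω a) x z = ∑ k, a k * bil (ω k) x z := by
  simp only [bil, comb, Fin.sum_univ_three]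
  simp only [Finset.mul_sum]
  rw [← Finset.sum_add_distrib, ← Finset.sum_add_distrib]
  refine Finset.sum_congr rfl fun i _ => ?_
  rw [← Finset.sum_add_distrib, ← Finset.sum_add_distrib]
  exact Finset.sum_congr rfl fun j _ => by ring

theorem part1 {ω : Fin 3 → Fin 5 → Fin 5 → F} (hω : IsAlt ω) (hs : Smooth ω) (a : Fin 3 → F)
    (ha : a ≠ 0) : pf (comb ω a) ≠ 0 := by
  intro h
  have hm := AltM.comb hω a
  obtain ⟨y, r, c, hc, hy, hr⟩ := exists_ker3 hm h
  let N : Matrix (Fin 3) (Fin 3) F := fun k =>
    ![bil (ω k) (y 1) (y 2), bil (ω k) (y 2) (y 0), bil (ω k) (y 0) (y 1)]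
  have hker : ∀ s z, bil (comb ω a) (y s) z = 0 := fun s z => bil_ker hm (hy s) z
  have hN : Matrix.vecMul a N = 0 := by
    funext i
    have e : Matrix.vecMul a N i = ∑ k, a k * N k i := rfl
    rw [e]
    fin_cases i
    · simpa [N] using (comb_bil ω a (y 1) (y 2)).symm.trans (hker 1 (y 2))
    · simpa [N] using (comb_bil ω a (y 2) (y 0)).symm.trans (hker 2 (y 0))
    · simpa [N] using (comb_bil ω a (y 0) (y 1)).symm.trans (hker 0 (y 1))
  have hdet : N.det = 0 := Matrix.exists_vecMul_eq_zero_iff.1 ⟨a, ha, hN⟩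
  obtain ⟨w, hw, hNw⟩ := Matrix.exists_mulVec_eq_zero_iff.2 hdet
  obtain ⟨s, t, γ, hγ, hst⟩ := exists_cr w hw
  have hbil : ∀ k, bil (ω k) (lin y s) (lin y t) = 0 := by
    intro k
    rw [bil_lin (m := ω k) (fun i => hω k i), hst]
    have := congrFun hNw k
    simp only [Matrix.mulVec, dotProduct, Pi.zero_apply, Fin.sum_univ_three, N] at this
    simp only [dot, Pi.smul_apply, smul_eq_mul]
    linear_combination γ * this
  have hpl : pl (lin y s) (lin y t) ≠ 0 := by
    intro h0
    apply hw
    have hz : ∀ i j : Fin 3, s i * t j - s j * t i = 0 := by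
      intro i j
      have := congrFun h0 (r i, r j)
      simp only [pl, lin_coord hr, Pi.zero_apply] at this
      have h2 : (s i * t j - s j * t i) * (c * c) = 0 := by linear_combination this
      exact (mul_eq_zero.1 h2).resolve_right (mul_ne_zero hc hc)
    have hcr : cr s t = 0 := by
      funext i
      fin_cases i
      · simpa [cr] using hz 1 2
      · simpa [cr] using hz 2 0
      · simpa [cr] using hz 0 1
    rw [hcr] at hst
    funext i
    have := congrFun hst i
    simp only [Pi.zero_apply, Pi.smul_apply, smul_eq_mul] at this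
    exact (mul_eq_zero.1 this.symm).resolve_left hγ
  have hlin : ∀ (s : Fin 3 → F) (z : Fin 5 → F), bil (comb ω a) (lin y s) z = 0 := by
    intro s z
    rw [lin_eq, bil_add_left, bil_add_left, bil_smul_left, bil_smul_left, bil_smul_left, hker, hker, hker]
    ring
  obtain ⟨z, hz⟩ := hs (lin y s) (lin y t) hpl hbil a ha
  rcases hz with hz | hz
  · exact hz (hlin s z)
  · exact hz (hlin t z)

theorem comb_add (ω : Fin 3 → Fin 5 → Fin 5 → F) (s t : Fin 3 → F) (x y : F) (i j : Fin 5) :
    comb ω (x • s + y • t) i j = x * comb ω s i j + y * comb ω t i j := by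
  simp only [comb, Fin.sum_univ_three, Pi.add_apply, Pi.smul_apply, smul_eq_mul]
  ring

theorem pf_quad (m n : Fin 5 → Fin 5 → F) (x y : F) (i : Fin 5) :
    pf (fun a b => x * m a b + y * n a b) i = pf m i * x ^ 2 +
      (pf (fun a b => m a b + n a b) i - pf m i - pf n i) * x * y + pf n i * y ^ 2 := by
  fin_cases i <;> simp [pf] <;> ring

theorem part2 [IsAlgClosed F] {ω : Fin 3 → Fin 5 → Fin 5 → F} (hω : IsAlt ω)
    (h1 : ∀ a : Fin 3 → F, a ≠ 0 → pf (comb ω a) ≠ 0) (u : Fin 5 → F) (hu : u ≠ 0) :
    ∃ q, av ω u q ≠ 0 := by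
  by_contra hcon
  push Not at hcon
  -- a nonzero vector to which all columns are proportional
  obtain ⟨c, hc, hcol⟩ : ∃ c : Fin 3 → F, c ≠ 0 ∧ ∀ j, cr c (col ω u j) = 0 := by
    by_cases h : ∃ j, col ω u j ≠ 0
    · obtain ⟨j, hj⟩ := h
      exact ⟨col ω u j, hj, fun l => hcon (j, l)⟩
    · push Not at h
      refine ⟨![1, 0, 0], ?_, fun j => ?_⟩
      · intro h0
        have := congrFun h0 0
        simp at this
      · rw [h j]
        funext i
        fin_cases i <;> simp [cr]
  obtain ⟨s, t, γ, hγ, hst⟩ := exists_cr c hc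
  have hs : dot s c = 0 := by
    have := dot_cr_left s t
    rw [hst] at this
    simp only [dot, Pi.smul_apply, smul_eq_mul] at this ⊢
    have h2 : γ * (s 0 * c 0 + s 1 * c 1 + s 2 * c 2) = 0 := by linear_combination this
    exact (mul_eq_zero.1 h2).resolve_left hγ
  have ht : dot t c = 0 := by
    have := dot_cr_right s t
    rw [hst] at this
    simp only [dot, Pi.smul_apply, smul_eq_mul] at this ⊢
    have h2 : γ * (t 0 * c 0 + t 1 * c 1 + t 2 * c 2) = 0 := by linear_combination this
    exact (mul_eq_zero.1 h2).resolve_left hγ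
  have horth : ∀ a : Fin 3 → F, dot a c = 0 → ∀ j, dot a (col ω u j) = 0 := by
    intro a ha j
    obtain ⟨k, hk⟩ := Function.ne_iff.mp hc
    have hk' : c k ≠ 0 := hk
    have e0 := congrFun (hcol j) 0
    have e1 := congrFun (hcol j) 1
    have e2 := congrFun (hcol j) 2
    simp only [cr, Matrix.cons_val, Pi.zero_apply] at e0 e1 e2
    simp only [dot] at ha ⊢
    set d := col ω u j
    have : c k * (a 0 * d 0 + a 1 * d 1 + a 2 * d 2) = 0 := by
      fin_cases k
      · simp only [Fin.zero_eta]
        linear_combination d 0 * ha + a 1 * e2 - a 2 * e1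
      · simp only [Fin.mk_one]
        linear_combination d 1 * ha - a 0 * e2 + a 2 * e0
      · simp only [Fin.reduceFinMk]
        linear_combination d 2 * ha + a 0 * e1 - a 1 * e0
    exact (mul_eq_zero.1 this).resolve_left hk'
  obtain ⟨i, hi⟩ := Function.ne_iff.mp hu
  have hi' : u i ≠ 0 := hi
  obtain ⟨x, hx, hq⟩ := exists_quad_zero (pf (comb ω s) i)
    (pf (fun a b => comb ω s a b + comb ω t a b) i - pf (comb ω s) i - pf (comb ω t) i)
    (pf (comb ω t) i)
  set a : Fin 3 → F := x 0 • s + x 1 • t with ha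
  have hcomb : comb ω a = fun p q => x 0 * comb ω s p q + x 1 * comb ω t p q := by
    funext p q
    exact comb_add ω s t (x 0) (x 1) p q
  have ha0 : a ≠ 0 := by
    intro h0
    apply hx
    obtain ⟨k, hk⟩ := Function.ne_iff.mp hc
    have hk' : c k ≠ 0 := hk
    have g0 := congrFun hst 0
    have g1 := congrFun hst 1
    have g2 := congrFun hst 2
    simp only [cr, Matrix.cons_val, Pi.smul_apply, smul_eq_mul] at g0 g1 g2
    have f0 := congrFun h0 0
    have f1 := congrFun h0 1
    have f2 := congrFun h0 2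
    simp only [ha, Pi.add_apply, Pi.smul_apply, smul_eq_mul, Pi.zero_apply] at f0 f1 f2
    have k0 : x 0 * (γ * c k) = 0 := by
      fin_cases k
      · simp only [Fin.zero_eta]
        linear_combination (-x 0) * g0 + t 2 * f1 - t 1 * f2
      · simp only [Fin.mk_one]
        linear_combination (-x 0) * g1 + t 0 * f2 - t 2 * f0
      · simp only [Fin.reduceFinMk]
        linear_combination (-x 0) * g2 + t 1 * f0 - t 0 * f1
    have k1 : x 1 * (γ * c k) = 0 := by
      fin_cases k
      · simp only [Fin.zero_eta]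
        linear_combination (-x 1) * g0 + s 1 * f2 - s 2 * f1
      · simp only [Fin.mk_one]
        linear_combination (-x 1) * g1 + s 2 * f0 - s 0 * f2
      · simp only [Fin.reduceFinMk]
        linear_combination (-x 1) * g2 + s 0 * f1 - s 1 * f0
    have hne := mul_ne_zero hγ hk'
    funext l
    fin_cases l
    · exact (mul_eq_zero.1 k0).resolve_right hne
    · exact (mul_eq_zero.1 k1).resolve_right hne
  have hpfi : pf (comb ω a) i = 0 := by
    rw [hcomb, pf_quad]
    exact hq
  have hac : dot a c = 0 := by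
    simp only [dot, ha, Pi.add_apply, Pi.smul_apply, smul_eq_mul] at hs ht ⊢
    linear_combination x 0 * hs + x 1 * ht
  have hm := AltM.comb hω a
  have hker : ∀ l, ∑ j, comb ω a l j * u j = 0 := by
    intro l
    have := horth a hac l
    have e : ∑ j, comb ω a l j * u j = - dot a (col ω u l) := by
      have : ∀ j, comb ω a l j * u j = - (comb ω a j l * u j) := by
        intro j; rw [(hm l).2 j]; ring
      simp only [this, Finset.sum_neg_distrib]
      congr 1
      simp only [comb, dot, col, Fin.sum_univ_five, Fin.sum_univ_three]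
      ring
    rw [e, this, neg_zero]
  apply h1 a ha0
  funext j
  have := kp hm hker i j
  rw [hpfi, mul_zero] at this
  exact (mul_eq_zero.1 this).resolve_left hi'

end

end SmoothM

theorem smooth_proof : Stmt_Smooth := by
  intro F _ _ _ ω hω hs
  have h1 := SmoothM.part1 hω hs
  exact ⟨h1, SmoothM.part2 hω h1⟩

end Pool.V5
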