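import Pool.Agent.V5.Basic
import Pool.Agent.V5.Smooth
import Pool.Agent.V5.Rel

set_option autoImplicit false

/-!
# ZREL: pairs of points on a special line
-/

namespace Pool.V5

open Finset NumberField Pool.Lib18ea5f

namespace ZRelM

section

variable {K : Type} [Field K]

/-- `3 x 3` minors of `(u, z, z')` -/
def T3 (u z w : Fin 5 → K) (a b c : Fin 5) : K :=
  u a * (z b * w c - z c * w b) - z a * (u b * w c - u c * w b) + w a * (u b * z c - u c * z b)

/-- complementary coordinates, as a function of the coordinates of a 3-vector -/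
def star (T : Fin 5 × Fin 5 × Fin 5 → K) : Fin 5 → Fin 5 → K :=
  ![![0, T (2, 3, 4), -T (1, 3, 4), T (1, 2, 4), -T (1, 2, 3)],
    ![-T (2, 3, 4), 0, T (0, 3, 4), -T (0, 2, 4), T (0, 2, 3)],
    ![T (1, 3, 4), -T (0, 3, 4), 0, T (0, 1, 4), -T (0, 1, 3)],
    ![-T (1, 2, 4), T (0, 2, 4), -T (0, 1, 4), 0, T (0, 1, 2)],
    ![T (1, 2, 3), -T (0, 2, 3), T (0, 1, 3), -T (0, 1, 2), 0]]

def TT (u z w : Fin 5 → K) : Fin 5 × Fin 5 × Fin 5 → K := fun t => T3 u z w t.1 t.2.1 t.2.2

theorem T3_swap (u z w : Fin 5 → K) (a b c : Fin 5) : T3 u z w b a c = - T3 u z w a b c := by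
  unfold T3; ring

theorem T3_swap' (u z w : Fin 5 → K) (a b c : Fin 5) : T3 u z w a c b = - T3 u z w a b c := by
  unfold T3; ring

theorem T3_self (u z w : Fin 5 → K) (a c : Fin 5) : T3 u z w a a c = 0 := by
  unfold T3; ring

theorem T3_self' (u z w : Fin 5 → K) (a c : Fin 5) : T3 u z w a c c = 0 := by
  unfold T3; ring

theorem T3_self'' (u z w : Fin 5 → K) (a c : Fin 5) : T3 u z w a c a = 0 := by
  unfold T3; ring

theorem star_diag (T : Fin 5 × Fin 5 × Fin 5 → K) (i : Fin 5) : star T i i = 0 := by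
  fin_cases i <;> rfl

theorem star_anti (T : Fin 5 × Fin 5 × Fin 5 → K) (i j : Fin 5) : star T i j = - star T j i := by
  fin_cases i <;> fin_cases j <;> simp [star]

theorem star_ker (u z w : Fin 5 → K) (i : Fin 5) :
    (∑ j, star (TT u z w) i j * u j = 0) ∧ (∑ j, star (TT u z w) i j * z j = 0) ∧
      (∑ j, star (TT u z w) i j * w j = 0) := by
  fin_cases i <;>
    (simp only [star, TT, T3, Fin.sum_univ_five, Fin.zero_eta, Fin.mk_one, Fin.reduceFinMk,
      Matrix.cons_val]; refine ⟨?_, ?_, ?_⟩ <;> ring)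

theorem exists_good (u z w : Fin 5 → K) (h : TT u z w ≠ 0) :
    ∃ i j a b c : Fin 5, star (TT u z w) i j ≠ 0 ∧ T3 u z w a b c ≠ 0 ∧
      ∀ m, m = a ∨ m = b ∨ m = c ∨ m = i ∨ m = j := by
  by_contra hcon
  push Not at hcon
  apply h
  have key : ∀ x y l : Fin 5, T3 u z w x y l = 0 := by
    apply Rel.tri_cases (fun x y l => T3 u z w x y l = 0)
    · intro x y l hx; rw [T3_swap, hx, neg_zero]
    · intro x y l hx; rw [T3_swap', hx, neg_zero]
    · intro x l; exact T3_self u z w x l
    all_goals
      by_contra hne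
    · obtain ⟨m, hm⟩ := hcon 3 4 0 1 2 (by simpa [star, TT] using hne) hne
      revert hm; revert m; decide
    · obtain ⟨m, hm⟩ := hcon 2 4 0 1 3 (by simpa [star, TT] using hne) hne
      revert hm; revert m; decide
    · obtain ⟨m, hm⟩ := hcon 2 3 0 1 4 (by simpa [star, TT] using hne) hne
      revert hm; revert m; decide
    · obtain ⟨m, hm⟩ := hcon 1 4 0 2 3 (by simpa [star, TT] using hne) hne
      revert hm; revert m; decide
    · obtain ⟨m, hm⟩ := hcon 1 3 0 2 4 (by simpa [star, TT] using hne) hne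
      revert hm; revert m; decide
    · obtain ⟨m, hm⟩ := hcon 1 2 0 3 4 (by simpa [star, TT] using hne) hne
      revert hm; revert m; decide
    · obtain ⟨m, hm⟩ := hcon 0 4 1 2 3 (by simpa [star, TT] using hne) hne
      revert hm; revert m; decide
    · obtain ⟨m, hm⟩ := hcon 0 3 1 2 4 (by simpa [star, TT] using hne) hne
      revert hm; revert m; decide
    · obtain ⟨m, hm⟩ := hcon 0 2 1 3 4 (by simpa [star, TT] using hne) hne
      revert hm; revert m; decide
    · obtain ⟨m, hm⟩ := hcon 0 1 2 3 4 (by simpa [star, TT] using hne) hne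
      revert hm; revert m; decide
  funext t
  exact key _ _ _

theorem dist5 {a b c i j : Fin 5} (hall : ∀ m, m = a ∨ m = b ∨ m = c ∨ m = i ∨ m = j) :
    i ≠ a ∧ i ≠ b ∧ i ≠ c ∧ j ≠ a ∧ j ≠ b ∧ j ≠ c := by
  have gen : ∀ x y z w : Fin 5, (∀ m : Fin 5, m = x ∨ m = y ∨ m = z ∨ m = w) → False := by
    intro x y z w h
    have h1 : (univ : Finset (Fin 5)) ⊆ {x, y, z, w} := by
      intro m _
      simpa using h m
    have h2 := card_le_card h1
    have h3 := card_le_four (a := x) (b := y) (c := z) (d := w)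
    simp only [card_univ, Fintype.card_fin] at h2
    omega
  refine ⟨?_, ?_, ?_, ?_, ?_, ?_⟩
  · rintro rfl; exact gen i b c j fun m => by rcases hall m with h | h | h | h | h <;> simp [h]
  · rintro rfl; exact gen a i c j fun m => by rcases hall m with h | h | h | h | h <;> simp [h]
  · rintro rfl; exact gen a b i j fun m => by rcases hall m with h | h | h | h | h <;> simp [h]
  · rintro rfl; exact gen j b c i fun m => by rcases hall m with h | h | h | h | h <;> simp [h]
  · rintro rfl; exact gen a j c i fun m => by rcases hall m with h | h | h | h | h <;> simp [h]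
  · rintro rfl; exact gen a b j i fun m => by rcases hall m with h | h | h | h | h <;> simp [h]

/-- contraction of `T` with a form vanishing on `u, z, w` -/
theorem contract {u z w : Fin 5 → K} {f : Fin 5 → K} (hu : ∑ m, f m * u m = 0)
    (hz : ∑ m, f m * z m = 0) (hw : ∑ m, f m * w m = 0) (b c : Fin 5) :
    ∑ m, f m * T3 u z w m b c = 0 := by
  simp only [Fin.sum_univ_five, T3] at *
  linear_combination (z b * w c - z c * w b) * hu - (u b * w c - u c * w b) * hz +
    (u b * z c - u c * z b) * hw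

/-- alternating matrices vanishing on `u, z, w` are proportional to `star T` -/
theorem prop {u z w : Fin 5 → K} {ρ : Fin 5 → Fin 5 → K} (h0 : ∀ i, ρ i i = 0)
    (h1 : ∀ i j, ρ i j = - ρ j i) (hu : ∀ i, ∑ j, ρ i j * u j = 0) (hz : ∀ i, ∑ j, ρ i j * z j = 0)
    (hw : ∀ i, ∑ j, ρ i j * w j = 0) {i j a b c : Fin 5} (hS : star (TT u z w) i j ≠ 0)
    (hT : T3 u z w a b c ≠ 0) (hall : ∀ m, m = a ∨ m = b ∨ m = c ∨ m = i ∨ m = j) :
    ∃ l : K, ∀ p q, ρ p q = l * star (TT u z w) p q := by
  set S := star (TT u z w) with hSdef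
  let l : K := ρ i j / S i j
  let D : Fin 5 → Fin 5 → K := fun p q => ρ p q - l * S p q
  have D0 : ∀ p, D p p = 0 := by
    intro p; simp only [D, h0, hSdef, star_diag]; ring
  have D1 : ∀ p q, D p q = - D q p := by
    intro p q; simp only [D, hSdef]; rw [h1 p q, star_anti _ p q]; ring
  have Dij : D i j = 0 := by
    simp only [D, l]
    rw [div_mul_cancel₀ _ hS, sub_self]
  have Dji : D j i = 0 := by rw [D1, Dij, neg_zero]
  have Dk : ∀ x : Fin 5 → K, (∀ p, ∑ q, ρ p q * x q = 0) → (∀ p, ∑ q, S p q * x q = 0) →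
      ∀ p, ∑ q, D p q * x q = 0 := by
    intro x hx hSx p
    have : ∀ q, D p q * x q = ρ p q * x q - l * (S p q * x q) := by
      intro q; simp only [D]; ring
    simp only [this]
    rw [Finset.sum_sub_distrib, ← Finset.mul_sum, hx p, hSx p]
    ring
  have Du := Dk u hu (fun p => (star_ker u z w p).1)
  have Dz := Dk z hz (fun p => (star_ker u z w p).2.1)
  have Dw := Dk w hw (fun p => (star_ker u z w p).2.2)
  have hcon : ∀ p b' c', ∑ m, D p m * T3 u z w m b' c' = 0 := fun p b' c' =>
    contract (Du p) (Dz p) (Dw p) b' c'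
  -- if the entries `D p i`, `D p j` vanish then the whole row vanishes
  have row : ∀ p, D p i = 0 → D p j = 0 → ∀ q, D p q = 0 := by
    intro p hpi hpj
    have hTb : T3 u z w b c a ≠ 0 := by
      rw [T3_swap', T3_swap, neg_neg]; exact hT
    have hTc : T3 u z w c a b ≠ 0 := by
      rw [T3_swap, T3_swap', neg_neg]; exact hT
    have ra : D p a = 0 := by
      have := hcon p b c
      rw [Finset.sum_eq_single a] at this
      · exact (mul_eq_zero.1 this).resolve_right hT
      · intro m _ hm
        rcases hall m with rfl | rfl | rfl | rfl | rfl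
        · exact absurd rfl hm
        · rw [T3_self, mul_zero]
        · rw [T3_self'', mul_zero]
        · rw [hpi, zero_mul]
        · rw [hpj, zero_mul]
      · intro h; exact absurd (mem_univ _) h
    have rb : D p b = 0 := by
      have := hcon p c a
      rw [Finset.sum_eq_single b] at this
      · exact (mul_eq_zero.1 this).resolve_right hTb
      · intro m _ hm
        rcases hall m with rfl | rfl | rfl | rfl | rfl
        · rw [T3_self'', mul_zero]
        · exact absurd rfl hm
        · rw [T3_self, mul_zero]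
        · rw [hpi, zero_mul]
        · rw [hpj, zero_mul]
      · intro h; exact absurd (mem_univ _) h
    have rc : D p c = 0 := by
      have := hcon p a b
      rw [Finset.sum_eq_single c] at this
      · exact (mul_eq_zero.1 this).resolve_right hTc
      · intro m _ hm
        rcases hall m with rfl | rfl | rfl | rfl | rfl
        · rw [T3_self, mul_zero]
        · rw [T3_self'', mul_zero]
        · exact absurd rfl hm
        · rw [hpi, zero_mul]
        · rw [hpj, zero_mul]
      · intro h; exact absurd (mem_univ _) h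
    intro q
    rcases hall q with rfl | rfl | rfl | rfl | rfl
    · exact ra
    · exact rb
    · exact rc
    · exact hpi
    · exact hpj
  have ri := row i (D0 i) Dij
  have rj := row j Dji (D0 j)
  refine ⟨l, fun p q => ?_⟩
  have := row p (by rw [D1, ri, neg_zero]) (by rw [D1, rj, neg_zero]) q
  simp only [D] at this
  exact sub_eq_zero.1 this

/-- the wedge of two elements of `u ∧ U` -/
theorem wedge_eq (u z w : Fin 5 → K) (a b c d : Fin 5) :
    wedge (pl u z) (pl u w) ((a, b), (c, d)) = u b * T3 u z w a c d - u a * T3 u z w b c d := by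
  simp only [wedge, pl, T3]; ring

theorem two_uT (u z w : Fin 5 → K) (a b c d : Fin 5) :
    - wedge (pl u z) (pl u w) ((a, b), (c, d)) + wedge (pl u z) (pl u w) ((a, c), (b, d)) -
      wedge (pl u z) (pl u w) ((a, d), (b, c)) = 2 * (u a * T3 u z w b c d) := by
  simp only [wedge, pl, T3]; ring

end

section

variable {K : Type} [Field K] [NumberField K]

theorem lin_height {ι ι' : Type} [Fintype ι] [Nonempty ι] [Fintype ι'] [DecidableEq ι]
    (L : (ι → K) →ₗ[K] (ι' → K)) :
    ∃ C : ℝ, 1 ≤ C ∧ ∀ x, Height.mulHeight (L x) ≤ C * Height.mulHeight x := by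
  refine ⟨Nat.card ι ^ Height.totalWeight K *
    Height.mulHeight (fun s : ι' × ι => L (Pi.single s.2 1) s.1), ?_, fun x => ?_⟩
  · rw [show (1 : ℝ) = 1 * 1 by ring]
    refine mul_le_mul ?_ (Height.one_le_mulHeight _) zero_le_one (by positivity)
    exact_mod_cast Nat.one_le_pow _ _ Nat.card_pos
  · have := Height.mulHeight_linearMap_apply_le (fun s : ι' × ι => L (Pi.single s.2 1) s.1) x
    refine le_trans (le_of_eq ?_) this
    congr 1
    funext j
    have e : x = ∑ i, x i • Pi.single i (1 : K) := by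
      funext k
      simp [Finset.sum_apply, Pi.single_apply]
    conv_lhs => rw [e]
    rw [map_sum, Finset.sum_apply]
    refine Finset.sum_congr rfl fun i _ => ?_
    rw [map_smul]
    simp only [Pi.smul_apply, smul_eq_mul]
    ring

/-- linear map `T ↦ star T` -/
def Lstar : (Fin 5 × Fin 5 × Fin 5 → K) →ₗ[K] (Fin 5 × Fin 5 → K) where
  toFun T := fun s => star T s.1 s.2
  map_add' T T' := by
    funext ⟨i, j⟩
    fin_cases i <;> fin_cases j <;> simp [star] <;> ring
  map_smul' c T := by
    funext ⟨i, j⟩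
    fin_cases i <;> fin_cases j <;> simp [star]

/-- linear map `W ↦ 2 u ⊗ T` -/
def Lwed : ((Fin 5 × Fin 5) × (Fin 5 × Fin 5) → K) →ₗ[K] (Fin 5 × (Fin 5 × Fin 5 × Fin 5) → K) where
  toFun W := fun s => - W ((s.1, s.2.1), (s.2.2.1, s.2.2.2)) + W ((s.1, s.2.2.1), (s.2.1, s.2.2.2)) -
    W ((s.1, s.2.2.2), (s.2.1, s.2.2.1))
  map_add' W W' := by
    funext s
    simp only [Pi.add_apply]
    ring
  map_smul' c W := by
    funext s
    simp only [Pi.smul_apply, smul_eq_mul, RingHom.id_apply]
    ring

theorem height_prop {ι : Type} [Fintype ι] {x y : ι → K} (hx : x ≠ 0) (hy : y ≠ 0)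
    (h : ∀ i j, x i * y j = x j * y i) : Height.mulHeight y = Height.mulHeight x := by
  obtain ⟨i, hi⟩ := Function.ne_iff.mp hx
  have hi' : x i ≠ 0 := hi
  have e : y = (y i / x i) • x := by
    funext j
    simp only [Pi.smul_apply, smul_eq_mul]
    have := h i j
    field_simp
    linear_combination this
  have hc : y i / x i ≠ 0 := by
    intro h0
    apply hy
    rw [e, h0, zero_smul]
  rw [e]
  exact Height.mulHeight_smul_eq_mulHeight _ hc

end

end ZRelM

open ZRelM in
theorem zrel_proof : Stmt_ZRel := by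
  intro K _ _ ω M Δ hω hN
  obtain ⟨C1, hC1, hS⟩ := lin_height (K := K) (Lstar (K := K))
  obtain ⟨C2, hC2, hW⟩ := lin_height (K := K) (Lwed (K := K))
  obtain ⟨C3, hC3, hpf⟩ := hN.hpfH
  obtain ⟨C4, hC4, hav⟩ := hN.havH
  refine ⟨(C4 * C1) ^ 2 * C3 * C2 ^ 2, ?_, fun u z w hz hw hne => ?_⟩
  · have h1 : (1 : ℝ) ≤ (C4 * C1) ^ 2 := one_le_pow₀ (by nlinarith)
    have h2 : (1 : ℝ) ≤ C2 ^ 2 := one_le_pow₀ hC2
    nlinarith [mul_le_mul h1 hC3 zero_le_one (by positivity)]
  have hωK : IsAlt (toK ω) := IsAlt.map _ hω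
  -- `T ≠ 0`, `u ≠ 0`
  have hT : TT u z w ≠ 0 := by
    intro h0
    apply hne
    funext ⟨⟨a, b⟩, ⟨c, d⟩⟩
    have h1 : ∀ p q r, T3 u z w p q r = 0 := fun p q r => congrFun h0 (p, q, r)
    rw [wedge_eq, h1, h1]
    simp
  have hu : u ≠ 0 := by
    rintro rfl
    apply hne
    funext s
    simp [wedge, pl]
  obtain ⟨i, j, a, b, c, hSij, hTabc, hall⟩ := exists_good u z w hT
  set cl : Fin 5 → Fin 3 → K := fun m => col (toK ω) u m with hcl
  -- kernel relations
  have hk : ∀ x : Fin 5 → K, (∀ k, bil (toK ω k) u x = 0) → ∀ k, ∑ m, cl m k * x m = 0 := by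
    intro x hx k
    rw [← hx k]
    simp only [hcl, col, bil, Fin.sum_univ_five]
    ring
  have ku : ∀ k, ∑ m, cl m k * u m = 0 :=
    hk u (fun k => SmoothM.bil_self (m := toK ω k) (fun i => hωK k i) u)
  have kz := hk z hz
  have kw := hk w hw
  have kT : ∀ k b' c', ∑ m, cl m k * T3 u z w m b' c' = 0 := fun k b' c' =>
    contract (f := fun m => cl m k) (ku k) (kz k) (kw k) b' c'
  -- every column is a combination of the columns `i`, `j`
  have hcomb : ∀ m, ∃ x y : K, T3 u z w a b c • cl m = x • cl i + y • cl j := by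
    have gen : ∀ (p q r : Fin 5), (∀ m, m = p ∨ m = q ∨ m = r ∨ m = i ∨ m = j) →
        T3 u z w p q r ≠ 0 → i ≠ p → j ≠ p → i ≠ j → ∃ x y : K, T3 u z w p q r • cl p = x • cl i + y • cl j := by
      intro p q r hal hpq hip hjp hij
      refine ⟨- T3 u z w i q r, - T3 u z w j q r, ?_⟩
      funext k
      have := kT k q r
      have e : ∑ m, cl m k * T3 u z w m q r = cl p k * T3 u z w p q r + (cl i k * T3 u z w i q r +
          cl j k * T3 u z w j q r) := by
        have hsub : ∑ m ∈ ({p, i, j} : Finset (Fin 5)), cl m k * T3 u z w m q r =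
            ∑ m, cl m k * T3 u z w m q r := by
          apply Finset.sum_subset (subset_univ _)
          intro m _ hm
          simp only [mem_insert, mem_singleton, not_or] at hm
          rcases hal m with rfl | rfl | rfl | rfl | rfl
          · exact absurd rfl hm.1
          · rw [T3_self, mul_zero]
          · rw [T3_self'', mul_zero]
          · exact absurd rfl hm.2.1
          · exact absurd rfl hm.2.2
        rw [← hsub, Finset.sum_insert (by simp [hip.symm, hjp.symm]), Finset.sum_pair hij]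
      rw [e] at this
      simp only [Pi.add_apply, Pi.smul_apply, smul_eq_mul]
      linear_combination this
    have hij : i ≠ j := by
      rintro rfl
      exact hSij (star_diag _ _)
    -- all five indices are distinct
    have hdist := dist5 hall
    obtain ⟨d1, d2, d3, d4, d5, d6⟩ := hdist
    have hTb : T3 u z w b c a = T3 u z w a b c := by
      rw [T3_swap', T3_swap, neg_neg]
    have hTc : T3 u z w c a b = T3 u z w a b c := by
      rw [T3_swap, T3_swap', neg_neg]
    intro m
    rcases hall m with rfl | rfl | rfl | rfl | rfl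
    · exact gen m b c hall hTabc d1 d4 hij
    · obtain ⟨x, y, h⟩ := gen m c a (fun k => by rcases hall k with h | h | h | h | h <;> simp [h])
        (by rw [hTb]; exact hTabc) d2 d5 hij
      exact ⟨x, y, by rw [← hTb]; exact h⟩
    · obtain ⟨x, y, h⟩ := gen m a b (fun k => by rcases hall k with h | h | h | h | h <;> simp [h])
        (by rw [hTc]; exact hTabc) d3 d6 hij
      exact ⟨x, y, by rw [← hTc]; exact h⟩
    · exact ⟨T3 u z w a b c, 0, by simp⟩
    · exact ⟨0, T3 u z w a b c, by simp⟩
  set α : Fin 3 → K := cr (cl i) (cl j) with hα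
  set t := T3 u z w a b c with ht
  -- `α` is orthogonal to all columns
  have horth : ∀ m, dot α (cl m) = 0 := by
    intro m
    obtain ⟨x, y, h⟩ := hcomb m
    have h0 := congrFun h 0
    have h1 := congrFun h 1
    have h2 := congrFun h 2
    simp only [Pi.add_apply, Pi.smul_apply, smul_eq_mul] at h0 h1 h2
    have e1 := dot_cr_left (cl i) (cl j)
    have e2 := dot_cr_right (cl i) (cl j)
    rw [← hα] at e1 e2
    simp only [dot] at e1 e2 ⊢
    have : t * (α 0 * cl m 0 + α 1 * cl m 1 + α 2 * cl m 2) = 0 := by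
      linear_combination α 0 * h0 + α 1 * h1 + α 2 * h2 + x * e1 + y * e2
    exact (mul_eq_zero.1 this).resolve_left hTabc
  have hMzero : ∀ x : K, algebraMap (𝓞 K) K Δ * x ^ M = 0 → x = 0 := by
    intro x hx
    rcases mul_eq_zero.1 hx with h | h
    · exact absurd ((map_eq_zero_iff _ (RingOfIntegers.coe_injective)).1 h) hN.hΔ
    · by_contra hne'
      exact pow_ne_zero M hne' h
  -- `α ≠ 0`
  have hα0 : α ≠ 0 := by
    intro h0
    have hall0 : ∀ p q, cr (cl p) (cl q) = 0 := by
      intro p q
      obtain ⟨x, y, h⟩ := hcomb p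
      obtain ⟨x', y', h'⟩ := hcomb q
      have g0 := congrFun h0 0
      have g1 := congrFun h0 1
      have g2 := congrFun h0 2
      simp only [hα, cr, Matrix.cons_val, Pi.zero_apply] at g0 g1 g2
      have a0 := congrFun h 0
      have a1 := congrFun h 1
      have a2 := congrFun h 2
      have b0 := congrFun h' 0
      have b1 := congrFun h' 1
      have b2 := congrFun h' 2
      simp only [Pi.add_apply, Pi.smul_apply, smul_eq_mul] at a0 a1 a2 b0 b1 b2
      have htt : t * t ≠ 0 := mul_ne_zero hTabc hTabc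
      have c0 : (t * t) * (cl p 1 * cl q 2 - cl p 2 * cl q 1) = 0 := by
        calc (t * t) * (cl p 1 * cl q 2 - cl p 2 * cl q 1) =
            (t * cl p 1) * (t * cl q 2) - (t * cl p 2) * (t * cl q 1) := by ring
          _ = 0 := by
            rw [a1, b2, a2, b1]
            linear_combination (x * y' - y * x') * g0
      have c1 : (t * t) * (cl p 2 * cl q 0 - cl p 0 * cl q 2) = 0 := by
        calc (t * t) * (cl p 2 * cl q 0 - cl p 0 * cl q 2) =
            (t * cl p 2) * (t * cl q 0) - (t * cl p 0) * (t * cl q 2) := by ring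
          _ = 0 := by
            rw [a2, b0, a0, b2]
            linear_combination (x * y' - y * x') * g1
      have c2 : (t * t) * (cl p 0 * cl q 1 - cl p 1 * cl q 0) = 0 := by
        calc (t * t) * (cl p 0 * cl q 1 - cl p 1 * cl q 0) =
            (t * cl p 0) * (t * cl q 1) - (t * cl p 1) * (t * cl q 0) := by ring
          _ = 0 := by
            rw [a0, b1, a1, b0]
            linear_combination (x * y' - y * x') * g2
      funext k
      fin_cases k
      · exact (mul_eq_zero.1 c0).resolve_left htt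
      · exact (mul_eq_zero.1 c1).resolve_left htt
      · exact (mul_eq_zero.1 c2).resolve_left htt
    apply hu
    funext m
    obtain ⟨cc, hc⟩ := hN.hav K (algebraMap (𝓞 K) K) u m
    have hz0 : ∀ q k, av (mp (algebraMap (𝓞 K) K) ω) u q k = 0 := by
      intro q k
      exact congrFun (hall0 q.1 q.2) k
    simp only [hz0, mul_zero, Finset.sum_const_zero] at hc
    exact hMzero _ hc.symm
  obtain ⟨k0, hk0⟩ := Function.ne_iff.mp hα0
  have hk0' : α k0 ≠ 0 := hk0
  let ρ : Fin 5 → Fin 5 → K := fun p q => cr (cl p) (cl q) k0 / α k0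
  have hρ : ∀ p q l, cr (cl p) (cl q) l = ρ p q * α l := by
    intro p q l
    have := cr_par (horth p) (horth q) k0 l
    simp only [ρ]
    rw [div_mul_eq_mul_div, eq_div_iff hk0']
    linear_combination this
  have cr_self : ∀ x : Fin 3 → K, ∀ l, cr x x l = 0 := by
    intro x l; fin_cases l <;> simp [cr, mul_comm]
  have cr_anti : ∀ (x y : Fin 3 → K) (l : Fin 3), cr x y l = - cr y x l := by
    intro x y l; fin_cases l <;> simp [cr] <;> ring
  have hρ0 : ∀ p, ρ p p = 0 := by
    intro p; simp only [ρ, cr_self, zero_div]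
  have hρ1 : ∀ p q, ρ p q = - ρ q p := by
    intro p q; simp only [ρ]; rw [cr_anti (cl p) (cl q), neg_div]
  have hρk : ∀ x : Fin 5 → K, (∀ k, ∑ m, cl m k * x m = 0) → ∀ p, ∑ q, ρ p q * x q = 0 := by
    intro x hx p
    have e0 := hx 0
    have e1 := hx 1
    have e2 := hx 2
    simp only [Fin.sum_univ_five] at e0 e1 e2
    have : ∑ q, ρ p q * x q = (∑ q, cr (cl p) (cl q) k0 * x q) / α k0 := by
      rw [Finset.sum_div]
      exact Finset.sum_congr rfl fun q _ => by simp only [ρ]; ring
    rw [this, div_eq_zero_iff]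
    left
    simp only [Fin.sum_univ_five]
    fin_cases k0 <;> simp only [cr, Fin.zero_eta, Fin.mk_one, Fin.reduceFinMk, Matrix.cons_val]
    · linear_combination cl p 1 * e2 - cl p 2 * e1
    · linear_combination cl p 2 * e0 - cl p 0 * e2
    · linear_combination cl p 0 * e1 - cl p 1 * e0
  obtain ⟨l, hl⟩ := prop hρ0 hρ1 (hρk u ku) (hρk z kz) (hρk w kw) hSij hTabc hall
  have hρij : ρ i j = 1 := by
    simp only [ρ]
    rw [← hα]
    exact div_self hk0'
  have hl0 : l ≠ 0 := by
    rintro rfl
    rw [hl, zero_mul] at hρij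
    exact zero_ne_one hρij
  -- heights
  set rr : Fin 5 × Fin 5 → K := fun s => ρ s.1 s.2 with hrr
  have hrr0 : rr ≠ 0 := by
    intro h0
    have := congrFun h0 (i, j)
    simp only [hrr, Pi.zero_apply] at this
    rw [hρij] at this
    exact one_ne_zero this
  have h_rr : Height.mulHeight rr ≤ C1 * Height.mulHeight (TT u z w) := by
    have e : rr = l • (Lstar (K := K) (TT u z w)) := by
      funext s
      simp only [hrr, hl]
      rfl
    rw [e, Height.mulHeight_smul_eq_mulHeight _ hl0]
    exact hS _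
  have h_av : Height.mulHeight (fun s : (Fin 5 × Fin 5) × Fin 3 =>
      av (mp (algebraMap (𝓞 K) K) ω) u s.1 s.2) = Height.mulHeight rr * Height.mulHeight α := by
    rw [← Height.mulHeight_fun_mul_eq hrr0 hα0]
    congr 1
    funext s
    exact hρ s.1.1 s.1.2 s.2
  have h1 : Height.mulHeight u ^ 2 ≤ C4 * C1 * (Height.mulHeight (TT u z w) * Height.mulHeight α) := by
    refine (hav u).trans ?_
    rw [h_av]
    have : Height.mulHeight rr * Height.mulHeight α ≤
        (C1 * Height.mulHeight (TT u z w)) * Height.mulHeight α :=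
      mul_le_mul_of_nonneg_right h_rr (Height.mulHeight_pos _).le
    calc C4 * (Height.mulHeight rr * Height.mulHeight α) ≤
        C4 * ((C1 * Height.mulHeight (TT u z w)) * Height.mulHeight α) :=
          mul_le_mul_of_nonneg_left this (by linarith)
      _ = _ := by ring
  have h_pf : Height.mulHeight (pf (comb (toK ω) α)) = Height.mulHeight u := by
    have hpf0 : pf (comb (toK ω) α) ≠ 0 := by
      intro h0
      apply hα0
      funext m
      obtain ⟨cc, hc⟩ := hN.hpf K (algebraMap (𝓞 K) K) α m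
      have h0' : pf (comb (mp (algebraMap (𝓞 K) K) ω) α) = 0 := h0
      rw [h0'] at hc
      simp only [Pi.zero_apply, mul_zero, Finset.sum_const_zero] at hc
      exact hMzero _ hc.symm
    exact height_prop hu hpf0 (fun p q => pf_par' hωK α u horth p q)
  have h2 : Height.mulHeight α ^ 2 ≤ C3 * Height.mulHeight u := by
    have := hpf α
    rw [← h_pf]
    exact this
  have h3 : Height.mulHeight u * Height.mulHeight (TT u z w) ≤
      C2 * Height.mulHeight (wedge (pl u z) (pl u w)) := by
    rw [← Height.mulHeight_fun_mul_eq hu hT]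
    have := hW (wedge (pl u z) (pl u w))
    refine le_trans (le_of_eq ?_) this
    have e : Lwed (K := K) (wedge (pl u z) (pl u w)) =
        (2 : K) • (fun s : Fin 5 × (Fin 5 × Fin 5 × Fin 5) => u s.1 * TT u z w s.2) := by
      funext s
      exact two_uT u z w s.1 s.2.1 s.2.2.1 s.2.2.2
    rw [e, Height.mulHeight_smul_eq_mulHeight _ two_ne_zero]
  set hu' := Height.mulHeight u with hhu
  set hT' := Height.mulHeight (TT u z w)
  set hα' := Height.mulHeight α
  set hW' := Height.mulHeight (wedge (pl u z) (pl u w))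
  have pu : 0 < hu' := Height.mulHeight_pos _
  have pT : 0 < hT' := Height.mulHeight_pos _
  have pα : 0 < hα' := Height.mulHeight_pos _
  have pW : 0 < hW' := Height.mulHeight_pos _
  -- `hu'^4 ≤ (C4 C1)^2 hT'^2 C3 hu'`
  have h4 : hu' ^ 4 ≤ (C4 * C1) ^ 2 * (hT' ^ 2 * (C3 * hu')) := by
    calc hu' ^ 4 = (hu' ^ 2) ^ 2 := by ring
      _ ≤ (C4 * C1 * (hT' * hα')) ^ 2 := pow_le_pow_left₀ (by positivity) h1 2
      _ = (C4 * C1) ^ 2 * (hT' ^ 2 * hα' ^ 2) := by ring
      _ ≤ (C4 * C1) ^ 2 * (hT' ^ 2 * (C3 * hu')) := by gcongr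
  have h5 : hu' ^ 3 ≤ (C4 * C1) ^ 2 * C3 * hT' ^ 2 := by
    have : hu' ^ 3 * hu' ≤ ((C4 * C1) ^ 2 * C3 * hT' ^ 2) * hu' := by
      calc hu' ^ 3 * hu' = hu' ^ 4 := by ring
        _ ≤ _ := h4
        _ = _ := by ring
    exact le_of_mul_le_mul_right this pu
  have h6 : (hu' * hT') ^ 2 ≤ (C2 * hW') ^ 2 := pow_le_pow_left₀ (by positivity) h3 2
  calc hu' ^ 5 = hu' ^ 3 * hu' ^ 2 := by ring
    _ ≤ ((C4 * C1) ^ 2 * C3 * hT' ^ 2) * hu' ^ 2 := mul_le_mul_of_nonneg_right h5 (by positivity)
    _ = (C4 * C1) ^ 2 * C3 * (hu' * hT') ^ 2 := by ring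
    _ ≤ (C4 * C1) ^ 2 * C3 * (C2 * hW') ^ 2 := mul_le_mul_of_nonneg_left h6 (by positivity)
    _ = (C4 * C1) ^ 2 * C3 * C2 ^ 2 * hW' ^ 2 := by ring

end Pool.V5
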