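import Pool.Agent.V5.Stmts

set_option autoImplicit false

/-!
# Alternating 5x5 matrices
-/

namespace Pool.V5

open Finset Pool.Lib18ea5f

section

variable {R : Type*} [CommRing R] {m : Fin 5 → Fin 5 → R}

/-- alternating -/
def AltM (m : Fin 5 → Fin 5 → R) : Prop := ∀ i, m i i = 0 ∧ ∀ j, m i j = - m j i

theorem AltM.comb {ω : Fin 3 → Fin 5 → Fin 5 → R} (h : IsAlt ω) (a : Fin 3 → R) :
    AltM (comb ω a) := by
  intro i
  refine ⟨?_, fun j => ?_⟩
  · unfold Pool.V5.comb
    exact Finset.sum_eq_zero fun k _ => by rw [(h k i).1, mul_zero]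
  · unfold Pool.V5.comb
    rw [← Finset.sum_neg_distrib]
    exact Finset.sum_congr rfl fun k _ => by rw [(h k i).2 j]; ring

/-- the kernel vector: if `m u = 0` then `pf m` is proportional to `u` -/
theorem kp (hm : AltM m) {u : Fin 5 → R} (h : ∀ l, ∑ j, m l j * u j = 0) (i j : Fin 5) :
    u i * pf m j = u j * pf m i := by
  have d0 := (hm 0).1
  have d1 := (hm 1).1
  have d2 := (hm 2).1
  have d3 := (hm 3).1
  have d4 := (hm 4).1
  have a10 := (hm 1).2 0
  have a20 := (hm 2).2 0
  have a30 := (hm 3).2 0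
  have a40 := (hm 4).2 0
  have a21 := (hm 2).2 1
  have a31 := (hm 3).2 1
  have a41 := (hm 4).2 1
  have a32 := (hm 3).2 2
  have a42 := (hm 4).2 2
  have a43 := (hm 4).2 3
  have g0 := h 0
  have g1 := h 1
  have g2 := h 2
  have g3 := h 3
  have g4 := h 4
  simp only [Fin.sum_univ_five, d0, d1, d2, d3, d4, a10, a20, a30, a40, a21, a31, a41, a32, a42, a43]
    at g0 g1 g2 g3 g4
  have e01 : u 0 * pf m 1 = u 1 * pf m 0 := by
    simp only [pf, Matrix.cons_val]
    linear_combination m 3 4 * g2 - m 2 4 * g3 + m 2 3 * g4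
  have e02 : u 0 * pf m 2 = u 2 * pf m 0 := by
    simp only [pf, Matrix.cons_val]
    linear_combination - m 3 4 * g1 + m 1 4 * g3 - m 1 3 * g4
  have e03 : u 0 * pf m 3 = u 3 * pf m 0 := by
    simp only [pf, Matrix.cons_val]
    linear_combination m 2 4 * g1 - m 1 4 * g2 + m 1 2 * g4
  have e04 : u 0 * pf m 4 = u 4 * pf m 0 := by
    simp only [pf, Matrix.cons_val]
    linear_combination - m 2 3 * g1 + m 1 3 * g2 - m 1 2 * g3
  have e12 : u 1 * pf m 2 = u 2 * pf m 1 := by
    simp only [pf, Matrix.cons_val]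
    linear_combination m 3 4 * g0 - m 0 4 * g3 + m 0 3 * g4
  have e13 : u 1 * pf m 3 = u 3 * pf m 1 := by
    simp only [pf, Matrix.cons_val]
    linear_combination - m 2 4 * g0 + m 0 4 * g2 - m 0 2 * g4
  have e14 : u 1 * pf m 4 = u 4 * pf m 1 := by
    simp only [pf, Matrix.cons_val]
    linear_combination m 2 3 * g0 - m 0 3 * g2 + m 0 2 * g3
  have e23 : u 2 * pf m 3 = u 3 * pf m 2 := by
    simp only [pf, Matrix.cons_val]
    linear_combination m 1 4 * g0 - m 0 4 * g1 + m 0 1 * g4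
  have e24 : u 2 * pf m 4 = u 4 * pf m 2 := by
    simp only [pf, Matrix.cons_val]
    linear_combination - m 1 3 * g0 + m 0 3 * g1 - m 0 1 * g3
  have e34 : u 3 * pf m 4 = u 4 * pf m 3 := by
    simp only [pf, Matrix.cons_val]
    linear_combination m 1 2 * g0 - m 0 2 * g1 + m 0 1 * g2
  fin_cases i <;> fin_cases j <;>
    first
      | rfl
      | exact e01 | exact e02 | exact e03 | exact e04 | exact e12 | exact e13 | exact e14
      | exact e23 | exact e24 | exact e34
      | exact e01.symm | exact e02.symm | exact e03.symm | exact e04.symm | exact e12.symm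
      | exact e13.symm | exact e14.symm | exact e23.symm | exact e24.symm | exact e34.symm

/-- the Pfaffian of four indices -/
def P4 (m : Fin 5 → Fin 5 → R) (l p q r : Fin 5) : R :=
  m l p * m q r - m l q * m p r + m l r * m p q

theorem P4_s12 (hm : AltM m) (l p q r : Fin 5) : P4 m p l q r = - P4 m l p q r := by
  unfold P4; rw [(hm p).2 l]; ring

theorem P4_s23 (hm : AltM m) (l p q r : Fin 5) : P4 m l q p r = - P4 m l p q r := by
  unfold P4; rw [(hm q).2 p]; ring

theorem P4_s34 (hm : AltM m) (l p q r : Fin 5) : P4 m l p r q = - P4 m l p q r := by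
  unfold P4; rw [(hm r).2 q]; ring

theorem P4_e12 (hm : AltM m) (l q r : Fin 5) : P4 m l l q r = 0 := by
  unfold P4; rw [(hm l).1]; ring

theorem P4_e23 (hm : AltM m) (l p r : Fin 5) : P4 m l p p r = 0 := by
  unfold P4; rw [(hm p).1]; ring

theorem P4_e34 (hm : AltM m) (l p q : Fin 5) : P4 m l p q q = 0 := by
  unfold P4; rw [(hm q).1]; ring

theorem P4_sorted (h : pf m = 0) : ∀ l p q r : Fin 5, l < p → p < q → q < r → P4 m l p q r = 0 := by
  intro l p q r h1 h2 h3
  have key : (l = 0 ∧ p = 1 ∧ q = 2 ∧ r = 3) ∨ (l = 0 ∧ p = 1 ∧ q = 2 ∧ r = 4) ∨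
      (l = 0 ∧ p = 1 ∧ q = 3 ∧ r = 4) ∨ (l = 0 ∧ p = 2 ∧ q = 3 ∧ r = 4) ∨
      (l = 1 ∧ p = 2 ∧ q = 3 ∧ r = 4) := by
    omega
  have g0 := congrFun h 0
  have g1 := congrFun h 1
  have g2 := congrFun h 2
  have g3 := congrFun h 3
  have g4 := congrFun h 4
  simp only [pf, Matrix.cons_val, Pi.zero_apply] at g0 g1 g2 g3 g4
  unfold P4
  rcases key with ⟨rfl, rfl, rfl, rfl⟩ | ⟨rfl, rfl, rfl, rfl⟩ | ⟨rfl, rfl, rfl, rfl⟩ |
    ⟨rfl, rfl, rfl, rfl⟩ | ⟨rfl, rfl, rfl, rfl⟩
  · linear_combination g4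
  · linear_combination -g3
  · linear_combination g2
  · linear_combination -g1
  · linear_combination g0

theorem P4_zero (hm : AltM m) (h : pf m = 0) (l p q r : Fin 5) : P4 m l p q r = 0 := by
  have A : ∀ l p q r : Fin 5, p < q → q < r → P4 m l p q r = 0 := by
    intro l p q r h1 h2
    rcases lt_trichotomy l p with h3 | rfl | h3
    · exact P4_sorted h l p q r h3 h1 h2
    · exact P4_e12 hm _ _ _
    · rw [P4_s12 hm, neg_eq_zero]
      rcases lt_trichotomy l q with h4 | rfl | h4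
      · exact P4_sorted h p l q r h3 h4 h2
      · exact P4_e23 hm _ _ _
      · rw [P4_s23 hm, neg_eq_zero]
        rcases lt_trichotomy l r with h5 | rfl | h5
        · exact P4_sorted h p q l r h1 h4 h5
        · exact P4_e34 hm _ _ _
        · rw [P4_s34 hm, neg_eq_zero]
          exact P4_sorted h p q r l h1 h2 h5
  have B : ∀ l p q r : Fin 5, q < r → P4 m l p q r = 0 := by
    intro l p q r h2
    rcases lt_trichotomy p q with h4 | rfl | h4
    · exact A l p q r h4 h2
    · exact P4_e23 hm _ _ _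
    · rw [P4_s23 hm, neg_eq_zero]
      rcases lt_trichotomy p r with h5 | rfl | h5
      · exact A l q p r h4 h5
      · exact P4_e34 hm _ _ _
      · rw [P4_s34 hm, neg_eq_zero]
        exact A l q r p h2 h5
  rcases lt_trichotomy q r with h4 | rfl | h4
  · exact B l p q r h4
  · exact P4_e34 hm _ _ _
  · rw [P4_s34 hm, neg_eq_zero]
    exact B l p r q h4

end

end Pool.V5
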